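import Mathlib

namespace Pool.Agent.Helper24

theorem s1_aux {x2 x3 p1 p2 p3 q1 q2 q3 : ℝ}
    (xx : x2 ^ 2 + x3 ^ 2 = 1)
    (pp : p1 ^ 2 + p2 ^ 2 + p3 ^ 2 = 1) (qq : q1 ^ 2 + q2 ^ 2 + q3 ^ 2 = 1)
    (c1 : p1 ^ 2 + q1 ^ 2 = 1) (c2 : x2 ^ 2 + p2 ^ 2 + q2 ^ 2 = 1)
    (c3 : x3 ^ 2 + p3 ^ 2 + q3 ^ 2 = 1)
    (c12 : p1 * p2 + q1 * q2 = 0) (c13 : p1 * p3 + q1 * q3 = 0)
    (c23 : x2 * x3 + p2 * p3 + q2 * q3 = 0)
    (e0 : x2 * (p1 * q3 + p3 * q1) + x3 * (p1 * q2 + p2 * q1) = 0)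
    (hx : (1/2 - x2^2) * x2 * (q1 * q3 - p1 * p3) + (1/2 - x3^2) * x3 * (q1 * q2 - p1 * p2) = 0)
    (hp : (1/2 - p1^2) * p1 * (q2 * q3 - p2 * p3) + (1/2 - p2^2) * p2 * (q1 * q3 - p1 * p3)
      + (1/2 - p3^2) * p3 * (q1 * q2 - p1 * p2) = 0)
    (hq : (1/2 - q1^2) * q1 * (q2 * q3 - p2 * p3) + (1/2 - q2^2) * q2 * (q1 * q3 - p1 * p3)
      + (1/2 - q3^2) * q3 * (q1 * q2 - p1 * p2) = 0) : False := by
  have hqq : q2 * q3 = - p1 ^ 2 * (x2 * x3) := by
    linear_combination (-(q2 * q3)) * c1 + p1 ^ 2 * c23 - p1 * p2 * c13 + q1 * q3 * c12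
  have hpp : p2 * p3 = - q1 ^ 2 * (x2 * x3) := by
    linear_combination (-(p2 * p3)) * c1 + q1 ^ 2 * c23 + p1 * p2 * c13 - q1 * q3 * c12
  have hq1 : q1 * (x2 * x3) = 0 := by
    have h1 : q1 * q3 - p1 * p3 = 2 * (q1 * q3) := by linear_combination -c13
    have h2 : q1 * q2 - p1 * p2 = 2 * (q1 * q2) := by linear_combination -c12
    have h3 : q2 * q3 - p2 * p3 = 2 * (q2 * q3) + x2 * x3 := by linear_combination -c23
    rw [h1, h2, h3] at hq
    linear_combination (-2) * hq + 2 * q1 * hqq - 4 * q1 * q2 * q3 * qq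
      + 2 * (x2 * x3) * q1 * (-1) * c1
  have hp1 : p1 * (x2 * x3) = 0 := by
    have h1 : q1 * q3 - p1 * p3 = -2 * (p1 * p3) := by linear_combination c13
    have h2 : q1 * q2 - p1 * p2 = -2 * (p1 * p2) := by linear_combination c12
    have h3 : q2 * q3 - p2 * p3 = -2 * (p2 * p3) - x2 * x3 := by linear_combination c23
    rw [h1, h2, h3] at hp
    linear_combination 2 * hp + 2 * p1 * hpp - 4 * p1 * p2 * p3 * pp
      + 2 * (x2 * x3) * p1 * (-1) * c1
  have hm : x2 * x3 = 0 := by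
    linear_combination p1 * hp1 + q1 * hq1 - (x2 * x3) * c1
  rcases mul_eq_zero.mp hm with h | h
  · subst h
    have hx3 : x3 ^ 2 = 1 := by linarith
    have hx3' : x3 ≠ 0 := by
      rintro rfl
      norm_num at hx3
    have hp3 : p3 = 0 := by
      have : p3 ^ 2 = 0 := by nlinarith [sq_nonneg p3, sq_nonneg q3]
      exact pow_eq_zero_iff (two_ne_zero) |>.mp this
    have hq3 : q3 = 0 := by
      have : q3 ^ 2 = 0 := by nlinarith [sq_nonneg p3, sq_nonneg q3]
      exact pow_eq_zero_iff (two_ne_zero) |>.mp this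
    subst hp3
    subst hq3
    have e1 : p1 * q2 + p2 * q1 = 0 := by
      have : x3 * (p1 * q2 + p2 * q1) = 0 := by linear_combination e0
      exact (mul_eq_zero.mp this).resolve_left hx3'
    have e2 : q1 * q2 - p1 * p2 = 0 := by
      have : x3 * (q1 * q2 - p1 * p2) = 0 := by
        linear_combination (-2) * hx - 2 * x3 * (q1 * q2 - p1 * p2) * hx3
      exact (mul_eq_zero.mp this).resolve_left hx3'
    have : (1 : ℝ) = 0 := by
      linear_combination (p1 * q2 + p2 * q1) * e1 + (q1 * q2 - p1 * p2) * e2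
        - (p2 ^ 2 + q2 ^ 2) * c1 - c2
    norm_num at this
  · subst h
    have hx2 : x2 ^ 2 = 1 := by linarith
    have hx2' : x2 ≠ 0 := by
      rintro rfl
      norm_num at hx2
    have hp2 : p2 = 0 := by
      have : p2 ^ 2 = 0 := by nlinarith [sq_nonneg p2, sq_nonneg q2]
      exact pow_eq_zero_iff (two_ne_zero) |>.mp this
    have hq2 : q2 = 0 := by
      have : q2 ^ 2 = 0 := by nlinarith [sq_nonneg p2, sq_nonneg q2]
      exact pow_eq_zero_iff (two_ne_zero) |>.mp this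
    subst hp2
    subst hq2
    have e1 : p1 * q3 + p3 * q1 = 0 := by
      have : x2 * (p1 * q3 + p3 * q1) = 0 := by linear_combination e0
      exact (mul_eq_zero.mp this).resolve_left hx2'
    have e2 : q1 * q3 - p1 * p3 = 0 := by
      have : x2 * (q1 * q3 - p1 * p3) = 0 := by
        linear_combination (-2) * hx - 2 * x2 * (q1 * q3 - p1 * p3) * hx2
      exact (mul_eq_zero.mp this).resolve_left hx2'
    have : (1 : ℝ) = 0 := by
      linear_combination (p1 * q3 + p3 * q1) * e1 + (q1 * q3 - p1 * p3) * e2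
        - (p3 ^ 2 + q3 ^ 2) * c1 - c3
    norm_num at this

/-- Stratum where one frame vector is the `y`-axis: the remaining `3 × 3` block is orthogonal. -/
theorem s1 {x1 x2 x3 p1 p2 p3 q1 q2 q3 : ℝ}
    (xx : x1 ^ 2 + x2 ^ 2 + x3 ^ 2 = 1)
    (pp : p1 ^ 2 + p2 ^ 2 + p3 ^ 2 = 1) (qq : q1 ^ 2 + q2 ^ 2 + q3 ^ 2 = 1)
    (c1 : x1 ^ 2 + p1 ^ 2 + q1 ^ 2 = 1) (c2 : x2 ^ 2 + p2 ^ 2 + q2 ^ 2 = 1)
    (c3 : x3 ^ 2 + p3 ^ 2 + q3 ^ 2 = 1)
    (c12 : x1 * x2 + p1 * p2 + q1 * q2 = 0) (c13 : x1 * x3 + p1 * p3 + q1 * q3 = 0)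
    (c23 : x2 * x3 + p2 * p3 + q2 * q3 = 0)
    (e0 : x1 * (p2 * q3 + p3 * q2) + x2 * (p1 * q3 + p3 * q1) + x3 * (p1 * q2 + p2 * q1) = 0)
    (hx : (1/2 - x1^2) * x1 * (q2 * q3 - p2 * p3) + (1/2 - x2^2) * x2 * (q1 * q3 - p1 * p3)
      + (1/2 - x3^2) * x3 * (q1 * q2 - p1 * p2) = 0)
    (hp : (1/2 - p1^2) * p1 * (q2 * q3 - p2 * p3) + (1/2 - p2^2) * p2 * (q1 * q3 - p1 * p3)
      + (1/2 - p3^2) * p3 * (q1 * q2 - p1 * p2) = 0)
    (hq : (1/2 - q1^2) * q1 * (q2 * q3 - p2 * p3) + (1/2 - q2^2) * q2 * (q1 * q3 - p1 * p3)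
      + (1/2 - q3^2) * q3 * (q1 * q2 - p1 * p2) = 0)
    (hQ : x1 * x2 * x3 = 0) : False := by
  rcases mul_eq_zero.mp hQ with h | h
  · rcases mul_eq_zero.mp h with h | h
    · subst h
      exact s1_aux (x2 := x2) (x3 := x3) (p1 := p1) (p2 := p2) (p3 := p3) (q1 := q1) (q2 := q2)
        (q3 := q3) (by linear_combination xx) pp qq (by linear_combination c1) c2 c3
        (by linear_combination c12) (by linear_combination c13) (by linear_combination c23)
        (by linear_combination e0) (by linear_combination hx) hp hq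
    · subst h
      exact s1_aux (x2 := x1) (x3 := x3) (p1 := p2) (p2 := p1) (p3 := p3) (q1 := q2) (q2 := q1)
        (q3 := q3) (by linear_combination xx) (by linear_combination pp)
        (by linear_combination qq) (by linear_combination c2) c1 c3
        (by linear_combination c12) (by linear_combination c23) (by linear_combination c13)
        (by linear_combination e0) (by linear_combination hx) (by linear_combination hp)
        (by linear_combination hq)
  · subst h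
    exact s1_aux (x2 := x1) (x3 := x2) (p1 := p3) (p2 := p1) (p3 := p2) (q1 := q3) (q2 := q1)
      (q3 := q2) (by linear_combination xx) (by linear_combination pp)
      (by linear_combination qq) (by linear_combination c3) c1 c2
      (by linear_combination c13) (by linear_combination c23) (by linear_combination c12)
      (by linear_combination e0) (by linear_combination hx) (by linear_combination hp)
      (by linear_combination hq)

theorem s2_aux {x1 x2 x3 y1 y2 y3 q3 : ℝ}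
    (xx : x1 ^ 2 + x2 ^ 2 + x3 ^ 2 = 1) (yy : y1 ^ 2 + y2 ^ 2 + y3 ^ 2 = 1)
    (qq : q3 ^ 2 = 1 / 2)
    (c1 : x1 ^ 2 + y1 ^ 2 = 1) (c2 : x2 ^ 2 + y2 ^ 2 = 1)
    (c3 : x3 ^ 2 + y3 ^ 2 + 2 * q3 ^ 2 = 1)
    (hx : (1/2 - x1^2) * x1 * (y2 * q3) + (1/2 - x2^2) * x2 * (y1 * q3) = 0)
    (hQ : x1 * x2 * q3 = 0) : False := by
  have hq3 : q3 ≠ 0 := by
    rintro rfl
    norm_num at qq
  have hx12 : x1 * x2 = 0 := (mul_eq_zero.mp hQ).resolve_right hq3
  have hx3 : x3 = 0 := by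
    have : x3 ^ 2 = 0 := by nlinarith [sq_nonneg x3, sq_nonneg y3]
    exact pow_eq_zero_iff (two_ne_zero) |>.mp this
  subst hx3
  rcases mul_eq_zero.mp hx12 with h | h
  · subst h
    have hx2 : x2 ^ 2 = 1 := by linarith
    have hy1 : y1 ^ 2 = 1 := by linarith
    have h1 : x2 * y1 * q3 = 0 := by
      linear_combination (-2) * hx - 2 * x2 * y1 * q3 * hx2
    rcases mul_eq_zero.mp h1 with h | h
    · rcases mul_eq_zero.mp h with h | h
      · rw [h] at hx2; norm_num at hx2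
      · rw [h] at hy1; norm_num at hy1
    · exact hq3 h
  · subst h
    have hx1 : x1 ^ 2 = 1 := by linarith
    have hy2 : y2 ^ 2 = 1 := by linarith
    have h1 : x1 * y2 * q3 = 0 := by
      linear_combination (-2) * hx - 2 * x1 * y2 * q3 * hx1
    rcases mul_eq_zero.mp h1 with h | h
    · rcases mul_eq_zero.mp h with h | h
      · rw [h] at hx1; norm_num at hx1
      · rw [h] at hy2; norm_num at hy2
    · exact hq3 h

/-- Stratum where one frame vector is `(q ± p)/√2`. -/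
theorem s2 {x1 x2 x3 y1 y2 y3 q1 q2 q3 : ℝ}
    (xx : x1 ^ 2 + x2 ^ 2 + x3 ^ 2 = 1) (yy : y1 ^ 2 + y2 ^ 2 + y3 ^ 2 = 1)
    (qq : q1 ^ 2 + q2 ^ 2 + q3 ^ 2 = 1 / 2)
    (xq : x1 * q1 + x2 * q2 + x3 * q3 = 0) (yq : y1 * q1 + y2 * q2 + y3 * q3 = 0)
    (c1 : x1 ^ 2 + y1 ^ 2 + 2 * q1 ^ 2 = 1) (c2 : x2 ^ 2 + y2 ^ 2 + 2 * q2 ^ 2 = 1)
    (c3 : x3 ^ 2 + y3 ^ 2 + 2 * q3 ^ 2 = 1)
    (c12 : x1 * x2 + y1 * y2 + 2 * (q1 * q2) = 0) (c13 : x1 * x3 + y1 * y3 + 2 * (q1 * q3) = 0)
    (c23 : x2 * x3 + y2 * y3 + 2 * (q2 * q3) = 0)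
    (e0 : x1 * (q2 * q3) + x2 * (q1 * q3) + x3 * (q1 * q2) = 0)
    (hq : (1/2 - q1^2) * q1 * (y2 * q3 + y3 * q2) + (1/2 - q2^2) * q2 * (y1 * q3 + y3 * q1)
      + (1/2 - q3^2) * q3 * (y1 * q2 + y2 * q1) = 0)
    (hx : (1/2 - x1^2) * x1 * (y2 * q3 + y3 * q2) + (1/2 - x2^2) * x2 * (y1 * q3 + y3 * q1)
      + (1/2 - x3^2) * x3 * (y1 * q2 + y2 * q1) = 0)
    (hQ : x1 * x2 * q3 + x1 * x3 * q2 + x2 * x3 * q1 = 0) : False := by
  have hW : y1 * (q2 * q3) + y2 * (q1 * q3) + y3 * (q1 * q2) = 0 := by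
    linear_combination 2 * hq + 2 * (y1 * (q2 * q3) + y2 * (q1 * q3) + y3 * (q1 * q2)) * qq
      - 2 * (q1 * q2 * q3) * yq
  have n1 : q2 * q3 = 6 * q1 * (q1 * q2 * q3) := by
    linear_combination (-(q2 * q3)) * c1 - (q1 * q3) * c12 - (q1 * q2) * c13 + x1 * e0 + y1 * hW
  have n2 : q1 * q3 = 6 * q2 * (q1 * q2 * q3) := by
    linear_combination (-(q2 * q3)) * c12 - (q1 * q3) * c2 - (q1 * q2) * c23 + x2 * e0 + y2 * hW
  have n3 : q1 * q2 = 6 * q3 * (q1 * q2 * q3) := by
    linear_combination (-(q2 * q3)) * c13 - (q1 * q3) * c23 - (q1 * q2) * c3 + x3 * e0 + y3 * hW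
  by_cases h : q1 * q2 * q3 = 0
  · rw [h] at n1 n2 n3
    have m1 : q2 * q3 = 0 := by linarith
    have m2 : q1 * q3 = 0 := by linarith
    have m3 : q1 * q2 = 0 := by linarith
    rcases mul_eq_zero.mp m1 with h2 | h3
    · rcases mul_eq_zero.mp m2 with h1 | h3
      · subst h1
        subst h2
        exact s2_aux (x1 := x1) (x2 := x2) (x3 := x3) (y1 := y1) (y2 := y2) (y3 := y3) (q3 := q3)
          xx yy (by linear_combination qq) (by linear_combination c1) (by linear_combination c2) c3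
          (by linear_combination hx) (by linear_combination hQ)
      · subst h2
        subst h3
        exact s2_aux (x1 := x2) (x2 := x3) (x3 := x1) (y1 := y2) (y2 := y3) (y3 := y1) (q3 := q1)
          (by linear_combination xx) (by linear_combination yy) (by linear_combination qq)
          (by linear_combination c2) (by linear_combination c3) (by linear_combination c1)
          (by linear_combination hx) (by linear_combination hQ)
    · rcases mul_eq_zero.mp m3 with h1 | h2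
      · subst h1
        subst h3
        exact s2_aux (x1 := x1) (x2 := x3) (x3 := x2) (y1 := y1) (y2 := y3) (y3 := y2) (q3 := q2)
          (by linear_combination xx) (by linear_combination yy) (by linear_combination qq)
          (by linear_combination c1) (by linear_combination c3) (by linear_combination c2)
          (by linear_combination hx) (by linear_combination hQ)
      · subst h2
        subst h3
        exact s2_aux (x1 := x2) (x2 := x3) (x3 := x1) (y1 := y2) (y2 := y3) (y3 := y1) (q3 := q1)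
          (by linear_combination xx) (by linear_combination yy) (by linear_combination qq)
          (by linear_combination c2) (by linear_combination c3) (by linear_combination c1)
          (by linear_combination hx) (by linear_combination hQ)
  · have g1 : 6 * q1 ^ 2 = 1 := by
      have : (q1 * q2 * q3) * (6 * q1 ^ 2 - 1) = 0 := by linear_combination (-q1) * n1
      have := (mul_eq_zero.mp this).resolve_left h
      linarith
    have g2 : 6 * q2 ^ 2 = 1 := by
      have : (q1 * q2 * q3) * (6 * q2 ^ 2 - 1) = 0 := by linear_combination (-q2) * n2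
      have := (mul_eq_zero.mp this).resolve_left h
      linarith
    have g3 : 6 * q3 ^ 2 = 1 := by
      have : (q1 * q2 * q3) * (6 * q3 ^ 2 - 1) = 0 := by linear_combination (-q3) * n3
      have := (mul_eq_zero.mp this).resolve_left h
      linarith
    have : (1 : ℝ) = 0 := by
      linear_combination (-72) * (q1 * q2 * q3) * hQ
        + 12 * x1 * x2 * q1 * q2 * g3 + 12 * x1 * x3 * q1 * q3 * g2 + 12 * x2 * x3 * q2 * q3 * g1
        + 6 * (x1 * q1 + x2 * q2 + x3 * q3) * xq - x1 ^ 2 * g1 - x2 ^ 2 * g2 - x3 ^ 2 * g3 - xx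
    norm_num at this

end Pool.Agent.Helper24
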