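import Mathlib

namespace Pool.Agent.Helper24

/-- The final scalar system has no solution. -/
theorem final_system (t K M n : ℝ) (hK : 0 < K) (hM : 0 ≤ M) (ht : t ≠ 0)
    (E1 : n ^ 2 + (1 + t) * M + t * (1 + t) * K = t)
    (H2 : (1 - t) * ((1 + t) ^ 2 * K - 1 + n ^ 2) = 4 * n ^ 2 - 6 * (1 + t) * n)
    (E2 : 4 * t * n - 6 * t * (1 + t) + (1 - t) ^ 2 * (K + t * M - (1 + t)) = 0) : False := by
  have F : 3 * (1 - t) ^ 2 * (n ^ 2 - t) - 6 * t * (1 + t) ^ 2
      + (1 + t) * n * (4 * t - 6 * (1 - t) ^ 2) = 0 := by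
    linear_combination (1 + t) * E2 - t * (1 - t) ^ 2 * E1 - (1 - t) ^ 2 * H2
  have hM' : (1 - t) * (1 + t) * ((1 + t) * M)
      = -(t ^ 2 * (1 - t)) * (-1) - (1 + 3 * t) * n ^ 2 + 6 * t * (1 + t) * n := by
    linear_combination (1 - t) * (1 + t) * E1 - t * H2
  have hK' : (1 - t) * (1 + t) ^ 2 * K = (1 - t) * (1 - n ^ 2) + 4 * n ^ 2 - 6 * (1 + t) * n := by
    linear_combination H2
  have ht1 : t ≠ -1 := by
    intro h
    rw [h] at E1
    nlinarith [sq_nonneg n]
  rcases lt_or_gt_of_ne ht with hneg | hpos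
  · rcases lt_or_gt_of_ne ht1 with h1 | h1
    · -- t < -1
      set σ := -t with hσ
      have hts : t = -σ := by rw [hσ]; ring
      have hσ1 : 1 < σ := by linarith
      have C2 : 0 < (1 + σ) + (3 - σ) * n ^ 2 + 6 * (σ - 1) * n := by
        have : 0 < (1 - t) * (1 + t) ^ 2 * K := by
          have h2 : 0 < (1 + t) ^ 2 := by
            have : 1 + t ≠ 0 := by linarith
            positivity
          have h3 : 0 < 1 - t := by linarith
          positivity
        rw [hK', hts] at this
        linarith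
      have F' : 3 * (1 + σ) ^ 2 * n ^ 2 + (σ - 1) * n * (4 * σ + 6 * (1 + σ) ^ 2)
          + σ * (6 * (σ - 1) ^ 2 + 3 * (1 + σ) ^ 2) = 0 := by
        rw [hts] at F
        linarith
      have hn : n < 0 := by
        by_contra hn
        push Not at hn
        have : 0 < 3 * (1 + σ) ^ 2 * n ^ 2 + (σ - 1) * n * (4 * σ + 6 * (1 + σ) ^ 2)
          + σ * (6 * (σ - 1) ^ 2 + 3 * (1 + σ) ^ 2) := by
          have h2 : 0 ≤ (σ - 1) * n * (4 * σ + 6 * (1 + σ) ^ 2) := by
            have : 0 < σ - 1 := by linarith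
            positivity
          have h3 : 0 < σ * (6 * (σ - 1) ^ 2 + 3 * (1 + σ) ^ 2) := by positivity
          have h4 : 0 ≤ 3 * (1 + σ) ^ 2 * n ^ 2 := by positivity
          linarith
        linarith
      have key : 3 * (1 + σ) * (σ - 1) ^ 2 * n ^ 2 + (-n) * (σ - 1) * (12 * σ ^ 2 + 2 * σ - 6)
          + 6 * σ * (σ - 1) ^ 2
          = -(3 * σ * (1 + σ) * ((1 + σ) + (3 - σ) * n ^ 2 + 6 * (σ - 1) * n)) := by
        linear_combination F'
      have h5 : 0 < 3 * (1 + σ) * (σ - 1) ^ 2 * n ^ 2 + (-n) * (σ - 1) * (12 * σ ^ 2 + 2 * σ - 6)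
          + 6 * σ * (σ - 1) ^ 2 := by
        have a1 : 0 < σ - 1 := by linarith
        have a2 : 0 < 12 * σ ^ 2 + 2 * σ - 6 := by nlinarith
        have a3 : 0 < -n := by linarith
        positivity
      have h6 : 0 < 3 * σ * (1 + σ) * ((1 + σ) + (3 - σ) * n ^ 2 + 6 * (σ - 1) * n) := by
        positivity
      linarith
    · -- -1 < t < 0
      set σ := -t with hσ
      have hts : t = -σ := by rw [hσ]; ring
      have hσ0 : 0 < σ := by linarith
      have hσ1 : σ < 1 := by linarith
      have C : 0 ≤ σ ^ 2 * (1 + σ) + (3 * σ - 1) * n ^ 2 - 6 * σ * (1 - σ) * n := by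
        have : 0 ≤ (1 - t) * (1 + t) * ((1 + t) * M) := by
          have h3 : 0 < 1 - t := by linarith
          have h4 : 0 < 1 + t := by linarith
          positivity
        rw [hM', hts] at this
        linarith
      have F' : 3 * (1 + σ) ^ 2 * n ^ 2 - (1 - σ) * n * (4 * σ + 6 * (1 + σ) ^ 2)
          + σ * (6 * (1 - σ) ^ 2 + 3 * (1 + σ) ^ 2) = 0 := by
        rw [hts] at F
        linarith
      have hn : 0 < n := by
        by_contra hn
        push Not at hn
        have : 0 < 3 * (1 + σ) ^ 2 * n ^ 2 - (1 - σ) * n * (4 * σ + 6 * (1 + σ) ^ 2)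
          + σ * (6 * (1 - σ) ^ 2 + 3 * (1 + σ) ^ 2) := by
          have h2 : 0 ≤ (1 - σ) * (-n) * (4 * σ + 6 * (1 + σ) ^ 2) := by
            have : 0 < 1 - σ := by linarith
            have : 0 ≤ -n := by linarith
            positivity
          have h3 : 0 < σ * (6 * (1 - σ) ^ 2 + 3 * (1 + σ) ^ 2) := by positivity
          have h4 : 0 ≤ 3 * (1 + σ) ^ 2 * n ^ 2 := by positivity
          linarith
        linarith
      have key : 3 * (1 + σ) * (1 - σ) ^ 2 * n ^ 2 + n * σ * (1 - σ) * (12 + 2 * σ - 6 * σ ^ 2)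
          + 6 * σ ^ 2 * (1 - σ) ^ 2
          = -(3 * (1 + σ) * (σ ^ 2 * (1 + σ) + (3 * σ - 1) * n ^ 2 - 6 * σ * (1 - σ) * n)) := by
        linear_combination σ * F'
      have h5 : 0 < 3 * (1 + σ) * (1 - σ) ^ 2 * n ^ 2 + n * σ * (1 - σ) * (12 + 2 * σ - 6 * σ ^ 2)
          + 6 * σ ^ 2 * (1 - σ) ^ 2 := by
        have a1 : 0 < 1 - σ := by linarith
        have a2 : 0 < 12 + 2 * σ - 6 * σ ^ 2 := by nlinarith
        positivity
      have h6 : 0 ≤ 3 * (1 + σ) * (σ ^ 2 * (1 + σ) + (3 * σ - 1) * n ^ 2 - 6 * σ * (1 - σ) * n) := by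
        positivity
      linarith
  · -- t > 0
    have hn2 : n ^ 2 < t := by
      have h1 : 0 < t * (1 + t) * K := by positivity
      have h2 : 0 ≤ (1 + t) * M := by positivity
      linarith
    have F' : (1 + t) * n * (4 * t - 6 * (1 - t) ^ 2)
        = 3 * (1 - t) ^ 2 * (t - n ^ 2) + 6 * t * (1 + t) ^ 2 := by
      linarith
    have hF0 : 6 * t * (1 + t) ^ 2 ≤ (1 + t) * n * (4 * t - 6 * (1 - t) ^ 2) := by
      rw [F']
      have : 0 ≤ 3 * (1 - t) ^ 2 * (t - n ^ 2) := by
        have : 0 < t - n ^ 2 := by linarith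
        positivity
      linarith
    rcases lt_trichotomy n 0 with hn | hn | hn
    · -- n < 0
      have hm : 0 < -n := by linarith
      have h1 : t * (1 + t) < (-n) * (1 - t) ^ 2 := by
        have a : 0 < (1 + t) * (-n) * t := by positivity
        have b : 6 * (t * (1 + t)) * (1 + t) < 6 * ((-n) * (1 - t) ^ 2) * (1 + t) := by
          nlinarith [hF0, a]
        have c : 0 < 1 + t := by linarith
        have := lt_of_mul_lt_mul_right b c.le
        linarith
      rcases lt_trichotomy t 1 with h | h | h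
      · have C : 6 * t * (1 + t) * (-n) ≤ t ^ 2 * (1 - t) := by
          have : 0 ≤ (1 - t) * (1 + t) * ((1 + t) * M) := by
            have h3 : 0 < 1 - t := by linarith
            positivity
          rw [hM'] at this
          have : 0 ≤ (1 + 3 * t) * n ^ 2 := by positivity
          linarith
        have C' : 6 * (1 + t) * (-n) ≤ t * (1 - t) := by
          have : t * (6 * (1 + t) * (-n)) ≤ t * (t * (1 - t)) := by linarith
          exact le_of_mul_le_mul_left this hpos
        have h2 : (1 - t) ^ 2 ≤ 1 := by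
          have : 0 < t * (2 - t) := mul_pos hpos (by linarith)
          linarith
        have h3 : (-n) * (1 - t) ^ 2 ≤ -n := by
          have := mul_le_mul_of_nonneg_left h2 hm.le
          linarith
        have h4 : 0 < (-n) * t := mul_pos hm hpos
        have h5 : 0 < t * t := mul_pos hpos hpos
        linarith
      · rw [h] at h1
        linarith
      · have C : 6 * (1 + t) * (-n) < t - 1 := by
          have h0 : 0 < (1 + t) ^ 2 * K := by positivity
          have : (1 - t) * (1 + t) ^ 2 * K < 0 := by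
            have : (t - 1) * ((1 + t) ^ 2 * K) > 0 := by
              apply mul_pos _ h0
              linarith
            linarith
          rw [hK'] at this
          have b1 : 0 ≤ (t - 1) * n ^ 2 := by
            have : 0 < t - 1 := by linarith
            positivity
          have b2 : 0 ≤ n ^ 2 := sq_nonneg n
          linarith
        have h2 : (-n) * (1 - t) ^ 2 ≤ (t - 1) ^ 3 := by
          have : -n ≤ t - 1 := by nlinarith
          have h3 : 0 ≤ (1 - t) ^ 2 := sq_nonneg _
          calc (-n) * (1 - t) ^ 2 ≤ (t - 1) * (1 - t) ^ 2 := mul_le_mul_of_nonneg_right this h3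
            _ = (t - 1) ^ 3 := by ring
        have h4 : 6 * (1 + t) * ((-n) * (1 - t) ^ 2) ≤ (t - 1) ^ 3 := by
          have h3 : 0 ≤ (1 - t) ^ 2 := sq_nonneg _
          have := mul_le_mul_of_nonneg_right C.le h3
          calc 6 * (1 + t) * ((-n) * (1 - t) ^ 2) = 6 * (1 + t) * (-n) * (1 - t) ^ 2 := by ring
            _ ≤ (t - 1) * (1 - t) ^ 2 := this
            _ = (t - 1) ^ 3 := by ring
        have h5 : 6 * (1 + t) * (t * (1 + t)) < (t - 1) ^ 3 := by
          have h6 : 6 * (1 + t) * (t * (1 + t)) < 6 * (1 + t) * ((-n) * (1 - t) ^ 2) := by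
            have : 0 < 6 * (1 + t) := by linarith
            exact mul_lt_mul_of_pos_left h1 this
          linarith
        nlinarith [mul_pos hpos hpos, mul_pos (mul_pos hpos hpos) hpos]
    · rw [hn] at hF0
      have : 0 < 6 * t * (1 + t) ^ 2 := by positivity
      linarith
    · -- n > 0
      have h1 : 6 * t * (1 + t) ^ 2 ≤ 4 * t * (1 + t) * n := by
        have : 0 ≤ (1 + t) * n * (6 * (1 - t) ^ 2) := by positivity
        linarith
      have h2 : 6 * (1 + t) ≤ 4 * n := by
        have h3 : 0 < t * (1 + t) := by positivity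
        have : t * (1 + t) * (6 * (1 + t)) ≤ t * (1 + t) * (4 * n) := by linarith
        exact le_of_mul_le_mul_left this h3
      have h3 : 3 / 2 * (1 + t) ≤ n := by linarith
      have h4 : (3 / 2 * (1 + t)) ^ 2 ≤ n ^ 2 := by
        apply pow_le_pow_left₀ _ h3
        linarith
      have h5 : 0 ≤ t ^ 2 := sq_nonneg t
      linarith

end Pool.Agent.Helper24
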