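import Mathlib
import Pool.Agent.Helper24.FinalSystem

namespace Pool.Agent.Helper24

/-- Orthonormality data for four functions `1, P, R, Y` on four points with weights `w`. -/
structure Sys (w P R Y : Fin 4 → ℝ) : Prop where
  s1 : w 0 + w 1 + w 2 + w 3 = 1
  sP : w 0 * P 0 + w 1 * P 1 + w 2 * P 2 + w 3 * P 3 = 0
  sR : w 0 * R 0 + w 1 * R 1 + w 2 * R 2 + w 3 * R 3 = 0
  sY : w 0 * Y 0 + w 1 * Y 1 + w 2 * Y 2 + w 3 * Y 3 = 0
  sPP : w 0 * P 0 ^ 2 + w 1 * P 1 ^ 2 + w 2 * P 2 ^ 2 + w 3 * P 3 ^ 2 = 1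
  sRR : w 0 * R 0 ^ 2 + w 1 * R 1 ^ 2 + w 2 * R 2 ^ 2 + w 3 * R 3 ^ 2 = 1
  sYY : w 0 * Y 0 ^ 2 + w 1 * Y 1 ^ 2 + w 2 * Y 2 ^ 2 + w 3 * Y 3 ^ 2 = 1
  sPR : w 0 * P 0 * R 0 + w 1 * P 1 * R 1 + w 2 * P 2 * R 2 + w 3 * P 3 * R 3 = 0
  sPY : w 0 * P 0 * Y 0 + w 1 * P 1 * Y 1 + w 2 * P 2 * Y 2 + w 3 * P 3 * Y 3 = 0
  sRY : w 0 * R 0 * Y 0 + w 1 * R 1 * Y 1 + w 2 * R 2 * Y 2 + w 3 * R 3 * Y 3 = 0
  col : ∀ i j, w j * (1 + P i * P j + R i * R j + Y i * Y j) = if i = j then 1 else 0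

theorem Sys.zero {w P R Y : Fin 4 → ℝ} (S : Sys w P R Y) (ψ : Fin 4 → ℝ)
    (I1 : w 0 * ψ 0 + w 1 * ψ 1 + w 2 * ψ 2 + w 3 * ψ 3 = 0)
    (IP : w 0 * ψ 0 * P 0 + w 1 * ψ 1 * P 1 + w 2 * ψ 2 * P 2 + w 3 * ψ 3 * P 3 = 0)
    (IR : w 0 * ψ 0 * R 0 + w 1 * ψ 1 * R 1 + w 2 * ψ 2 * R 2 + w 3 * ψ 3 * R 3 = 0)
    (IY : w 0 * ψ 0 * Y 0 + w 1 * ψ 1 * Y 1 + w 2 * ψ 2 * Y 2 + w 3 * ψ 3 * Y 3 = 0) :
    ∀ i, ψ i = 0 := by
  intro i
  have h : ψ i = ∑ j, (if i = j then (1:ℝ) else 0) * ψ j := by simp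
  rw [h]
  simp only [← S.col i, Fin.sum_univ_four]
  linear_combination I1 + P i * IP + R i * IR + Y i * IY

theorem odd_case {a b c A B C k s : ℝ} (hw : a + b + c = 1 / 2)
    (hY : a * A + b * B + c * C = 0) (hs : A + B + C = s) (hk2 : k ^ 2 = 1)
    (hh : (1/2 - a) * (-k^2 * (B + C)) + (1/2 - b) * (-k^2 * (A + C))
      + (1/2 - c) * (-k^2 * (A + B)) = 6) : s = -12 := by
  rw [hk2] at hh
  linear_combination (-2) * hh - hs - 2 * hY + 2 * (A + B + C) * hw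

theorem caseII {w P R Y : Fin 4 → ℝ} (S : Sys w P R Y) (k m : ℝ)
    (V : ∀ i, P i * R i = k * P i + m * R i)
    (tP : P 0 + P 1 + P 2 + P 3 = 2 * m)
    (tR : R 0 + R 1 + R 2 + R 3 = 2 * k)
    (hk : k ≠ 0)
    (hh : (1/2 - w 0) * (Y 1 * (R 2 * R 3 - P 2 * P 3) + Y 2 * (R 1 * R 3 - P 1 * P 3)
            + Y 3 * (R 1 * R 2 - P 1 * P 2))
        + (1/2 - w 1) * (Y 0 * (R 2 * R 3 - P 2 * P 3) + Y 2 * (R 0 * R 3 - P 0 * P 3)
            + Y 3 * (R 0 * R 2 - P 0 * P 2))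
        + (1/2 - w 2) * (Y 0 * (R 1 * R 3 - P 1 * P 3) + Y 1 * (R 0 * R 3 - P 0 * P 3)
            + Y 3 * (R 0 * R 1 - P 0 * P 1))
        + (1/2 - w 3) * (Y 0 * (R 1 * R 2 - P 1 * P 2) + Y 1 * (R 0 * R 2 - P 0 * P 2)
            + Y 2 * (R 0 * R 1 - P 0 * P 1)) = 6)
    (hQ : 2 * (R 0 * R 1 + R 0 * R 2 + R 0 * R 3 + R 1 * R 2 + R 1 * R 3 + R 2 * R 3
          - (P 0 * P 1 + P 0 * P 2 + P 0 * P 3 + P 1 * P 2 + P 1 * P 3 + P 2 * P 3))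
        = Y 0 + Y 1 + Y 2 + Y 3) : False := by
  obtain ⟨s1, sP, sR, sY, sPP, sRR, sYY, sPR, sPY, sRY, col⟩ := S
  have S : Sys w P R Y := ⟨s1, sP, sR, sY, sPP, sRR, sYY, sPR, sPY, sRY, col⟩
  have V0 := V 0
  have V1 := V 1
  have V2 := V 2
  have V3 := V 3
  have d0 : w 0 * (1 + P 0 ^ 2 + R 0 ^ 2 + Y 0 ^ 2) = 1 := by
    have := col 0 0; simp at this; linarith
  have d1 : w 1 * (1 + P 1 ^ 2 + R 1 ^ 2 + Y 1 ^ 2) = 1 := by
    have := col 1 1; simp at this; linarith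
  have d2 : w 2 * (1 + P 2 ^ 2 + R 2 ^ 2 + Y 2 ^ 2) = 1 := by
    have := col 2 2; simp at this; linarith
  have d3 : w 3 * (1 + P 3 ^ 2 + R 3 ^ 2 + Y 3 ^ 2) = 1 := by
    have := col 3 3; simp at this; linarith
  -- structure constants
  obtain ⟨t, ht⟩ : ∃ t : ℝ, w 0 * R 0 * Y 0 ^ 2 + w 1 * R 1 * Y 1 ^ 2 + w 2 * R 2 * Y 2 ^ 2
      + w 3 * R 3 * Y 3 ^ 2 = k * (1 + t) := by
    refine ⟨(w 0 * R 0 * Y 0 ^ 2 + w 1 * R 1 * Y 1 ^ 2 + w 2 * R 2 * Y 2 ^ 2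
      + w 3 * R 3 * Y 3 ^ 2) / k - 1, ?_⟩
    field_simp
    ring
  obtain ⟨n, hn⟩ : ∃ n : ℝ, w 0 * R 0 ^ 2 * Y 0 + w 1 * R 1 ^ 2 * Y 1 + w 2 * R 2 ^ 2 * Y 2
      + w 3 * R 3 ^ 2 * Y 3 = n := ⟨_, rfl⟩
  -- <R^3> = - k t
  have hρ : w 0 * R 0 ^ 3 + w 1 * R 1 ^ 3 + w 2 * R 2 ^ 3 + w 3 * R 3 ^ 3 = - (k * t) := by
    linear_combination R 0 * d0 + R 1 * d1 + R 2 * d2 + R 3 * d3 - sR - ht
      - (w 0 * P 0) * V0 - (w 1 * P 1) * V1 - (w 2 * P 2) * V2 - (w 3 * P 3) * V3 + tR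
      - k * sPP - m * sPR
  -- pointwise: R Y = k (1+t) Y + n R
  have F2 : ∀ i, R i * Y i - k * (1 + t) * Y i - n * R i = 0 := by
    apply S.zero (fun i => R i * Y i - k * (1 + t) * Y i - n * R i)
    · linear_combination sRY - k * (1 + t) * sY - n * sR
    · linear_combination w 0 * Y 0 * V0 + w 1 * Y 1 * V1 + w 2 * Y 2 * V2 + w 3 * Y 3 * V3
        + k * sPY + m * sRY - k * (1 + t) * sPY - n * sPR
    · linear_combination hn - k * (1 + t) * sRY - n * sRR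
    · linear_combination ht - k * (1 + t) * sYY - n * sRY
  -- pointwise: R^2 = 1 + m P + n Y - k t R
  have F3 : ∀ i, R i ^ 2 - 1 - m * P i - n * Y i + k * t * R i = 0 := by
    apply S.zero (fun i => R i ^ 2 - 1 - m * P i - n * Y i + k * t * R i)
    · linear_combination sRR - s1 - m * sP - n * sY + k * t * sR
    · linear_combination w 0 * R 0 * V0 + w 1 * R 1 * V1 + w 2 * R 2 * V2 + w 3 * R 3 * V3
        + k * sPR + m * sRR - sP - m * sPP - n * sPY + k * t * sPR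
    · linear_combination hρ - sR - m * sPR - n * sRY + k * t * sRR
    · linear_combination hn - sY - m * sPY - n * sYY + k * t * sRY
  -- pointwise: t P Y = m (1+t) Y - n P
  have F4 : ∀ i, t * (P i * Y i) = m * (1 + t) * Y i - n * P i := by
    intro i
    apply mul_left_cancel₀ hk
    linear_combination Y i * V i - P i * F2 i + (m : ℝ) * F2 i - n * V i
  have G0 := F4 0
  have G1 := F4 1
  have G2 := F4 2
  have G3 := F4 3
  -- t <P^3> = -m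
  have hπ : t * (w 0 * P 0 ^ 3 + w 1 * P 1 ^ 3 + w 2 * P 2 ^ 3 + w 3 * P 3 ^ 3) = - m := by
    linear_combination t * (P 0 * d0 + P 1 * d1 + P 2 * d2 + P 3 * d3 - sP)
      - t * ((w 0 * R 0) * V0 + (w 1 * R 1) * V1 + (w 2 * R 2) * V2 + (w 3 * R 3) * V3)
      - t * k * sPR - t * m * sRR + t * tP
      - (w 0 * Y 0) * G0 - (w 1 * Y 1) * G1 - (w 2 * Y 2) * G2 - (w 3 * Y 3) * G3
      - m * (1 + t) * sYY + n * sPY
  -- pointwise: t P^2 = t + t k R - n Y - m P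
  have F5 : ∀ i, t * P i ^ 2 - t - t * k * R i + n * Y i + m * P i = 0 := by
    apply S.zero (fun i => t * P i ^ 2 - t - t * k * R i + n * Y i + m * P i)
    · linear_combination t * sPP - t * s1 - t * k * sR + n * sY + m * sP
    · linear_combination hπ - t * sP - t * k * sPR + n * sPY + m * sPP
    · linear_combination t * (w 0 * P 0 * V0 + w 1 * P 1 * V1 + w 2 * P 2 * V2 + w 3 * P 3 * V3)
        + t * k * sPP + t * m * sPR - t * sR - t * k * sRR + n * sRY + m * sPR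
    · linear_combination w 0 * P 0 * G0 + w 1 * P 1 * G1 + w 2 * P 2 * G2 + w 3 * P 3 * G3
        + m * (1 + t) * sPY - n * sPP - t * sY - t * k * sRY + n * sYY + m * sPY
  have A0 := F2 0
  have A1 := F2 1
  have A2 := F2 2
  have A3 := F2 3
  have B0 := F3 0
  have B1 := F3 1
  have B2 := F3 2
  have B3 := F3 3
  have C0 := F5 0
  have C1 := F5 1
  have C2 := F5 2
  have C3 := F5 3
  -- <R^2 P> = m
  have hm : w 0 * R 0 ^ 2 * P 0 + w 1 * R 1 ^ 2 * P 1 + w 2 * R 2 ^ 2 * P 2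
      + w 3 * R 3 ^ 2 * P 3 = m := by
    linear_combination w 0 * R 0 * V0 + w 1 * R 1 * V1 + w 2 * R 2 * V2 + w 3 * R 3 * V3
      + k * sPR + m * sRR
  -- <R^2 P^2> = k^2 + m^2
  have hRP : w 0 * R 0 ^ 2 * P 0 ^ 2 + w 1 * R 1 ^ 2 * P 1 ^ 2 + w 2 * R 2 ^ 2 * P 2 ^ 2
      + w 3 * R 3 ^ 2 * P 3 ^ 2 = k ^ 2 + m ^ 2 := by
    linear_combination w 0 * (P 0 * R 0 + k * P 0 + m * R 0) * V0
      + w 1 * (P 1 * R 1 + k * P 1 + m * R 1) * V1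
      + w 2 * (P 2 * R 2 + k * P 2 + m * R 2) * V2
      + w 3 * (P 3 * R 3 + k * P 3 + m * R 3) * V3
      + k ^ 2 * sPP + 2 * k * m * sPR + m ^ 2 * sRR
  have E1 : n ^ 2 + (1 + t) * m ^ 2 + t * (1 + t) * k ^ 2 = t := by
    linear_combination (-t) * hRP + w 0 * R 0 ^ 2 * C0 + w 1 * R 1 ^ 2 * C1
      + w 2 * R 2 ^ 2 * C2 + w 3 * R 3 ^ 2 * C3 + t * sRR + t * k * hρ - n * hn - m * hm
  obtain ⟨s, hs⟩ : ∃ s : ℝ, Y 0 + Y 1 + Y 2 + Y 3 = s := ⟨_, rfl⟩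
  have eR2 : R 0 ^ 2 + R 1 ^ 2 + R 2 ^ 2 + R 3 ^ 2 = n * s + 4 + 2 * m ^ 2 - 2 * k ^ 2 * t := by
    linear_combination B0 + B1 + B2 + B3 + m * tP + n * hs - k * t * tR
  -- <R^4>, <R^2 Y^2>
  have hR4 : w 0 * R 0 ^ 4 + w 1 * R 1 ^ 4 + w 2 * R 2 ^ 4 + w 3 * R 3 ^ 4
      = 1 + m ^ 2 + n ^ 2 + k ^ 2 * t ^ 2 := by
    linear_combination w 0 * R 0 ^ 2 * B0 + w 1 * R 1 ^ 2 * B1 + w 2 * R 2 ^ 2 * B2
      + w 3 * R 3 ^ 2 * B3 + sRR + m * hm + n * hn - k * t * hρ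
  have hRY2 : w 0 * R 0 ^ 2 * Y 0 ^ 2 + w 1 * R 1 ^ 2 * Y 1 ^ 2 + w 2 * R 2 ^ 2 * Y 2 ^ 2
      + w 3 * R 3 ^ 2 * Y 3 ^ 2 = k ^ 2 * (1 + t) ^ 2 + n ^ 2 := by
    linear_combination w 0 * R 0 * Y 0 * A0 + w 1 * R 1 * Y 1 * A1 + w 2 * R 2 * Y 2 * A2
      + w 3 * R 3 * Y 3 * A3 + k * (1 + t) * ht + n * hn
  have S1 : n * s = 2 * (n ^ 2 - 1 + k ^ 2 * (1 + t) ^ 2) := by
    linear_combination (-1 : ℝ) * eR2 - R 0 ^ 2 * d0 - R 1 ^ 2 * d1 - R 2 ^ 2 * d2 - R 3 ^ 2 * d3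
      + sRR + hRP + hR4 + hRY2
  by_cases ht0 : t = 0
  · -- the case t = 0
    subst ht0
    have hm0 : m = 0 := by
      linear_combination -(w 0 * Y 0 * G0 + w 1 * Y 1 * G1 + w 2 * Y 2 * G2 + w 3 * Y 3 * G3)
        - m * sYY + n * sPY
    have hn0 : n = 0 := by
      linear_combination (w 0 * P 0 * G0 + w 1 * P 1 * G1 + w 2 * P 2 * G2 + w 3 * P 3 * G3)
        + m * sPY - n * sPP
    subst hm0
    subst hn0
    have hk2 : k ^ 2 = 1 := by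
      linear_combination (-1 : ℝ) * hRP + w 0 * P 0 ^ 2 * B0 + w 1 * P 1 ^ 2 * B1
        + w 2 * P 2 ^ 2 * B2 + w 3 * P 3 ^ 2 * B3 + sPP
    have hRi : ∀ i, R i = k ∨ R i = -k := by
      intro i
      have h1 : (R i - k) * (R i + k) = 0 := by
        linear_combination F3 i - hk2
      rcases mul_eq_zero.mp h1 with h | h
      · left; linarith
      · right; linarith
    have hPm : ∀ i, R i = -k → P i = 0 := by
      intro i hi
      have h1 := V i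
      rw [hi] at h1
      have h2 : (2 * k) * P i = 0 := by linear_combination -h1
      rcases mul_eq_zero.mp h2 with h | h
      · exact absurd (by linarith : k = 0) hk
      · exact h
    have hYm : ∀ i, R i = -k → Y i = 0 := by
      intro i hi
      have h1 := F2 i
      rw [hi] at h1
      have h2 : (2 * k) * Y i = 0 := by linear_combination -h1
      rcases mul_eq_zero.mp h2 with h | h
      · exact absurd (by linarith : k = 0) hk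
      · exact h
    have hwm : ∀ i, R i = -k → w i = 1 / 2 := by
      intro i hi
      have h1 := col i i
      rw [hPm i hi, hYm i hi, hi] at h1
      simp only [if_true] at h1
      linear_combination (1 / 2) * h1 - (1 / 2) * w i * hk2
    have hsP : R 0 ^ 2 + R 1 ^ 2 + R 2 ^ 2 + R 3 ^ 2 = 4 := by
      linear_combination B0 + B1 + B2 + B3
    have hs0 : 0 ≤ s := by
      have : s = P 0 ^ 2 + P 1 ^ 2 + P 2 ^ 2 + P 3 ^ 2 := by
        linear_combination -hs - hQ + (R 0 + R 1 + R 2 + R 3 + 2 * k) * tR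
          - (P 0 + P 1 + P 2 + P 3) * tP - hsP + 4 * hk2
      rw [this]; positivity
    have hfin : s = -12 → False := fun h => by linarith
    rcases hRi 0 with r0 | r0 <;> rcases hRi 1 with r1 | r1 <;> rcases hRi 2 with r2 | r2 <;>
      rcases hRi 3 with r3 | r3
    · exact hk (by linarith)
    · have p := hPm 3 r3
      have y := hYm 3 r3
      have ww := hwm 3 r3
      rw [r0, r1, r2, r3, p, y, ww] at hh
      rw [y] at hs sY
      rw [ww] at s1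
      exact hfin (odd_case (a := w 0) (b := w 1) (c := w 2) (A := Y 0) (B := Y 1) (C := Y 2)
        (k := k) (by linarith) (by linarith) (by linarith) hk2 (by linear_combination hh))
    · have p := hPm 2 r2
      have y := hYm 2 r2
      have ww := hwm 2 r2
      rw [r0, r1, r2, r3, p, y, ww] at hh
      rw [y] at hs sY
      rw [ww] at s1
      exact hfin (odd_case (a := w 0) (b := w 1) (c := w 3) (A := Y 0) (B := Y 1) (C := Y 3)
        (k := k) (by linarith) (by linarith) (by linarith) hk2 (by linear_combination hh))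
    · exact hk (by linarith)
    · have p := hPm 1 r1
      have y := hYm 1 r1
      have ww := hwm 1 r1
      rw [r0, r1, r2, r3, p, y, ww] at hh
      rw [y] at hs sY
      rw [ww] at s1
      exact hfin (odd_case (a := w 0) (b := w 2) (c := w 3) (A := Y 0) (B := Y 2) (C := Y 3)
        (k := k) (by linarith) (by linarith) (by linarith) hk2 (by linear_combination hh))
    · exact hk (by linarith)
    · exact hk (by linarith)
    · exact hk (by linarith)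
    · have p := hPm 0 r0
      have y := hYm 0 r0
      have ww := hwm 0 r0
      rw [r0, r1, r2, r3, p, y, ww] at hh
      rw [y] at hs sY
      rw [ww] at s1
      exact hfin (odd_case (a := w 1) (b := w 2) (c := w 3) (A := Y 1) (B := Y 2) (C := Y 3)
        (k := k) (by linarith) (by linarith) (by linarith) hk2 (by linear_combination hh))
    all_goals exact hk (by linarith)
  · -- the case t ≠ 0
    obtain ⟨σR2, hσR2⟩ : ∃ z : ℝ, R 0 ^ 2 + R 1 ^ 2 + R 2 ^ 2 + R 3 ^ 2 = z := ⟨_, rfl⟩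
    obtain ⟨σP2, hσP2⟩ : ∃ z : ℝ, P 0 ^ 2 + P 1 ^ 2 + P 2 ^ 2 + P 3 ^ 2 = z := ⟨_, rfl⟩
    obtain ⟨A, hA⟩ : ∃ z : ℝ, R 0 * Y 0 + R 1 * Y 1 + R 2 * Y 2 + R 3 * Y 3 = z := ⟨_, rfl⟩
    obtain ⟨B, hB⟩ : ∃ z : ℝ, P 0 * Y 0 + P 1 * Y 1 + P 2 * Y 2 + P 3 * Y 3 = z := ⟨_, rfl⟩
    obtain ⟨YR, hYR⟩ : ∃ z : ℝ, R 0 ^ 2 * Y 0 + R 1 ^ 2 * Y 1 + R 2 ^ 2 * Y 2 + R 3 ^ 2 * Y 3 = z :=
      ⟨_, rfl⟩
    obtain ⟨YP, hYP⟩ : ∃ z : ℝ, P 0 ^ 2 * Y 0 + P 1 ^ 2 * Y 1 + P 2 ^ 2 * Y 2 + P 3 ^ 2 * Y 3 = z :=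
      ⟨_, rfl⟩
    obtain ⟨om, hom⟩ : ∃ z : ℝ, w 0 * P 0 ^ 2 * Y 0 + w 1 * P 1 ^ 2 * Y 1 + w 2 * P 2 ^ 2 * Y 2
      + w 3 * P 3 ^ 2 * Y 3 = z := ⟨_, rfl⟩
    obtain ⟨eR, heR⟩ : ∃ z : ℝ, R 0 * R 1 + R 0 * R 2 + R 0 * R 3 + R 1 * R 2 + R 1 * R 3
      + R 2 * R 3 = z := ⟨_, rfl⟩
    obtain ⟨eP, heP⟩ : ∃ z : ℝ, P 0 * P 1 + P 0 * P 2 + P 0 * P 3 + P 1 * P 2 + P 1 * P 3
      + P 2 * P 3 = z := ⟨_, rfl⟩
    have qR2 : σR2 = n * s + 4 + 2 * m ^ 2 - 2 * k ^ 2 * t := by rw [← hσR2]; exact eR2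
    have qP2 : t * σP2 = 4 * t + 2 * t * k ^ 2 - n * s - 2 * m ^ 2 := by
      rw [← hσP2]
      linear_combination C0 + C1 + C2 + C3 + t * k * tR - n * hs - m * tP
    have qA : A = k * (1 + t) * s + 2 * k * n := by
      rw [← hA]
      linear_combination A0 + A1 + A2 + A3 + k * (1 + t) * hs + n * tR
    have qYR : YR = k * (1 + t) * A + n * σR2 := by
      rw [← hYR]
      linear_combination R 0 * A0 + R 1 * A1 + R 2 * A2 + R 3 * A3 + k * (1 + t) * hA + n * hσR2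
    have qB : t * B = m * (1 + t) * s - 2 * m * n := by
      rw [← hB]
      linear_combination G0 + G1 + G2 + G3 + m * (1 + t) * hs - n * tP
    have qYP : t * YP = m * (1 + t) * B - n * σP2 := by
      rw [← hYP]
      linear_combination P 0 * G0 + P 1 * G1 + P 2 * G2 + P 3 * G3 + m * (1 + t) * hB - n * hσP2
    have qom : t * om = -n := by
      rw [← hom]
      linear_combination w 0 * P 0 * G0 + w 1 * P 1 * G1 + w 2 * P 2 * G2 + w 3 * P 3 * G3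
        + m * (1 + t) * sPY - n * sPP
    have qR : 2 * eR = 4 * k ^ 2 - σR2 := by
      rw [← heR, ← hσR2]
      linear_combination (R 0 + R 1 + R 2 + R 3 + 2 * k) * tR
    have qP : 2 * eP = 4 * m ^ 2 - σP2 := by
      rw [← heP, ← hσP2]
      linear_combination (P 0 + P 1 + P 2 + P 3 + 2 * m) * tP
    have qQ : 2 * (eR - eP) = s := by
      rw [← heR, ← heP, ← hs]
      linear_combination hQ
    have hL : -(1/2) * ((eR - eP) * s - 2 * k * A + YR + 2 * m * B - YP) + 3 * (n - om) = 6 := by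
      have e1 : (R 0 * R 1 + R 0 * R 2 + R 0 * R 3 + R 1 * R 2 + R 1 * R 3 + R 2 * R 3) = eR := heR
      rw [← heR, ← heP, ← hs, ← hA, ← hYR, ← hB, ← hYP, ← hom]
      linear_combination hh
        + (Y 0 * (((R 0 * R 1 + R 0 * R 2 + R 0 * R 3 + R 1 * R 2 + R 1 * R 3 + R 2 * R 3)
              - (R 0 + R 1 + R 2 + R 3) * R 0 + R 0 ^ 2)
            - ((P 0 * P 1 + P 0 * P 2 + P 0 * P 3 + P 1 * P 2 + P 1 * P 3 + P 2 * P 3)
              - (P 0 + P 1 + P 2 + P 3) * P 0 + P 0 ^ 2))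
          + Y 1 * (((R 0 * R 1 + R 0 * R 2 + R 0 * R 3 + R 1 * R 2 + R 1 * R 3 + R 2 * R 3)
              - (R 0 + R 1 + R 2 + R 3) * R 1 + R 1 ^ 2)
            - ((P 0 * P 1 + P 0 * P 2 + P 0 * P 3 + P 1 * P 2 + P 1 * P 3 + P 2 * P 3)
              - (P 0 + P 1 + P 2 + P 3) * P 1 + P 1 ^ 2))
          + Y 2 * (((R 0 * R 1 + R 0 * R 2 + R 0 * R 3 + R 1 * R 2 + R 1 * R 3 + R 2 * R 3)
              - (R 0 + R 1 + R 2 + R 3) * R 2 + R 2 ^ 2)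
            - ((P 0 * P 1 + P 0 * P 2 + P 0 * P 3 + P 1 * P 2 + P 1 * P 3 + P 2 * P 3)
              - (P 0 + P 1 + P 2 + P 3) * P 2 + P 2 ^ 2))
          + Y 3 * (((R 0 * R 1 + R 0 * R 2 + R 0 * R 3 + R 1 * R 2 + R 1 * R 3 + R 2 * R 3)
              - (R 0 + R 1 + R 2 + R 3) * R 3 + R 3 ^ 2)
            - ((P 0 * P 1 + P 0 * P 2 + P 0 * P 3 + P 1 * P 2 + P 1 * P 3 + P 2 * P 3)
              - (P 0 + P 1 + P 2 + P 3) * P 3 + P 3 ^ 2))) * s1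
        - (Y 0 * ((R 0 + R 1 + R 2 + R 3) - R 0) + Y 1 * ((R 0 + R 1 + R 2 + R 3) - R 1)
          + Y 2 * ((R 0 + R 1 + R 2 + R 3) - R 2) + Y 3 * ((R 0 + R 1 + R 2 + R 3) - R 3)) * sR
        + (Y 0 * ((P 0 + P 1 + P 2 + P 3) - P 0) + Y 1 * ((P 0 + P 1 + P 2 + P 3) - P 1)
          + Y 2 * ((P 0 + P 1 + P 2 + P 3) - P 2) + Y 3 * ((P 0 + P 1 + P 2 + P 3) - P 3)) * sP
        - (Y 0 + Y 1 + Y 2 + Y 3) * sPP + (Y 0 + Y 1 + Y 2 + Y 3) * sRR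
        - ((R 0 * R 1 + R 0 * R 2 + R 0 * R 3 + R 1 * R 2 + R 1 * R 3 + R 2 * R 3)
          - (P 0 * P 1 + P 0 * P 2 + P 0 * P 3 + P 1 * P 2 + P 1 * P 3 + P 2 * P 3)) * sY
        + 2 * (R 0 + R 1 + R 2 + R 3) * sRY - 2 * (P 0 + P 1 + P 2 + P 3) * sPY
        - (1/2) * (R 0 * Y 0 + R 1 * Y 1 + R 2 * Y 2 + R 3 * Y 3) * tR
        + (1/2) * (P 0 * Y 0 + P 1 * Y 1 + P 2 * Y 2 + P 3 * Y 3) * tP
        - 3 * hn
    have h' : t ^ 2 * ((1 - t) * s - 8 * n + 12 * (1 + t)) = 0 := by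
      linear_combination
        (-2 * n * t^2 + 2 * s * t^2 + 2 * n * t + s * t + s) * E1
        + ((1/2) * s * t^3 - n * t^2 + s * t^2 + n * t + (1/2) * s * t) * S1
        - 2 * (1 + t) * t ^ 2 * hL
        - 2 * (1 + t) * ((1/4) * t ^ 2 * s * (qR - qP) - (1/4) * t ^ 2 * s * qR2
            + (1/4) * t * s * qP2 - k * t ^ 2 * qA + (1/2) * t ^ 2 * qYR
            + (1/2) * t ^ 2 * k * (1 + t) * qA + (1/2) * t ^ 2 * n * qR2
            + m * t * qB - (1/2) * t * qYP - (1/2) * m * (1 + t) * qB + (1/2) * n * qP2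
            + 3 * t * qom)
    have h'' : (1 - t) * s = 8 * n - 12 * (1 + t) := by
      have ht2 : t ^ 2 ≠ 0 := pow_ne_zero 2 ht0
      rcases mul_eq_zero.mp h' with h | h
      · exact absurd h ht2
      · linarith
    have q' : t * s = -2 * (1 - t) * (k ^ 2 + t * m ^ 2 - (1 + t)) := by
      linear_combination (-t) * qQ + t * qR - t * qP - t * qR2 + qP2 - (1 + t) * S1
        - 2 * (1 + t) * E1
    refine final_system t (k ^ 2) (m ^ 2) n (by positivity) (by positivity) ht0 ?_ ?_ ?_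
    · linear_combination E1
    · linear_combination (1/2) * n * h'' - (1/2) * (1 - t) * S1
    · linear_combination (-1/2) * t * h'' + (1/2) * (1 - t) * q'

end Pool.Agent.Helper24
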