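import Mathlib
import Pool.Agent.Helper24.CaseII

namespace Pool.Agent.Helper24

theorem two_two {a b c d p p' r r' A B C D : ℝ}
    (s1 : a + b + c + d = 1) (sP : a * p + b * p' = 0) (sR : c * r + d * r' = 0)
    (sPP : a * p ^ 2 + b * p' ^ 2 = 1) (sRR : c * r ^ 2 + d * r' ^ 2 = 1)
    (tP : p + p' = 0) (tR : r + r' = 0)
    (c02 : 1 + A * C = 0) (c03 : 1 + A * D = 0) (c12 : 1 + B * C = 0)
    (c01 : 1 + p * p' + A * B = 0) (c23 : 1 + r * r' + C * D = 0)
    (hh : (1/2 - a) * (B * (r * r')) + (1/2 - b) * (A * (r * r'))
      + (1/2 - c) * (D * (-(p * p'))) + (1/2 - d) * (C * (-(p * p'))) = 6)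
    (hQ : 2 * (r * r' - p * p') = A + B + C + D) : False := by
  have hp' : p' = -p := by linarith
  have hr' : r' = -r := by linarith
  subst hp'
  subst hr'
  have hA : A ≠ 0 := by
    rintro rfl
    norm_num at c02
  have hC : C ≠ 0 := by
    rintro rfl
    norm_num at c02
  have hDC : D = C := by
    have : A * (D - C) = 0 := by linear_combination c03 - c02
    rcases mul_eq_zero.mp this with h | h
    · exact absurd h hA
    · linarith
  have hBA : B = A := by
    have : C * (B - A) = 0 := by linear_combination c12 - c02
    rcases mul_eq_zero.mp this with h | h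
    · exact absurd h hC
    · linarith
  subst hDC
  subst hBA
  have hp : p ≠ 0 := by
    rintro rfl
    norm_num at sPP
  have hr : r ≠ 0 := by
    rintro rfl
    norm_num at sRR
  have hab : a = b := by
    have : p * (a - b) = 0 := by linear_combination sP
    rcases mul_eq_zero.mp this with h | h
    · exact absurd h hp
    · linarith
  have hcd : c = d := by
    have : r * (c - d) = 0 := by linear_combination sR
    rcases mul_eq_zero.mp this with h | h
    · exact absurd h hr
    · linarith
  subst hab
  subst hcd
  have hY : B - D = -6 := by
    linear_combination (-1 : ℝ) * hh - B * sRR + D * sPP + (B * r ^ 2 - D * p ^ 2) * s1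
  have h2 : (B + D) * (B - D - 1) = 0 := by
    linear_combination (1/2) * hQ + c01 - c23
  rcases mul_eq_zero.mp h2 with h | h
  · have h3 : B = -3 := by linarith
    have h4 : D = 3 := by linarith
    rw [h3, h4] at c02
    norm_num at c02
  · linarith

theorem caseII0 {w P R Y : Fin 4 → ℝ} (S : Sys w P R Y) (hw : ∀ i, w i ≠ 0)
    (V : ∀ i, P i * R i = 0)
    (tP : P 0 + P 1 + P 2 + P 3 = 0)
    (tR : R 0 + R 1 + R 2 + R 3 = 0)
    (hh : (1/2 - w 0) * (Y 1 * (R 2 * R 3 - P 2 * P 3) + Y 2 * (R 1 * R 3 - P 1 * P 3)
            + Y 3 * (R 1 * R 2 - P 1 * P 2))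
        + (1/2 - w 1) * (Y 0 * (R 2 * R 3 - P 2 * P 3) + Y 2 * (R 0 * R 3 - P 0 * P 3)
            + Y 3 * (R 0 * R 2 - P 0 * P 2))
        + (1/2 - w 2) * (Y 0 * (R 1 * R 3 - P 1 * P 3) + Y 1 * (R 0 * R 3 - P 0 * P 3)
            + Y 3 * (R 0 * R 1 - P 0 * P 1))
        + (1/2 - w 3) * (Y 0 * (R 1 * R 2 - P 1 * P 2) + Y 1 * (R 0 * R 2 - P 0 * P 2)
            + Y 2 * (R 0 * R 1 - P 0 * P 1)) = 6)
    (hQ : 2 * (R 0 * R 1 + R 0 * R 2 + R 0 * R 3 + R 1 * R 2 + R 1 * R 3 + R 2 * R 3
          - (P 0 * P 1 + P 0 * P 2 + P 0 * P 3 + P 1 * P 2 + P 1 * P 3 + P 2 * P 3))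
        = Y 0 + Y 1 + Y 2 + Y 3) : False := by
  obtain ⟨s1, sP, sR, sY, sPP, sRR, sYY, sPR, sPY, sRY, col⟩ := S
  have c : ∀ i j, i ≠ j → 1 + P i * P j + R i * R j + Y i * Y j = 0 := by
    intro i j hij
    have h := col i j
    rw [if_neg hij] at h
    rcases mul_eq_zero.mp h with h | h
    · exact absurd h (hw j)
    · exact h
  have c01 := c 0 1 (by decide)
  have c02 := c 0 2 (by decide)
  have c03 := c 0 3 (by decide)
  have c12 := c 1 2 (by decide)
  have c13 := c 1 3 (by decide)
  have c23 := c 2 3 (by decide)
  rcases mul_eq_zero.mp (V 0) with h0 | h0 <;> rcases mul_eq_zero.mp (V 1) with h1 | h1 <;>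
    rcases mul_eq_zero.mp (V 2) with h2 | h2 <;> rcases mul_eq_zero.mp (V 3) with h3 | h3 <;>
    simp only [h0, h1, h2, h3] at sP sR sPP sRR tP tR c01 c02 c03 c12 c13 c23 hh hQ
  · norm_num at sPP
  · have : P 3 = 0 := by linarith
    rw [this] at sPP; norm_num at sPP
  · have : P 2 = 0 := by linarith
    rw [this] at sPP; norm_num at sPP
  · -- R2=R3=0, P0=P1=0
    exact two_two (a := w 2) (b := w 3) (c := w 0) (d := w 1) (p := P 2) (p' := P 3)
      (r := R 0) (r' := R 1) (A := Y 2) (B := Y 3) (C := Y 0) (D := Y 1)
      (by linear_combination s1) (by linear_combination sP) (by linear_combination sR)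
      (by linear_combination sPP) (by linear_combination sRR)
      (by linear_combination tP) (by linear_combination tR)
      (by linear_combination c02) (by linear_combination c12) (by linear_combination c03)
      (by linear_combination c23) (by linear_combination c01)
      (by linear_combination hh) (by linear_combination hQ)
  · have : P 1 = 0 := by linarith
    rw [this] at sPP; norm_num at sPP
  · -- P0=R1=P2=R3=0
    exact two_two (a := w 1) (b := w 3) (c := w 0) (d := w 2) (p := P 1) (p' := P 3)
      (r := R 0) (r' := R 2) (A := Y 1) (B := Y 3) (C := Y 0) (D := Y 2)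
      (by linear_combination s1) (by linear_combination sP) (by linear_combination sR)
      (by linear_combination sPP) (by linear_combination sRR)
      (by linear_combination tP) (by linear_combination tR)
      (by linear_combination c01) (by linear_combination c12) (by linear_combination c03)
      (by linear_combination c13) (by linear_combination c02)
      (by linear_combination hh) (by linear_combination hQ)
  · -- P0=R1=R2=P3=0
    exact two_two (a := w 1) (b := w 2) (c := w 0) (d := w 3) (p := P 1) (p' := P 2)
      (r := R 0) (r' := R 3) (A := Y 1) (B := Y 2) (C := Y 0) (D := Y 3)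
      (by linear_combination s1) (by linear_combination sP) (by linear_combination sR)
      (by linear_combination sPP) (by linear_combination sRR)
      (by linear_combination tP) (by linear_combination tR)
      (by linear_combination c01) (by linear_combination c13) (by linear_combination c02)
      (by linear_combination c12) (by linear_combination c03)
      (by linear_combination hh) (by linear_combination hQ)
  · have : R 0 = 0 := by linarith
    rw [this] at sRR; norm_num at sRR
  · have : P 0 = 0 := by linarith
    rw [this] at sPP; norm_num at sPP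
  · -- R0=P1=P2=R3=0
    exact two_two (a := w 0) (b := w 3) (c := w 1) (d := w 2) (p := P 0) (p' := P 3)
      (r := R 1) (r' := R 2) (A := Y 0) (B := Y 3) (C := Y 1) (D := Y 2)
      (by linear_combination s1) (by linear_combination sP) (by linear_combination sR)
      (by linear_combination sPP) (by linear_combination sRR)
      (by linear_combination tP) (by linear_combination tR)
      (by linear_combination c01) (by linear_combination c02) (by linear_combination c13)
      (by linear_combination c03) (by linear_combination c12)
      (by linear_combination hh) (by linear_combination hQ)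
  · -- R0=P1=R2=P3=0
    exact two_two (a := w 0) (b := w 2) (c := w 1) (d := w 3) (p := P 0) (p' := P 2)
      (r := R 1) (r' := R 3) (A := Y 0) (B := Y 2) (C := Y 1) (D := Y 3)
      (by linear_combination s1) (by linear_combination sP) (by linear_combination sR)
      (by linear_combination sPP) (by linear_combination sRR)
      (by linear_combination tP) (by linear_combination tR)
      (by linear_combination c01) (by linear_combination c03) (by linear_combination c12)
      (by linear_combination c02) (by linear_combination c13)
      (by linear_combination hh) (by linear_combination hQ)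
  · have : R 1 = 0 := by linarith
    rw [this] at sRR; norm_num at sRR
  · -- R0=R1=P2=P3=0
    exact two_two (a := w 0) (b := w 1) (c := w 2) (d := w 3) (p := P 0) (p' := P 1)
      (r := R 2) (r' := R 3) (A := Y 0) (B := Y 1) (C := Y 2) (D := Y 3)
      (by linear_combination s1) (by linear_combination sP) (by linear_combination sR)
      (by linear_combination sPP) (by linear_combination sRR)
      (by linear_combination tP) (by linear_combination tR)
      (by linear_combination c02) (by linear_combination c03) (by linear_combination c12)
      (by linear_combination c01) (by linear_combination c23)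
      (by linear_combination hh) (by linear_combination hQ)
  · have : R 2 = 0 := by linarith
    rw [this] at sRR; norm_num at sRR
  · have : R 3 = 0 := by linarith
    rw [this] at sRR; norm_num at sRR
  · norm_num at sRR

end Pool.Agent.Helper24
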