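import Mathlib
import Pool.Agent.Helper24.CaseI
import Pool.Agent.Helper24.CaseII0

namespace Pool.Agent.Helper24

/-- polarisation (times 6) of `x p q` -/
def ee (x p q : Fin 4 → ℝ) (i j k : Fin 4) : ℝ :=
  x i * (p j * q k + p k * q j) + x j * (p i * q k + p k * q i) + x k * (p i * q j + p j * q i)

/-- polarisation (times 3) of `-2 x^3 + y (q^2 - p^2)` -/
def ff (x p q y : Fin 4 → ℝ) (i j k : Fin 4) : ℝ :=
  -6 * x i * x j * x k + y i * (q j * q k - p j * p k) + y j * (q i * q k - p i * p k)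
    + y k * (q i * q j - p i * p j)

/-- The algebraic conditions satisfied by a limit frame. -/
structure Fr (x p q y : Fin 4 → ℝ) : Prop where
  xx : x 0 ^ 2 + x 1 ^ 2 + x 2 ^ 2 + x 3 ^ 2 = 1
  pp : p 0 ^ 2 + p 1 ^ 2 + p 2 ^ 2 + p 3 ^ 2 = 1
  qq : q 0 ^ 2 + q 1 ^ 2 + q 2 ^ 2 + q 3 ^ 2 = 1
  yy : y 0 ^ 2 + y 1 ^ 2 + y 2 ^ 2 + y 3 ^ 2 = 1
  xp : x 0 * p 0 + x 1 * p 1 + x 2 * p 2 + x 3 * p 3 = 0
  xq : x 0 * q 0 + x 1 * q 1 + x 2 * q 2 + x 3 * q 3 = 0
  xy : x 0 * y 0 + x 1 * y 1 + x 2 * y 2 + x 3 * y 3 = 0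
  pq : p 0 * q 0 + p 1 * q 1 + p 2 * q 2 + p 3 * q 3 = 0
  py : p 0 * y 0 + p 1 * y 1 + p 2 * y 2 + p 3 * y 3 = 0
  qy : q 0 * y 0 + q 1 * y 1 + q 2 * y 2 + q 3 * y 3 = 0
  c : ∀ i j, x i * x j + p i * p j + q i * q j + y i * y j = if i = j then 1 else 0
  e0 : ee x p q 1 2 3 = 0
  e1 : ee x p q 0 2 3 = 0
  e2 : ee x p q 0 1 3 = 0
  e3 : ee x p q 0 1 2 = 0
  hx : (1/2 - x 0 ^ 2) * x 0 * ff x p q y 1 2 3 + (1/2 - x 1 ^ 2) * x 1 * ff x p q y 0 2 3
    + (1/2 - x 2 ^ 2) * x 2 * ff x p q y 0 1 3 + (1/2 - x 3 ^ 2) * x 3 * ff x p q y 0 1 2 = 0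
  hp : (1/2 - p 0 ^ 2) * p 0 * ff x p q y 1 2 3 + (1/2 - p 1 ^ 2) * p 1 * ff x p q y 0 2 3
    + (1/2 - p 2 ^ 2) * p 2 * ff x p q y 0 1 3 + (1/2 - p 3 ^ 2) * p 3 * ff x p q y 0 1 2 = 0
  hq : (1/2 - q 0 ^ 2) * q 0 * ff x p q y 1 2 3 + (1/2 - q 1 ^ 2) * q 1 * ff x p q y 0 2 3
    + (1/2 - q 2 ^ 2) * q 2 * ff x p q y 0 1 3 + (1/2 - q 3 ^ 2) * q 3 * ff x p q y 0 1 2 = 0
  hQ : 2 * (x 0 * x 1 * (q 2 * q 3 - p 2 * p 3) + x 0 * x 2 * (q 1 * q 3 - p 1 * p 3)
        + x 0 * x 3 * (q 1 * q 2 - p 1 * p 2) + x 1 * x 2 * (q 0 * q 3 - p 0 * p 3)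
        + x 1 * x 3 * (q 0 * q 2 - p 0 * p 2) + x 2 * x 3 * (q 0 * q 1 - p 0 * p 1))
      = y 0 * x 1 * x 2 * x 3 + x 0 * y 1 * x 2 * x 3 + x 0 * x 1 * y 2 * x 3
        + x 0 * x 1 * x 2 * y 3

theorem Fr.swap01 {x p q y : Fin 4 → ℝ} (h : Fr x p q y) :
    Fr (x ∘ Equiv.swap 0 1) (p ∘ Equiv.swap 0 1) (q ∘ Equiv.swap 0 1) (y ∘ Equiv.swap 0 1) := by
  obtain ⟨xx, pp, qq, yy, xp, xq, xy, pq, py, qy, c, e0, e1, e2, e3, hx, hp, hq, hQ⟩ := h
  have s0 : (Equiv.swap (0 : Fin 4) 1) 0 = 1 := by decide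
  have s1 : (Equiv.swap (0 : Fin 4) 1) 1 = 0 := by decide
  have s2 : (Equiv.swap (0 : Fin 4) 1) 2 = 2 := by decide
  have s3 : (Equiv.swap (0 : Fin 4) 1) 3 = 3 := by decide
  constructor
  case c =>
    intro i j
    have := c (Equiv.swap 0 1 i) (Equiv.swap 0 1 j)
    simpa using this
  all_goals simp only [ee, ff, Function.comp_apply, s0, s1, s2, s3] at *
  · linear_combination xx
  · linear_combination pp
  · linear_combination qq
  · linear_combination yy
  · linear_combination xp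
  · linear_combination xq
  · linear_combination xy
  · linear_combination pq
  · linear_combination py
  · linear_combination qy
  · linear_combination e1
  · linear_combination e0
  · linear_combination e2
  · linear_combination e3
  · linear_combination hx
  · linear_combination hp
  · linear_combination hq
  · linear_combination hQ

theorem Fr.swap02 {x p q y : Fin 4 → ℝ} (h : Fr x p q y) :
    Fr (x ∘ Equiv.swap 0 2) (p ∘ Equiv.swap 0 2) (q ∘ Equiv.swap 0 2) (y ∘ Equiv.swap 0 2) := by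
  obtain ⟨xx, pp, qq, yy, xp, xq, xy, pq, py, qy, c, e0, e1, e2, e3, hx, hp, hq, hQ⟩ := h
  have s0 : (Equiv.swap (0 : Fin 4) 2) 0 = 2 := by decide
  have s1 : (Equiv.swap (0 : Fin 4) 2) 1 = 1 := by decide
  have s2 : (Equiv.swap (0 : Fin 4) 2) 2 = 0 := by decide
  have s3 : (Equiv.swap (0 : Fin 4) 2) 3 = 3 := by decide
  constructor
  case c =>
    intro i j
    have := c (Equiv.swap 0 2 i) (Equiv.swap 0 2 j)
    simpa using this
  all_goals simp only [ee, ff, Function.comp_apply, s0, s1, s2, s3] at *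
  · linear_combination xx
  · linear_combination pp
  · linear_combination qq
  · linear_combination yy
  · linear_combination xp
  · linear_combination xq
  · linear_combination xy
  · linear_combination pq
  · linear_combination py
  · linear_combination qy
  · linear_combination e2
  · linear_combination e1
  · linear_combination e0
  · linear_combination e3
  · linear_combination hx
  · linear_combination hp
  · linear_combination hq
  · linear_combination hQ

theorem Fr.swap03 {x p q y : Fin 4 → ℝ} (h : Fr x p q y) :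
    Fr (x ∘ Equiv.swap 0 3) (p ∘ Equiv.swap 0 3) (q ∘ Equiv.swap 0 3) (y ∘ Equiv.swap 0 3) := by
  obtain ⟨xx, pp, qq, yy, xp, xq, xy, pq, py, qy, c, e0, e1, e2, e3, hx, hp, hq, hQ⟩ := h
  have s0 : (Equiv.swap (0 : Fin 4) 3) 0 = 3 := by decide
  have s1 : (Equiv.swap (0 : Fin 4) 3) 1 = 1 := by decide
  have s2 : (Equiv.swap (0 : Fin 4) 3) 2 = 2 := by decide
  have s3 : (Equiv.swap (0 : Fin 4) 3) 3 = 0 := by decide
  constructor
  case c =>
    intro i j
    have := c (Equiv.swap 0 3 i) (Equiv.swap 0 3 j)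
    simpa using this
  all_goals simp only [ee, ff, Function.comp_apply, s0, s1, s2, s3] at *
  · linear_combination xx
  · linear_combination pp
  · linear_combination qq
  · linear_combination yy
  · linear_combination xp
  · linear_combination xq
  · linear_combination xy
  · linear_combination pq
  · linear_combination py
  · linear_combination qy
  · linear_combination e3
  · linear_combination e1
  · linear_combination e2
  · linear_combination e0
  · linear_combination hx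
  · linear_combination hp
  · linear_combination hq
  · linear_combination hQ

theorem frS1 {x p q y : Fin 4 → ℝ} (h : Fr x p q y) (hx0 : x 0 = 0) (hp0 : p 0 = 0)
    (hq0 : q 0 = 0) : False := by
  obtain ⟨xx, pp, qq, yy, xp, xq, xy, pq, py, qy, c, e0, e1, e2, e3, hx, hp, hq, hQ⟩ := h
  have c00 := c 0 0
  have c01 := c 0 1
  have c02 := c 0 2
  have c03 := c 0 3
  have c11 := c 1 1
  have c22 := c 2 2
  have c33 := c 3 3
  have c12 := c 1 2
  have c13 := c 1 3
  have c23 := c 2 3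
  simp [hx0, hp0, hq0] at c00 c01 c02 c03 c11 c22 c33 c12 c13 c23
  have hy0 : y 0 ≠ 0 := by
    intro h
    rw [h] at c00
    norm_num at c00
  have hy1 : y 1 = 0 := c01.resolve_left hy0
  have hy2 : y 2 = 0 := c02.resolve_left hy0
  have hy3 : y 3 = 0 := c03.resolve_left hy0
  simp only [ee, ff, hx0, hp0, hq0, hy1, hy2, hy3] at *
  refine s1 (x1 := x 1) (x2 := x 2) (x3 := x 3) (p1 := p 1) (p2 := p 2) (p3 := p 3)
    (q1 := q 1) (q2 := q 2) (q3 := q 3) (by linear_combination xx) (by linear_combination pp)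
    (by linear_combination qq) (by linear_combination c11) (by linear_combination c22)
    (by linear_combination c33) (by linear_combination c12) (by linear_combination c13)
    (by linear_combination c23) (by linear_combination e0) ?_ ?_ ?_ ?_
  · apply mul_left_cancel₀ hy0
    linear_combination hx
  · apply mul_left_cancel₀ hy0
    linear_combination hp
  · apply mul_left_cancel₀ hy0
    linear_combination hq
  · apply mul_left_cancel₀ hy0
    linear_combination -hQ

theorem frS1' {x p q y : Fin 4 → ℝ} (h : Fr x p q y) (i : Fin 4) (hx0 : x i = 0) (hp0 : p i = 0)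
    (hq0 : q i = 0) : False := by
  fin_cases i
  · exact frS1 h hx0 hp0 hq0
  · exact frS1 h.swap01 (by simpa using hx0) (by simpa using hp0) (by simpa using hq0)
  · exact frS1 h.swap02 (by simpa using hx0) (by simpa using hp0) (by simpa using hq0)
  · exact frS1 h.swap03 (by simpa using hx0) (by simpa using hp0) (by simpa using hq0)

theorem frS2 {x p q y : Fin 4 → ℝ} (h : Fr x p q y) (hx0 : x 0 = 0) (hp0 : p 0 ^ 2 = 1 / 2)
    (hq0 : q 0 ^ 2 = 1 / 2) (r1 : p 0 * q 1 + q 0 * p 1 = 0) (r2 : p 0 * q 2 + q 0 * p 2 = 0)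
    (r3 : p 0 * q 3 + q 0 * p 3 = 0) : False := by
  obtain ⟨xx, pp, qq, yy, xp, xq, xy, pq, py, qy, c, e0, e1, e2, e3, hx, hp, hq, hQ⟩ := h
  have c00 := c 0 0
  have c11 := c 1 1
  have c22 := c 2 2
  have c33 := c 3 3
  have c12 := c 1 2
  have c13 := c 1 3
  have c23 := c 2 3
  simp [hx0] at c00 c11 c22 c33 c12 c13 c23
  have hy0 : y 0 = 0 := by
    have : y 0 ^ 2 = 0 := by linarith
    exact pow_eq_zero_iff (two_ne_zero) |>.mp this
  have hq0' : q 0 ≠ 0 := by
    intro h
    rw [h] at hq0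
    norm_num at hq0
  obtain ⟨ε, hε⟩ : ∃ ε : ℝ, 2 * p 0 * q 0 = ε := ⟨_, rfl⟩
  have hε2 : ε ^ 2 = 1 := by
    rw [← hε]
    linear_combination 4 * q 0 ^ 2 * hp0 + 2 * hq0
  have hε0 : ε ≠ 0 := by
    rintro rfl
    norm_num at hε2
  have hp1 : p 1 = -ε * q 1 := by
    rw [← hε]
    linear_combination 2 * q 0 * r1 - 2 * p 1 * hq0
  have hp2 : p 2 = -ε * q 2 := by
    rw [← hε]
    linear_combination 2 * q 0 * r2 - 2 * p 2 * hq0
  have hp3 : p 3 = -ε * q 3 := by
    rw [← hε]
    linear_combination 2 * q 0 * r3 - 2 * p 3 * hq0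
  have hp0' : p 0 = ε * q 0 := by
    rw [← hε]
    linear_combination -2 * p 0 * hq0
  have d1 : q 0 * q 1 - p 0 * p 1 = 2 * (q 0 * q 1) := by
    rw [hp1, hp0']
    linear_combination q 0 * q 1 * hε2
  have d2 : q 0 * q 2 - p 0 * p 2 = 2 * (q 0 * q 2) := by
    rw [hp2, hp0']
    linear_combination q 0 * q 2 * hε2
  have d3 : q 0 * q 3 - p 0 * p 3 = 2 * (q 0 * q 3) := by
    rw [hp3, hp0']
    linear_combination q 0 * q 3 * hε2
  have h2q0 : 2 * q 0 ≠ 0 := by
    intro h; apply hq0'; linarith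
  simp only [ee, ff, hx0, hy0] at *
  rw [d1, d2, d3] at hx hq hQ
  refine s2 (x1 := x 1) (x2 := x 2) (x3 := x 3) (y1 := y 1) (y2 := y 2) (y3 := y 3)
    (q1 := q 1) (q2 := q 2) (q3 := q 3) (by linear_combination xx) (by linear_combination yy)
    (by linear_combination qq - hq0) (by linear_combination xq) (by linear_combination qy)
    ?_ ?_ ?_ ?_ ?_ ?_ ?_ ?_ ?_ ?_
  · rw [hp1] at c11
    linear_combination c11 - q 1 ^ 2 * hε2
  · rw [hp2] at c22
    linear_combination c22 - q 2 ^ 2 * hε2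
  · rw [hp3] at c33
    linear_combination c33 - q 3 ^ 2 * hε2
  · rw [hp1, hp2] at c12
    linear_combination c12 - q 1 * q 2 * hε2
  · rw [hp1, hp3] at c13
    linear_combination c13 - q 1 * q 3 * hε2
  · rw [hp2, hp3] at c23
    linear_combination c23 - q 2 * q 3 * hε2
  · rw [hp1, hp2, hp3] at e0
    apply mul_left_cancel₀ hε0
    linear_combination (-1/2) * e0
  · apply mul_left_cancel₀ h2q0
    linear_combination hq + q 0 * (-6 * x 1 * x 2 * x 3 + y 1 * (q 2 * q 3 - p 2 * p 3)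
      + y 2 * (q 1 * q 3 - p 1 * p 3) + y 3 * (q 1 * q 2 - p 1 * p 2)) * hq0
  · apply mul_left_cancel₀ h2q0
    linear_combination hx
  · apply mul_left_cancel₀ h2q0
    linear_combination (1/2) * hQ

/-- two vanishing `x`-coordinates with `r = 0`, the other two non-zero -/
theorem frK {x p q y : Fin 4 → ℝ} (h : Fr x p q y) (j : Fin 4) (hx0 : x 0 = 0) (hxj : x j = 0)
    (hr : p 0 * q j + q 0 * p j = 0) (hs : q 0 * q j - p 0 * p j = 0) : False := by
  have h1 : (p 0 ^ 2 + q 0 ^ 2) * (p j ^ 2 + q j ^ 2) = 0 := by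
    linear_combination (p 0 * q j + q 0 * p j) * hr + (q 0 * q j - p 0 * p j) * hs
  rcases mul_eq_zero.mp h1 with h2 | h2
  · have a : p 0 = 0 := by
      have : p 0 ^ 2 = 0 := by nlinarith [sq_nonneg (p 0), sq_nonneg (q 0)]
      exact pow_eq_zero_iff (two_ne_zero) |>.mp this
    have b : q 0 = 0 := by
      have : q 0 ^ 2 = 0 := by nlinarith [sq_nonneg (p 0), sq_nonneg (q 0)]
      exact pow_eq_zero_iff (two_ne_zero) |>.mp this
    exact frS1 h hx0 a b
  · have a : p j = 0 := by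
      have : p j ^ 2 = 0 := by nlinarith [sq_nonneg (p j), sq_nonneg (q j)]
      exact pow_eq_zero_iff (two_ne_zero) |>.mp this
    have b : q j = 0 := by
      have : q j ^ 2 = 0 := by nlinarith [sq_nonneg (p j), sq_nonneg (q j)]
      exact pow_eq_zero_iff (two_ne_zero) |>.mp this
    exact frS1' h j hxj a b

theorem frI {x p q y : Fin 4 → ℝ} (h : Fr x p q y) (hx0 : x 0 = 0) : False := by
  have h' := h
  obtain ⟨xx, pp, qq, yy, xp, xq, xy, pq, py, qy, c, e0, e1, e2, e3, hx, hp, hq, hQ⟩ := h'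
  obtain ⟨r1, hr1⟩ : ∃ r, p 0 * q 1 + q 0 * p 1 = r := ⟨_, rfl⟩
  obtain ⟨r2, hr2⟩ : ∃ r, p 0 * q 2 + q 0 * p 2 = r := ⟨_, rfl⟩
  obtain ⟨r3, hr3⟩ : ∃ r, p 0 * q 3 + q 0 * p 3 = r := ⟨_, rfl⟩
  have f1 : x 2 * r3 + x 3 * r2 = 0 := by
    rw [← hr2, ← hr3]
    simp only [ee, hx0] at e1
    linear_combination e1
  have f2 : x 1 * r3 + x 3 * r1 = 0 := by
    rw [← hr1, ← hr3]
    simp only [ee, hx0] at e2
    linear_combination e2
  have f3 : x 1 * r2 + x 2 * r1 = 0 := by
    rw [← hr1, ← hr2]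
    simp only [ee, hx0] at e3
    linear_combination e3
  have f4 : x 1 * r1 + x 2 * r2 + x 3 * r3 = 0 := by
    rw [← hr1, ← hr2, ← hr3]
    rw [hx0] at xp xq
    linear_combination p 0 * xq + q 0 * xp
  have fx : x 1 ^ 2 + x 2 ^ 2 + x 3 ^ 2 = 1 := by
    rw [hx0] at xx
    linear_combination xx
  have g1 : r1 * (2 * x 1 ^ 2 - 1) = 0 := by
    linear_combination x 1 * f4 - x 2 * f3 - x 3 * f2 + r1 * fx
  have g2 : r2 * (2 * x 2 ^ 2 - 1) = 0 := by
    linear_combination x 2 * f4 - x 1 * f3 - x 3 * f1 + r2 * fx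
  have g3 : r3 * (2 * x 3 ^ 2 - 1) = 0 := by
    linear_combination x 3 * f4 - x 1 * f2 - x 2 * f1 + r3 * fx
  by_cases hall : r1 = 0 ∧ r2 = 0 ∧ r3 = 0
  · obtain ⟨z1, z2, z3⟩ := hall
    rw [z1] at hr1
    rw [z2] at hr2
    rw [z3] at hr3
    have k1 : p 0 * (1 - 2 * q 0 ^ 2) = 0 := by
      linear_combination q 1 * hr1 + q 2 * hr2 + q 3 * hr3 - p 0 * qq - q 0 * pq
    have k2 : q 0 * (1 - 2 * p 0 ^ 2) = 0 := by
      linear_combination p 1 * hr1 + p 2 * hr2 + p 3 * hr3 - q 0 * pp - p 0 * pq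
    rcases mul_eq_zero.mp k1 with a | a
    · rw [a] at k2
      have : q 0 = 0 := by linarith
      exact frS1 h hx0 a this
    · rcases mul_eq_zero.mp k2 with b | b
      · rw [b] at a
        norm_num at a
      · exact frS2 h hx0 (by linarith) (by linarith) hr1 hr2 hr3
  · -- K-type
    have key1 : r1 ≠ 0 → False := by
      intro hr
      have hx1 : x 1 ^ 2 = 1 / 2 := by
        have := (mul_eq_zero.mp g1).resolve_left hr
        linarith
      have hx1' : x 1 ≠ 0 := by
        intro h; rw [h] at hx1; norm_num at hx1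
      by_cases hx2 : x 2 = 0
      · have hr2' : r2 = 0 := by
          rw [hx2] at f3
          have : x 1 * r2 = 0 := by linarith
          exact (mul_eq_zero.mp this).resolve_left hx1'
        have hx3' : x 3 ≠ 0 := by
          intro h; rw [h, hx2, hx1] at fx; norm_num at fx
        refine frK h 2 hx0 hx2 (by rw [hr2, hr2']) ?_
        rw [hx0, hx2] at hQ
        have : (x 1 * x 3) * (q 0 * q 2 - p 0 * p 2) = 0 := by linear_combination (1/2) * hQ
        exact (mul_eq_zero.mp this).resolve_left (mul_ne_zero hx1' hx3')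
      · by_cases hx3 : x 3 = 0
        · have hr3' : r3 = 0 := by
            rw [hx3] at f2
            have : x 1 * r3 = 0 := by linarith
            exact (mul_eq_zero.mp this).resolve_left hx1'
          refine frK h 3 hx0 hx3 (by rw [hr3, hr3']) ?_
          rw [hx0, hx3] at hQ
          have : (x 1 * x 2) * (q 0 * q 3 - p 0 * p 3) = 0 := by linear_combination (1/2) * hQ
          exact (mul_eq_zero.mp this).resolve_left (mul_ne_zero hx1' hx2)
        · have hr2' : r2 = 0 := by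
            rcases mul_eq_zero.mp g2 with a | a
            · exact a
            · exfalso
              have : x 3 ^ 2 = 0 := by linarith
              exact hx3 (pow_eq_zero_iff (two_ne_zero) |>.mp this)
          rw [hr2'] at f3
          have : x 2 * r1 = 0 := by linarith
          rcases mul_eq_zero.mp this with a | a
          · exact hx2 a
          · exact hr a
    have z1 : r1 = 0 := by
      by_contra hne; exact key1 hne
    have key2 : r2 ≠ 0 → False := by
      intro hr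
      have hx2 : x 2 ^ 2 = 1 / 2 := by
        have := (mul_eq_zero.mp g2).resolve_left hr
        linarith
      have hx2' : x 2 ≠ 0 := by
        intro h; rw [h] at hx2; norm_num at hx2
      have hx1 : x 1 = 0 := by
        rw [z1] at f3
        have : x 1 * r2 = 0 := by linarith
        exact (mul_eq_zero.mp this).resolve_right hr
      have hx3' : x 3 ≠ 0 := by
        intro h; rw [h, hx2, hx1] at fx; norm_num at fx
      refine frK h 1 hx0 hx1 (by rw [hr1, z1]) ?_
      rw [hx0, hx1] at hQ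
      have : (x 2 * x 3) * (q 0 * q 1 - p 0 * p 1) = 0 := by linear_combination (1/2) * hQ
      exact (mul_eq_zero.mp this).resolve_left (mul_ne_zero hx2' hx3')
    have z2 : r2 = 0 := by
      by_contra hne; exact key2 hne
    have hr : r3 ≠ 0 := by
      intro z3; exact hall ⟨z1, z2, z3⟩
    have hx3 : x 3 ^ 2 = 1 / 2 := by
      have := (mul_eq_zero.mp g3).resolve_left hr
      linarith
    have hx1 : x 1 = 0 := by
      rw [z1] at f2
      have : x 1 * r3 = 0 := by linarith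
      exact (mul_eq_zero.mp this).resolve_right hr
    have hx2 : x 2 = 0 := by
      rw [z2] at f1
      have : x 2 * r3 = 0 := by linarith
      exact (mul_eq_zero.mp this).resolve_right hr
    rw [hx1, hx2, hx3] at fx
    norm_num at fx

theorem frI' {x p q y : Fin 4 → ℝ} (h : Fr x p q y) (i : Fin 4) (hx0 : x i = 0) : False := by
  fin_cases i
  · exact frI h hx0
  · exact frI h.swap01 (by simpa using hx0)
  · exact frI h.swap02 (by simpa using hx0)
  · exact frI h.swap03 (by simpa using hx0)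

/-- No limit frame exists. -/
theorem core {x p q y : Fin 4 → ℝ} (h : Fr x p q y) : False := by
  by_cases hx0 : ∃ i, x i = 0
  · obtain ⟨i, hi⟩ := hx0
    exact frI' h i hi
  push Not at hx0
  obtain ⟨P, hP⟩ : ∃ P : Fin 4 → ℝ, ∀ i, p i = x i * P i :=
    ⟨fun i => p i / x i, fun i => by field_simp [hx0 i]⟩
  obtain ⟨R, hR⟩ : ∃ R : Fin 4 → ℝ, ∀ i, q i = x i * R i :=
    ⟨fun i => q i / x i, fun i => by field_simp [hx0 i]⟩
  obtain ⟨Y, hY⟩ : ∃ Y : Fin 4 → ℝ, ∀ i, y i = x i * Y i :=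
    ⟨fun i => y i / x i, fun i => by field_simp [hx0 i]⟩
  obtain ⟨xx, pp, qq, yy, xp, xq, xy, pq, py, qy, c, e0, e1, e2, e3, hx, hp, hq, hQ⟩ := h
  simp only [ee, ff, hP, hR, hY] at *
  have n0 := hx0 0
  have n1 := hx0 1
  have n2 := hx0 2
  have n3 := hx0 3
  have col : ∀ i j, x j ^ 2 * (1 + P i * P j + R i * R j + Y i * Y j) = if i = j then 1 else 0 := by
    intro i j
    by_cases hij : i = j
    · subst hij
      have := c i i
      simp only [if_true] at this ⊢
      linear_combination this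
    · have h1 := c i j
      rw [if_neg hij] at h1 ⊢
      have h2 : (x i * x j) * (1 + P i * P j + R i * R j + Y i * Y j) = 0 := by
        linear_combination h1
      rw [(mul_eq_zero.mp h2).resolve_left (mul_ne_zero (hx0 i) (hx0 j))]
      ring
  have S : Sys (fun i => x i ^ 2) P R Y := by
    refine ⟨?_, ?_, ?_, ?_, ?_, ?_, ?_, ?_, ?_, ?_, col⟩
    · linear_combination xx
    · linear_combination xp
    · linear_combination xq
    · linear_combination xy
    · linear_combination pp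
    · linear_combination qq
    · linear_combination yy
    · linear_combination pq
    · linear_combination py
    · linear_combination qy
  have t0 : P 1 * R 2 + P 2 * R 1 + P 1 * R 3 + P 3 * R 1 + P 2 * R 3 + P 3 * R 2 = 0 := by
    apply mul_left_cancel₀ (mul_ne_zero (mul_ne_zero n1 n2) n3)
    linear_combination e0
  have t1 : P 0 * R 2 + P 2 * R 0 + P 0 * R 3 + P 3 * R 0 + P 2 * R 3 + P 3 * R 2 = 0 := by
    apply mul_left_cancel₀ (mul_ne_zero (mul_ne_zero n0 n2) n3)
    linear_combination e1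
  have t2 : P 1 * R 0 + P 0 * R 1 + P 1 * R 3 + P 3 * R 1 + P 0 * R 3 + P 3 * R 0 = 0 := by
    apply mul_left_cancel₀ (mul_ne_zero (mul_ne_zero n0 n1) n3)
    linear_combination e2
  have t3 : P 1 * R 2 + P 2 * R 1 + P 1 * R 0 + P 0 * R 1 + P 2 * R 0 + P 0 * R 2 = 0 := by
    apply mul_left_cancel₀ (mul_ne_zero (mul_ne_zero n0 n1) n2)
    linear_combination e3
  obtain ⟨m, hm⟩ : ∃ m : ℝ, P 0 + P 1 + P 2 + P 3 = 2 * m :=
    ⟨(P 0 + P 1 + P 2 + P 3) / 2, by ring⟩
  obtain ⟨k, hk⟩ : ∃ k : ℝ, R 0 + R 1 + R 2 + R 3 = 2 * k :=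
    ⟨(R 0 + R 1 + R 2 + R 3) / 2, by ring⟩
  have V : ∀ i, P i * R i = k * P i + m * R i := by
    intro i
    fin_cases i <;> simp only [Fin.zero_eta, Fin.mk_one, Fin.reduceFinMk]
    · linear_combination (1/4) * (-t1 - t2 - t3 + t0) + (1/2) * P 0 * hk + (1/2) * R 0 * hm
    · linear_combination (1/4) * (-t0 - t2 - t3 + t1) + (1/2) * P 1 * hk + (1/2) * R 1 * hm
    · linear_combination (1/4) * (-t0 - t1 - t3 + t2) + (1/2) * P 2 * hk + (1/2) * R 2 * hm
    · linear_combination (1/4) * (-t0 - t1 - t2 + t3) + (1/2) * P 3 * hk + (1/2) * R 3 * hm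
  have n4 : x 0 * x 1 * x 2 * x 3 ≠ 0 :=
    mul_ne_zero (mul_ne_zero (mul_ne_zero n0 n1) n2) n3
  have hh : (1/2 - x 0 ^ 2) * (Y 1 * (R 2 * R 3 - P 2 * P 3) + Y 2 * (R 1 * R 3 - P 1 * P 3)
            + Y 3 * (R 1 * R 2 - P 1 * P 2))
        + (1/2 - x 1 ^ 2) * (Y 0 * (R 2 * R 3 - P 2 * P 3) + Y 2 * (R 0 * R 3 - P 0 * P 3)
            + Y 3 * (R 0 * R 2 - P 0 * P 2))
        + (1/2 - x 2 ^ 2) * (Y 0 * (R 1 * R 3 - P 1 * P 3) + Y 1 * (R 0 * R 3 - P 0 * P 3)
            + Y 3 * (R 0 * R 1 - P 0 * P 1))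
        + (1/2 - x 3 ^ 2) * (Y 0 * (R 1 * R 2 - P 1 * P 2) + Y 1 * (R 0 * R 2 - P 0 * P 2)
            + Y 2 * (R 0 * R 1 - P 0 * P 1)) = 6 := by
    apply mul_left_cancel₀ n4
    linear_combination hx - 6 * (x 0 * x 1 * x 2 * x 3) * xx
  have hQ' : 2 * (R 0 * R 1 + R 0 * R 2 + R 0 * R 3 + R 1 * R 2 + R 1 * R 3 + R 2 * R 3
          - (P 0 * P 1 + P 0 * P 2 + P 0 * P 3 + P 1 * P 2 + P 1 * P 3 + P 2 * P 3))
        = Y 0 + Y 1 + Y 2 + Y 3 := by
    apply mul_left_cancel₀ n4
    linear_combination hQ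
  by_cases hk0 : k = 0
  · by_cases hm0 : m = 0
    · subst hk0
      subst hm0
      refine caseII0 S (fun i => pow_ne_zero 2 (hx0 i)) (fun i => by linear_combination V i)
        (by linear_combination hm) (by linear_combination hk) hh hQ'
    · have S' : Sys (fun i => x i ^ 2) R P (fun i => - Y i) := by
        obtain ⟨s1, sP, sR, sY, sPP, sRR, sYY, sPR, sPY, sRY, col⟩ := S
        refine ⟨s1, sR, sP, ?_, sRR, sPP, ?_, ?_, ?_, ?_, ?_⟩
        · linear_combination -sY
        · linear_combination sYY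
        · linear_combination sPR
        · linear_combination -sRY
        · linear_combination -sPY
        · intro i j
          rw [← col i j]
          ring
      refine caseII S' m k (fun i => by linear_combination V i) hk hm hm0 ?_ ?_
      · linear_combination hh
      · linear_combination -hQ'
  · exact caseII S k m V hm hk hk0 hh hQ'

end Pool.Agent.Helper24
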