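import Mathlib

open scoped RealInnerProductSpace

namespace Pool.Agent.Helper24

abbrev E (d : ℕ) := EuclideanSpace ℝ (Fin d)

variable {d : ℕ} {ι κ : Type} [Fintype ι] [Fintype κ]

/-- symmetric trilinear form `∑ α ⟪u,a⟫⟪u,b⟫⟪u,c⟫` -/
noncomputable def Tf (u : ι → E d) (α : ι → ℝ) (a b c : E d) : ℝ :=
  ∑ m, α m * (⟪u m, a⟫ * ⟪u m, b⟫ * ⟪u m, c⟫)

/-- symmetric 4-linear form -/
noncomputable def Qf (v : κ → E d) (β : κ → ℝ) (a b c e : E d) : ℝ :=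
  ∑ m, β m * (⟪v m, a⟫ * ⟪v m, b⟫ * ⟪v m, c⟫ * ⟪v m, e⟫)

/-- A pair (cubic, quartic) is good if no orthonormal frame kills both. -/
def Good (u : ι → E d) (α : ι → ℝ) (v : κ → E d) (β : κ → ℝ) : Prop :=
  ∀ θ : Fin d → E d, Orthonormal ℝ θ →
    (∀ i j k, i ≠ j → i ≠ k → j ≠ k → Tf u α (θ i) (θ j) (θ k) = 0) →
    (∀ i j k l, i ≠ j → i ≠ k → i ≠ l → j ≠ k → j ≠ l → k ≠ l →
      Qf v β (θ i) (θ j) (θ k) (θ l) = 0) → False

noncomputable def S3 (u : ι → E d) (α : ι → ℝ) (x : E d) : ℝ := ∑ m, α m * ⟪u m, x⟫ ^ 3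

noncomputable def S4 (v : κ → E d) (β : κ → ℝ) (x : E d) : ℝ := ∑ m, β m * ⟪v m, x⟫ ^ 4

theorem S3_diff1 (u : ι → E d) (α : ι → ℝ) (a x : E d) :
    S3 u α (a + x) - S3 u α a
      = ∑ m, α m * (⟪u m, x⟫ * (3 * ⟪u m, a⟫ ^ 2 + 3 * ⟪u m, a⟫ * ⟪u m, x⟫ + ⟪u m, x⟫ ^ 2)) := by
  simp only [S3, inner_add_right, ← Finset.sum_sub_distrib]
  refine Finset.sum_congr rfl fun m _ => ?_
  ring

theorem S4_diff1 (v : κ → E d) (β : κ → ℝ) (a x : E d) :
    S4 v β (a + x) - S4 v β a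
      = ∑ m, β m * (⟪v m, x⟫ * (4 * ⟪v m, a⟫ ^ 3 + 6 * ⟪v m, a⟫ ^ 2 * ⟪v m, x⟫
          + 4 * ⟪v m, a⟫ * ⟪v m, x⟫ ^ 2 + ⟪v m, x⟫ ^ 3)) := by
  simp only [S4, inner_add_right, ← Finset.sum_sub_distrib]
  refine Finset.sum_congr rfl fun m _ => ?_
  ring

theorem S3_diff2 (u : ι → E d) (α : ι → ℝ) (a x y : E d) :
    S3 u α (a + x + y) - S3 u α (a + x) - S3 u α (a + y) + S3 u α a
      = ∑ m, α m * (⟪u m, x⟫ * ⟪u m, y⟫ * (6 * ⟪u m, a⟫ + 3 * ⟪u m, x⟫ + 3 * ⟪u m, y⟫)) := by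
  simp only [S3, inner_add_right, ← Finset.sum_sub_distrib, ← Finset.sum_add_distrib]
  refine Finset.sum_congr rfl fun m _ => ?_
  ring

theorem S4_diff2 (v : κ → E d) (β : κ → ℝ) (a x y : E d) :
    S4 v β (a + x + y) - S4 v β (a + x) - S4 v β (a + y) + S4 v β a
      = ∑ m, β m * (⟪v m, x⟫ * ⟪v m, y⟫ * (12 * ⟪v m, a⟫ ^ 2
          + 12 * ⟪v m, a⟫ * (⟪v m, x⟫ + ⟪v m, y⟫)
          + 4 * ⟪v m, x⟫ ^ 2 + 6 * ⟪v m, x⟫ * ⟪v m, y⟫ + 4 * ⟪v m, y⟫ ^ 2)) := by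
  simp only [S4, inner_add_right, ← Finset.sum_sub_distrib, ← Finset.sum_add_distrib]
  refine Finset.sum_congr rfl fun m _ => ?_
  ring

theorem S3_diff3 (u : ι → E d) (α : ι → ℝ) (a x y z : E d) :
    S3 u α (a + x + y + z) - S3 u α (a + x + y) - S3 u α (a + x + z) - S3 u α (a + y + z)
      + S3 u α (a + x) + S3 u α (a + y) + S3 u α (a + z) - S3 u α a
      = 6 * Tf u α x y z := by
  simp only [S3, Tf, inner_add_right, ← Finset.sum_sub_distrib, ← Finset.sum_add_distrib,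
    Finset.mul_sum]
  refine Finset.sum_congr rfl fun m _ => ?_
  ring

theorem S4_diff3 (v : κ → E d) (β : κ → ℝ) (a x y z : E d) :
    S4 v β (a + x + y + z) - S4 v β (a + x + y) - S4 v β (a + x + z) - S4 v β (a + y + z)
      + S4 v β (a + x) + S4 v β (a + y) + S4 v β (a + z) - S4 v β a
      = 24 * Qf v β (a + (1/2 : ℝ) • (x + y + z)) x y z := by
  simp only [S4, Qf, inner_add_right, inner_smul_right, ← Finset.sum_sub_distrib,
    ← Finset.sum_add_distrib, Finset.mul_sum]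
  refine Finset.sum_congr rfl fun m _ => ?_
  ring

theorem S4_diff4 (v : κ → E d) (β : κ → ℝ) (a x y z w : E d) :
    S4 v β (a + x + y + z + w) - S4 v β (a + x + y + z)
      - S4 v β (a + x + y + w) - S4 v β (a + x + z + w) - S4 v β (a + y + z + w)
      + S4 v β (a + x + y) + S4 v β (a + x + z) + S4 v β (a + y + z)
      + S4 v β (a + x + w) + S4 v β (a + y + w) + S4 v β (a + z + w)
      - S4 v β (a + x) - S4 v β (a + y) - S4 v β (a + z) - S4 v β (a + w) + S4 v β a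
      = 24 * Qf v β x y z w := by
  simp only [S4, Qf, inner_add_right, ← Finset.sum_sub_distrib,
    ← Finset.sum_add_distrib, Finset.mul_sum]
  refine Finset.sum_congr rfl fun m _ => ?_
  ring

theorem S3_diff4 (u : ι → E d) (α : ι → ℝ) (a x y z w : E d) :
    S3 u α (a + x + y + z + w) - S3 u α (a + x + y + z)
      - S3 u α (a + x + y + w) - S3 u α (a + x + z + w) - S3 u α (a + y + z + w)
      + S3 u α (a + x + y) + S3 u α (a + x + z) + S3 u α (a + y + z)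
      + S3 u α (a + x + w) + S3 u α (a + y + w) + S3 u α (a + z + w)
      - S3 u α (a + x) - S3 u α (a + y) - S3 u α (a + z) - S3 u α (a + w) + S3 u α a
      = 0 := by
  simp only [S3, inner_add_right, ← Finset.sum_sub_distrib, ← Finset.sum_add_distrib]
  rw [← Finset.sum_const_zero (s := (Finset.univ : Finset ι))]
  refine Finset.sum_congr rfl fun m _ => ?_
  ring

/-- The defining function. -/
noncomputable def ff' (u : ι → E d) (α : ι → ℝ) (v : κ → E d) (β : κ → ℝ) (ε : ℝ) (x : E d) : ℝ :=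
  ⟪x, x⟫ + ε * (S3 u α x + S4 v β x)

end Pool.Agent.Helper24
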