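import Mathlib
import Pool.Agent.Helper24.Core
import Pool.Agent.Helper24.Forms

open scoped RealInnerProductSpace
open Metric Filter Topology

namespace Pool.Agent.Helper24

/-- vectors of the cubic; coordinates are `(x, p, q, y)` -/
noncomputable def uB : Fin 9 → E 4 :=
  ![!₂[1, 1, 1, 0], !₂[1, 1, -1, 0], !₂[1, -1, 1, 0], !₂[-1, 1, 1, 0],
    !₂[0, 0, 1, 1], !₂[0, 0, -1, 1], !₂[0, 1, 0, 1], !₂[0, -1, 0, 1], !₂[1, 0, 0, 0]]

noncomputable def αB (δ : ℝ) : Fin 9 → ℝ :=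
  ![1/24, -1/24, -1/24, -1/24, δ/6, δ/6, -δ/6, -δ/6, -2*δ]

noncomputable def vB : Fin 10 → E 4 :=
  ![!₂[1, 0, 1, 0], !₂[1, 0, -1, 0], !₂[1, 1, 0, 0], !₂[1, -1, 0, 0],
    !₂[0, 0, 1, 0], !₂[0, 1, 0, 0], !₂[2, 0, 0, 1], !₂[2, 0, 0, -1], !₂[1, 0, 0, 1],
    !₂[1, 0, 0, -1]]

noncomputable def βB : Fin 10 → ℝ :=
  ![1/4, 1/4, -1/4, -1/4, -1/2, 1/2, -1/48, 1/48, 2/48, -2/48]

theorem Tf_base (δ : ℝ) (x p q y : Fin 4 → ℝ) (θ : Fin 4 → E 4) (hx : ∀ i, θ i 0 = x i)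
    (hp : ∀ i, θ i 1 = p i) (hq : ∀ i, θ i 2 = q i) (hy : ∀ i, θ i 3 = y i) (i j k : Fin 4) :
    Tf uB (αB δ) (θ i) (θ j) (θ k) = (1/6) * (ee x p q i j k + 2 * δ * ff x p q y i j k) := by
  simp only [Tf, uB, αB, Fin.sum_univ_succ, PiLp.inner_apply, ee, ff]
  simp
  simp [hx, hp, hq, hy]
  ring

theorem Qf_base (x p q y : Fin 4 → ℝ) (θ : Fin 4 → E 4) (hx : ∀ i, θ i 0 = x i)
    (hp : ∀ i, θ i 1 = p i) (hq : ∀ i, θ i 2 = q i) (hy : ∀ i, θ i 3 = y i) :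
    Qf vB βB (θ 0) (θ 1) (θ 2) (θ 3) = (1/4) *
      (2 * (x 0 * x 1 * (q 2 * q 3 - p 2 * p 3) + x 0 * x 2 * (q 1 * q 3 - p 1 * p 3)
        + x 0 * x 3 * (q 1 * q 2 - p 1 * p 2) + x 1 * x 2 * (q 0 * q 3 - p 0 * p 3)
        + x 1 * x 3 * (q 0 * q 2 - p 0 * p 2) + x 2 * x 3 * (q 0 * q 1 - p 0 * p 1))
      - (y 0 * x 1 * x 2 * x 3 + x 0 * y 1 * x 2 * x 3 + x 0 * x 1 * y 2 * x 3
        + x 0 * x 1 * x 2 * y 3)) := by
  simp only [Qf, vB, βB, Fin.sum_univ_succ, PiLp.inner_apply]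
  simp
  simp [hx, hp, hq, hy]
  ring

/-- the syzygy -/
theorem syz (x p q : Fin 4 → ℝ)
    (xx : x 0 ^ 2 + x 1 ^ 2 + x 2 ^ 2 + x 3 ^ 2 = 1)
    (xp : x 0 * p 0 + x 1 * p 1 + x 2 * p 2 + x 3 * p 3 = 0)
    (xq : x 0 * q 0 + x 1 * q 1 + x 2 * q 2 + x 3 * q 3 = 0)
    (pq : p 0 * q 0 + p 1 * q 1 + p 2 * q 2 + p 3 * q 3 = 0) :
    (1/2 - x 0 ^ 2) * x 0 * ee x p q 1 2 3 + (1/2 - x 1 ^ 2) * x 1 * ee x p q 0 2 3
    + (1/2 - x 2 ^ 2) * x 2 * ee x p q 0 1 3 + (1/2 - x 3 ^ 2) * x 3 * ee x p q 0 1 2 = 0 := by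
  simp only [ee]
  linear_combination
    (x 1 * x 2 * x 3 * p 0 + x 0 * x 2 * x 3 * p 1 + x 0 * x 1 * x 3 * p 2
      + x 0 * x 1 * x 2 * p 3) * xq
    + (x 1 * x 2 * x 3 * q 0 + x 0 * x 2 * x 3 * q 1 + x 0 * x 1 * x 3 * q 2
      + x 0 * x 1 * x 2 * q 3) * xp
    - 2 * (x 0 * x 1 * x 2 * x 3) * pq
    - ((p 0 * q 1 + p 1 * q 0) * x 2 * x 3 + (p 0 * q 2 + p 2 * q 0) * x 1 * x 3
      + (p 0 * q 3 + p 3 * q 0) * x 1 * x 2 + (p 1 * q 2 + p 2 * q 1) * x 0 * x 3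
      + (p 1 * q 3 + p 3 * q 1) * x 0 * x 2 + (p 2 * q 3 + p 3 * q 2) * x 0 * x 1) * xx

/-- conditions at finite `δ` -/
structure Pre (δ : ℝ) (x p q y : Fin 4 → ℝ) : Prop where
  xx : x 0 ^ 2 + x 1 ^ 2 + x 2 ^ 2 + x 3 ^ 2 = 1
  pp : p 0 ^ 2 + p 1 ^ 2 + p 2 ^ 2 + p 3 ^ 2 = 1
  qq : q 0 ^ 2 + q 1 ^ 2 + q 2 ^ 2 + q 3 ^ 2 = 1
  yy : y 0 ^ 2 + y 1 ^ 2 + y 2 ^ 2 + y 3 ^ 2 = 1
  xp : x 0 * p 0 + x 1 * p 1 + x 2 * p 2 + x 3 * p 3 = 0
  xq : x 0 * q 0 + x 1 * q 1 + x 2 * q 2 + x 3 * q 3 = 0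
  xy : x 0 * y 0 + x 1 * y 1 + x 2 * y 2 + x 3 * y 3 = 0
  pq : p 0 * q 0 + p 1 * q 1 + p 2 * q 2 + p 3 * q 3 = 0
  py : p 0 * y 0 + p 1 * y 1 + p 2 * y 2 + p 3 * y 3 = 0
  qy : q 0 * y 0 + q 1 * y 1 + q 2 * y 2 + q 3 * y 3 = 0
  c : ∀ i j, x i * x j + p i * p j + q i * q j + y i * y j = if i = j then 1 else 0
  e : ∀ i j k, i ≠ j → i ≠ k → j ≠ k → ee x p q i j k + 2 * δ * ff x p q y i j k = 0
  hQ : 2 * (x 0 * x 1 * (q 2 * q 3 - p 2 * p 3) + x 0 * x 2 * (q 1 * q 3 - p 1 * p 3)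
        + x 0 * x 3 * (q 1 * q 2 - p 1 * p 2) + x 1 * x 2 * (q 0 * q 3 - p 0 * p 3)
        + x 1 * x 3 * (q 0 * q 2 - p 0 * p 2) + x 2 * x 3 * (q 0 * q 1 - p 0 * p 1))
      = y 0 * x 1 * x 2 * x 3 + x 0 * y 1 * x 2 * x 3 + x 0 * x 1 * y 2 * x 3
        + x 0 * x 1 * x 2 * y 3

theorem Pre.hx {δ : ℝ} {x p q y : Fin 4 → ℝ} (hδ : δ ≠ 0) (h : Pre δ x p q y) :
    (1/2 - x 0 ^ 2) * x 0 * ff x p q y 1 2 3 + (1/2 - x 1 ^ 2) * x 1 * ff x p q y 0 2 3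
    + (1/2 - x 2 ^ 2) * x 2 * ff x p q y 0 1 3 + (1/2 - x 3 ^ 2) * x 3 * ff x p q y 0 1 2 = 0 := by
  have s := syz x p q h.xx h.xp h.xq h.pq
  have e0 := h.e 1 2 3 (by decide) (by decide) (by decide)
  have e1 := h.e 0 2 3 (by decide) (by decide) (by decide)
  have e2 := h.e 0 1 3 (by decide) (by decide) (by decide)
  have e3 := h.e 0 1 2 (by decide) (by decide) (by decide)
  have h2 : (2 * δ) ≠ 0 := mul_ne_zero two_ne_zero hδ
  apply mul_left_cancel₀ h2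
  linear_combination (1/2 - x 0 ^ 2) * x 0 * e0 + (1/2 - x 1 ^ 2) * x 1 * e1
    + (1/2 - x 2 ^ 2) * x 2 * e2 + (1/2 - x 3 ^ 2) * x 3 * e3 - s

theorem Pre.hp {δ : ℝ} {x p q y : Fin 4 → ℝ} (hδ : δ ≠ 0) (h : Pre δ x p q y) :
    (1/2 - p 0 ^ 2) * p 0 * ff x p q y 1 2 3 + (1/2 - p 1 ^ 2) * p 1 * ff x p q y 0 2 3
    + (1/2 - p 2 ^ 2) * p 2 * ff x p q y 0 1 3 + (1/2 - p 3 ^ 2) * p 3 * ff x p q y 0 1 2 = 0 := by
  have s := syz p x q h.pp (by linear_combination h.xp) h.pq h.xq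
  have e0 := h.e 1 2 3 (by decide) (by decide) (by decide)
  have e1 := h.e 0 2 3 (by decide) (by decide) (by decide)
  have e2 := h.e 0 1 3 (by decide) (by decide) (by decide)
  have e3 := h.e 0 1 2 (by decide) (by decide) (by decide)
  have hs : ∀ i j k, ee p x q i j k = ee x p q i j k := fun i j k => by simp only [ee]; ring
  simp only [hs] at s
  have h2 : (2 * δ) ≠ 0 := mul_ne_zero two_ne_zero hδ
  apply mul_left_cancel₀ h2
  linear_combination (1/2 - p 0 ^ 2) * p 0 * e0 + (1/2 - p 1 ^ 2) * p 1 * e1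
    + (1/2 - p 2 ^ 2) * p 2 * e2 + (1/2 - p 3 ^ 2) * p 3 * e3 - s

theorem Pre.hq {δ : ℝ} {x p q y : Fin 4 → ℝ} (hδ : δ ≠ 0) (h : Pre δ x p q y) :
    (1/2 - q 0 ^ 2) * q 0 * ff x p q y 1 2 3 + (1/2 - q 1 ^ 2) * q 1 * ff x p q y 0 2 3
    + (1/2 - q 2 ^ 2) * q 2 * ff x p q y 0 1 3 + (1/2 - q 3 ^ 2) * q 3 * ff x p q y 0 1 2 = 0 := by
  have s := syz q x p h.qq (by linear_combination h.xq) (by linear_combination h.pq) h.xp
  have e0 := h.e 1 2 3 (by decide) (by decide) (by decide)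
  have e1 := h.e 0 2 3 (by decide) (by decide) (by decide)
  have e2 := h.e 0 1 3 (by decide) (by decide) (by decide)
  have e3 := h.e 0 1 2 (by decide) (by decide) (by decide)
  have hs : ∀ i j k, ee q x p i j k = ee x p q i j k := fun i j k => by simp only [ee]; ring
  simp only [hs] at s
  have h2 : (2 * δ) ≠ 0 := mul_ne_zero two_ne_zero hδ
  apply mul_left_cancel₀ h2
  linear_combination (1/2 - q 0 ^ 2) * q 0 * e0 + (1/2 - q 1 ^ 2) * q 1 * e1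
    + (1/2 - q 2 ^ 2) * q 2 * e2 + (1/2 - q 3 ^ 2) * q 3 * e3 - s

/-- limit of a sequence of zeros -/
theorem lim0 {M : ℕ → Fin 4 → Fin 4 → ℝ} {L : Fin 4 → Fin 4 → ℝ} (hM : Tendsto M atTop (𝓝 L))
    (Φ : (Fin 4 → Fin 4 → ℝ) → ℝ) (hΦ : Continuous Φ) (h : ∀ n, Φ (M n) = 0) : Φ L = 0 := by
  have h1 : Tendsto (fun n => Φ (M n)) atTop (𝓝 (Φ L)) := (hΦ.tendsto L).comp hM
  simp only [h] at h1
  exact tendsto_nhds_unique h1 tendsto_const_nhds

theorem lim1 {M : ℕ → Fin 4 → Fin 4 → ℝ} {L : Fin 4 → Fin 4 → ℝ} (hM : Tendsto M atTop (𝓝 L))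
    {δ : ℕ → ℝ} (hδ : Tendsto δ atTop (𝓝 0))
    (Φ Ψ : (Fin 4 → Fin 4 → ℝ) → ℝ) (hΦ : Continuous Φ) (hΨ : Continuous Ψ)
    (h : ∀ n, Φ (M n) + 2 * δ n * Ψ (M n) = 0) : Φ L = 0 := by
  have h1 : Tendsto (fun n => Φ (M n) + 2 * δ n * Ψ (M n)) atTop (𝓝 (Φ L + 2 * 0 * Ψ L)) :=
    ((hΦ.tendsto L).comp hM).add ((tendsto_const_nhds.mul hδ).mul ((hΨ.tendsto L).comp hM))
  simp only [h] at h1
  have := tendsto_nhds_unique h1 tendsto_const_nhds
  linarith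

theorem limit_core {M : ℕ → Fin 4 → Fin 4 → ℝ} {L : Fin 4 → Fin 4 → ℝ}
    (hM : Tendsto M atTop (𝓝 L)) {δ : ℕ → ℝ} (hδ : Tendsto δ atTop (𝓝 0)) (hδ0 : ∀ n, δ n ≠ 0)
    (h : ∀ n, Pre (δ n) (fun i => M n i 0) (fun i => M n i 1) (fun i => M n i 2)
      (fun i => M n i 3)) : False := by
  apply core (x := fun i => L i 0) (p := fun i => L i 1) (q := fun i => L i 2)
    (y := fun i => L i 3)
  constructor
  · have := lim0 hM (fun M => M 0 0 ^ 2 + M 1 0 ^ 2 + M 2 0 ^ 2 + M 3 0 ^ 2 - 1) (by fun_prop)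
      (fun n => by have := (h n).xx; linarith)
    linarith
  · have := lim0 hM (fun M => M 0 1 ^ 2 + M 1 1 ^ 2 + M 2 1 ^ 2 + M 3 1 ^ 2 - 1) (by fun_prop)
      (fun n => by have := (h n).pp; linarith)
    linarith
  · have := lim0 hM (fun M => M 0 2 ^ 2 + M 1 2 ^ 2 + M 2 2 ^ 2 + M 3 2 ^ 2 - 1) (by fun_prop)
      (fun n => by have := (h n).qq; linarith)
    linarith
  · have := lim0 hM (fun M => M 0 3 ^ 2 + M 1 3 ^ 2 + M 2 3 ^ 2 + M 3 3 ^ 2 - 1) (by fun_prop)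
      (fun n => by have := (h n).yy; linarith)
    linarith
  · exact lim0 hM (fun M => M 0 0 * M 0 1 + M 1 0 * M 1 1 + M 2 0 * M 2 1 + M 3 0 * M 3 1)
      (by fun_prop) (fun n => (h n).xp)
  · exact lim0 hM (fun M => M 0 0 * M 0 2 + M 1 0 * M 1 2 + M 2 0 * M 2 2 + M 3 0 * M 3 2)
      (by fun_prop) (fun n => (h n).xq)
  · exact lim0 hM (fun M => M 0 0 * M 0 3 + M 1 0 * M 1 3 + M 2 0 * M 2 3 + M 3 0 * M 3 3)
      (by fun_prop) (fun n => (h n).xy)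
  · exact lim0 hM (fun M => M 0 1 * M 0 2 + M 1 1 * M 1 2 + M 2 1 * M 2 2 + M 3 1 * M 3 2)
      (by fun_prop) (fun n => (h n).pq)
  · exact lim0 hM (fun M => M 0 1 * M 0 3 + M 1 1 * M 1 3 + M 2 1 * M 2 3 + M 3 1 * M 3 3)
      (by fun_prop) (fun n => (h n).py)
  · exact lim0 hM (fun M => M 0 2 * M 0 3 + M 1 2 * M 1 3 + M 2 2 * M 2 3 + M 3 2 * M 3 3)
      (by fun_prop) (fun n => (h n).qy)
  · intro i j
    have := lim0 hM (fun M => M i 0 * M j 0 + M i 1 * M j 1 + M i 2 * M j 2 + M i 3 * M j 3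
      - (if i = j then 1 else 0)) (by fun_prop)
      (fun n => by have := (h n).c i j; linarith)
    linarith
  · exact lim1 hM hδ (fun M => ee (fun i => M i 0) (fun i => M i 1) (fun i => M i 2) 1 2 3)
      (fun M => ff (fun i => M i 0) (fun i => M i 1) (fun i => M i 2) (fun i => M i 3) 1 2 3)
      (by simp only [ee]; fun_prop) (by simp only [ff]; fun_prop)
      (fun n => (h n).e 1 2 3 (by decide) (by decide) (by decide))
  · exact lim1 hM hδ (fun M => ee (fun i => M i 0) (fun i => M i 1) (fun i => M i 2) 0 2 3)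
      (fun M => ff (fun i => M i 0) (fun i => M i 1) (fun i => M i 2) (fun i => M i 3) 0 2 3)
      (by simp only [ee]; fun_prop) (by simp only [ff]; fun_prop)
      (fun n => (h n).e 0 2 3 (by decide) (by decide) (by decide))
  · exact lim1 hM hδ (fun M => ee (fun i => M i 0) (fun i => M i 1) (fun i => M i 2) 0 1 3)
      (fun M => ff (fun i => M i 0) (fun i => M i 1) (fun i => M i 2) (fun i => M i 3) 0 1 3)
      (by simp only [ee]; fun_prop) (by simp only [ff]; fun_prop)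
      (fun n => (h n).e 0 1 3 (by decide) (by decide) (by decide))
  · exact lim1 hM hδ (fun M => ee (fun i => M i 0) (fun i => M i 1) (fun i => M i 2) 0 1 2)
      (fun M => ff (fun i => M i 0) (fun i => M i 1) (fun i => M i 2) (fun i => M i 3) 0 1 2)
      (by simp only [ee]; fun_prop) (by simp only [ff]; fun_prop)
      (fun n => (h n).e 0 1 2 (by decide) (by decide) (by decide))
  · exact lim0 hM (fun M => (1/2 - M 0 0 ^ 2) * M 0 0 * ff (fun i => M i 0) (fun i => M i 1)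
        (fun i => M i 2) (fun i => M i 3) 1 2 3
      + (1/2 - M 1 0 ^ 2) * M 1 0 * ff (fun i => M i 0) (fun i => M i 1)
        (fun i => M i 2) (fun i => M i 3) 0 2 3
      + (1/2 - M 2 0 ^ 2) * M 2 0 * ff (fun i => M i 0) (fun i => M i 1)
        (fun i => M i 2) (fun i => M i 3) 0 1 3
      + (1/2 - M 3 0 ^ 2) * M 3 0 * ff (fun i => M i 0) (fun i => M i 1)
        (fun i => M i 2) (fun i => M i 3) 0 1 2) (by simp only [ff]; fun_prop)
      (fun n => (h n).hx (hδ0 n))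
  · exact lim0 hM (fun M => (1/2 - M 0 1 ^ 2) * M 0 1 * ff (fun i => M i 0) (fun i => M i 1)
        (fun i => M i 2) (fun i => M i 3) 1 2 3
      + (1/2 - M 1 1 ^ 2) * M 1 1 * ff (fun i => M i 0) (fun i => M i 1)
        (fun i => M i 2) (fun i => M i 3) 0 2 3
      + (1/2 - M 2 1 ^ 2) * M 2 1 * ff (fun i => M i 0) (fun i => M i 1)
        (fun i => M i 2) (fun i => M i 3) 0 1 3
      + (1/2 - M 3 1 ^ 2) * M 3 1 * ff (fun i => M i 0) (fun i => M i 1)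
        (fun i => M i 2) (fun i => M i 3) 0 1 2) (by simp only [ff]; fun_prop)
      (fun n => (h n).hp (hδ0 n))
  · exact lim0 hM (fun M => (1/2 - M 0 2 ^ 2) * M 0 2 * ff (fun i => M i 0) (fun i => M i 1)
        (fun i => M i 2) (fun i => M i 3) 1 2 3
      + (1/2 - M 1 2 ^ 2) * M 1 2 * ff (fun i => M i 0) (fun i => M i 1)
        (fun i => M i 2) (fun i => M i 3) 0 2 3
      + (1/2 - M 2 2 ^ 2) * M 2 2 * ff (fun i => M i 0) (fun i => M i 1)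
        (fun i => M i 2) (fun i => M i 3) 0 1 3
      + (1/2 - M 3 2 ^ 2) * M 3 2 * ff (fun i => M i 0) (fun i => M i 1)
        (fun i => M i 2) (fun i => M i 3) 0 1 2) (by simp only [ff]; fun_prop)
      (fun n => (h n).hq (hδ0 n))
  · have := lim0 hM (fun M => 2 * (M 0 0 * M 1 0 * (M 2 2 * M 3 2 - M 2 1 * M 3 1)
        + M 0 0 * M 2 0 * (M 1 2 * M 3 2 - M 1 1 * M 3 1)
        + M 0 0 * M 3 0 * (M 1 2 * M 2 2 - M 1 1 * M 2 1)
        + M 1 0 * M 2 0 * (M 0 2 * M 3 2 - M 0 1 * M 3 1)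
        + M 1 0 * M 3 0 * (M 0 2 * M 2 2 - M 0 1 * M 2 1)
        + M 2 0 * M 3 0 * (M 0 2 * M 1 2 - M 0 1 * M 1 1))
      - (M 0 3 * M 1 0 * M 2 0 * M 3 0 + M 0 0 * M 1 3 * M 2 0 * M 3 0
        + M 0 0 * M 1 0 * M 2 3 * M 3 0 + M 0 0 * M 1 0 * M 2 0 * M 3 3)) (by fun_prop)
      (fun n => by have := (h n).hQ; linarith)
    linarith

theorem orth_rows {θ : Fin 4 → E 4} (h : Orthonormal ℝ θ) (i j : Fin 4) :
    θ i 0 * θ j 0 + θ i 1 * θ j 1 + θ i 2 * θ j 2 + θ i 3 * θ j 3 = if i = j then 1 else 0 := by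
  have := (orthonormal_iff_ite.1 h) i j
  rw [PiLp.inner_apply] at this
  simp only [Fin.sum_univ_four, RCLike.inner_apply, conj_trivial] at this
  rw [← this]
  ring

theorem orth_cols {θ : Fin 4 → E 4} (h : Orthonormal ℝ θ) (i j : Fin 4) :
    θ 0 i * θ 0 j + θ 1 i * θ 1 j + θ 2 i * θ 2 j + θ 3 i * θ 3 j = if i = j then 1 else 0 := by
  let A : Matrix (Fin 4) (Fin 4) ℝ := Matrix.of fun a b => θ a b
  have h1 : A * A.transpose = 1 := by
    ext a b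
    rw [Matrix.mul_apply, Matrix.one_apply, Fin.sum_univ_four]
    simpa [A] using orth_rows h a b
  have h2 : A.transpose * A = 1 := mul_eq_one_comm.1 h1
  have h3 := congrFun (congrFun h2 i) j
  rw [Matrix.mul_apply, Matrix.one_apply, Fin.sum_univ_four] at h3
  simpa [A] using h3

theorem pre_of_frame {δ : ℝ} {θ : Fin 4 → E 4} (h : Orthonormal ℝ θ)
    (hT : ∀ i j k, i ≠ j → i ≠ k → j ≠ k → Tf uB (αB δ) (θ i) (θ j) (θ k) = 0)
    (hQ : ∀ i j k l, i ≠ j → i ≠ k → i ≠ l → j ≠ k → j ≠ l → k ≠ l →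
      Qf vB βB (θ i) (θ j) (θ k) (θ l) = 0) :
    Pre δ (fun i => θ i 0) (fun i => θ i 1) (fun i => θ i 2) (fun i => θ i 3) := by
  have c := orth_cols h
  have r := orth_rows h
  constructor
  · have := c 0 0; simp only [if_true] at this; linear_combination this
  · have := c 1 1; simp only [if_true] at this; linear_combination this
  · have := c 2 2; simp only [if_true] at this; linear_combination this
  · have := c 3 3; simp only [if_true] at this; linear_combination this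
  · have := c 0 1; rw [if_neg (by decide)] at this; linear_combination this
  · have := c 0 2; rw [if_neg (by decide)] at this; linear_combination this
  · have := c 0 3; rw [if_neg (by decide)] at this; linear_combination this
  · have := c 1 2; rw [if_neg (by decide)] at this; linear_combination this
  · have := c 1 3; rw [if_neg (by decide)] at this; linear_combination this
  · have := c 2 3; rw [if_neg (by decide)] at this; linear_combination this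
  · exact r
  · intro i j k h1 h2 h3
    have := hT i j k h1 h2 h3
    rw [Tf_base δ (fun i => θ i 0) (fun i => θ i 1) (fun i => θ i 2) (fun i => θ i 3) θ
      (fun _ => rfl) (fun _ => rfl) (fun _ => rfl) (fun _ => rfl)] at this
    linarith
  · have := hQ 0 1 2 3 (by decide) (by decide) (by decide) (by decide) (by decide) (by decide)
    rw [Qf_base (fun i => θ i 0) (fun i => θ i 1) (fun i => θ i 2) (fun i => θ i 3) θ
      (fun _ => rfl) (fun _ => rfl) (fun _ => rfl) (fun _ => rfl)] at this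
    linarith

theorem base_good : ∃ δ : ℝ, Good uB (αB δ) vB βB := by
  by_contra hne
  push Not at hne
  have h1 : ∀ n : ℕ, ∃ θ : Fin 4 → E 4,
      Pre (1 / ((n : ℝ) + 1)) (fun i => θ i 0) (fun i => θ i 1) (fun i => θ i 2)
        (fun i => θ i 3) := by
    intro n
    have := hne (1 / ((n : ℝ) + 1))
    unfold Good at this
    push Not at this
    obtain ⟨θ, ho, hT, hQ, -⟩ := this
    exact ⟨θ, pre_of_frame ho hT hQ⟩
  choose θ hθ using h1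
  let M : ℕ → Fin 4 → Fin 4 → ℝ := fun n i c => θ n i c
  have hM : ∀ n, M n ∈ Set.pi Set.univ (fun _ : Fin 4 => Set.pi Set.univ
      (fun _ : Fin 4 => Set.Icc (-1 : ℝ) 1)) := by
    intro n i _ c _
    have h := (hθ n).c i i
    simp only [if_true] at h
    have hs : (θ n i c) ^ 2 ≤ 1 := by
      fin_cases c
      · simp only [Fin.zero_eta, Fin.mk_one, Fin.reduceFinMk]
        nlinarith [sq_nonneg (θ n i 1), sq_nonneg (θ n i 2), sq_nonneg (θ n i 3)]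
      · simp only [Fin.zero_eta, Fin.mk_one, Fin.reduceFinMk]
        nlinarith [sq_nonneg (θ n i 0), sq_nonneg (θ n i 2), sq_nonneg (θ n i 3)]
      · simp only [Fin.zero_eta, Fin.mk_one, Fin.reduceFinMk]
        nlinarith [sq_nonneg (θ n i 0), sq_nonneg (θ n i 1), sq_nonneg (θ n i 3)]
      · simp only [Fin.zero_eta, Fin.mk_one, Fin.reduceFinMk]
        nlinarith [sq_nonneg (θ n i 0), sq_nonneg (θ n i 1), sq_nonneg (θ n i 2)]
    exact abs_le.1 (sq_le_one_iff_abs_le_one _ |>.1 hs)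
  have hcomp : IsCompact (Set.pi Set.univ (fun _ : Fin 4 => Set.pi Set.univ
      (fun _ : Fin 4 => Set.Icc (-1 : ℝ) 1))) :=
    isCompact_univ_pi fun _ => isCompact_univ_pi fun _ => isCompact_Icc
  obtain ⟨L, -, φ, hφ, hL⟩ := hcomp.tendsto_subseq hM
  have hδ : Tendsto (fun n : ℕ => 1 / ((φ n : ℝ) + 1)) atTop (𝓝 0) :=
    (tendsto_one_div_add_atTop_nhds_zero_nat (𝕜 := ℝ)).comp hφ.tendsto_atTop
  exact limit_core (M := fun n => M (φ n)) (L := L) hL hδ (fun n => by positivity)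
    (fun n => hθ (φ n))

end Pool.Agent.Helper24
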