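import Mathlib
import Pool.Agent.Helper24.Forms

open scoped RealInnerProductSpace
open Metric Filter Topology

namespace Pool.Agent.Helper24

variable {d : ℕ} {ι κ : Type} [Fintype ι] [Fintype κ]

theorem continuous_S3 (u : ι → E d) (α : ι → ℝ) : Continuous (S3 u α) := by
  unfold S3
  fun_prop

theorem continuous_S4 (v : κ → E d) (β : κ → ℝ) : Continuous (S4 v β) := by
  unfold S4
  fun_prop

theorem continuous_ff' (u : ι → E d) (α : ι → ℝ) (v : κ → E d) (β : κ → ℝ) (ε : ℝ) :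
    Continuous (ff' u α v β ε) := by
  have h1 := continuous_S3 u α
  have h2 := continuous_S4 v β
  unfold ff'
  fun_prop

/-- convexity defect of the cubic -/
theorem cubic_defect (a b s s' U : ℝ) (ha : 0 ≤ a) (hb : 0 ≤ b) (hab : a + b = 1)
    (hs : |s| ≤ 2 * U) (hs' : |s'| ≤ 2 * U) :
    |a * s ^ 3 + b * s' ^ 3 - (a * s + b * s') ^ 3| ≤ a * b * (s - s') ^ 2 * (6 * U) := by
  have hb' : b = 1 - a := by linarith
  have e : a * s ^ 3 + b * s' ^ 3 - (a * s + b * s') ^ 3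
      = a * b * (s - s') ^ 2 * (s * (1 + a) + s' * (1 + b)) := by
    rw [hb']; ring
  rw [e, abs_mul]
  have h1 : |a * b * (s - s') ^ 2| = a * b * (s - s') ^ 2 := abs_of_nonneg (by positivity)
  rw [h1]
  apply mul_le_mul_of_nonneg_left _ (by positivity)
  calc |s * (1 + a) + s' * (1 + b)| ≤ |s * (1 + a)| + |s' * (1 + b)| := abs_add_le _ _
    _ = |s| * (1 + a) + |s'| * (1 + b) := by
        rw [abs_mul, abs_mul, abs_of_nonneg (by linarith : (0:ℝ) ≤ 1 + a),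
          abs_of_nonneg (by linarith : (0:ℝ) ≤ 1 + b)]
    _ ≤ (2 * U) * (1 + a) + (2 * U) * (1 + b) := by
        apply add_le_add
        · exact mul_le_mul_of_nonneg_right hs (by linarith)
        · exact mul_le_mul_of_nonneg_right hs' (by linarith)
    _ = 6 * U := by rw [hb']; ring

theorem quartic_defect (a b s s' U : ℝ) (ha : 0 ≤ a) (hb : 0 ≤ b) (hab : a + b = 1)
    (hs : |s| ≤ 2 * U) (hs' : |s'| ≤ 2 * U) :
    |a * s ^ 4 + b * s' ^ 4 - (a * s + b * s') ^ 4| ≤ a * b * (s - s') ^ 2 * (200 * U ^ 2) := by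
  have hb' : b = 1 - a := by linarith
  have e : a * s ^ 4 + b * s' ^ 4 - (a * s + b * s') ^ 4
      = a * b * (s - s') ^ 2 * (6 * s' ^ 2 + 4 * s' * (s - s') * (1 + a)
        + (s - s') ^ 2 * (1 + a + a ^ 2)) := by
    rw [hb']; ring
  have hU : 0 ≤ U := by
    have := abs_nonneg s
    linarith
  rw [e, abs_mul]
  have h1 : |a * b * (s - s') ^ 2| = a * b * (s - s') ^ 2 := abs_of_nonneg (by positivity)
  rw [h1]
  apply mul_le_mul_of_nonneg_left _ (by positivity)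
  have ha1 : a ≤ 1 := by linarith
  have k1 : s' ^ 2 ≤ (2 * U) ^ 2 := sq_le_sq' (by linarith [abs_le.mp hs']) (abs_le.mp hs').2
  have k2 : |s - s'| ≤ 4 * U := by
    calc |s - s'| ≤ |s| + |s'| := abs_sub _ _
      _ ≤ 4 * U := by linarith
  have k3 : (s - s') ^ 2 ≤ (4 * U) ^ 2 := by
    rw [← sq_abs]
    exact pow_le_pow_left₀ (abs_nonneg _) k2 2
  have k4 : |s' * (s - s')| ≤ (2 * U) * (4 * U) := by
    rw [abs_mul]
    exact mul_le_mul hs' k2 (abs_nonneg _) (by linarith)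
  have k5 : |4 * s' * (s - s') * (1 + a)| ≤ 4 * ((2 * U) * (4 * U)) * 2 := by
    have : 4 * s' * (s - s') * (1 + a) = (s' * (s - s')) * (4 * (1 + a)) := by ring
    rw [this, abs_mul, abs_of_nonneg (by linarith : (0:ℝ) ≤ 4 * (1 + a))]
    have : 4 * ((2 * U) * (4 * U)) * 2 = ((2 * U) * (4 * U)) * (4 * 2) := by ring
    rw [this]
    apply mul_le_mul k4 (by linarith) (by linarith) (by positivity)
  have k6 : (s - s') ^ 2 * (1 + a + a ^ 2) ≤ (4 * U) ^ 2 * 3 := by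
    apply mul_le_mul k3 (by nlinarith) (by positivity) (by positivity)
  rw [abs_le]
  have := abs_le.mp k5
  constructor
  · nlinarith [sq_nonneg s', sq_nonneg (s - s'), mul_nonneg (sq_nonneg (s - s')) (by positivity : (0:ℝ) ≤ 1 + a + a ^ 2)]
  · nlinarith [sq_nonneg s', sq_nonneg (s - s')]

theorem inner_bound {x : E d} (u : E d) (hx : x ∈ closedBall (0 : E d) 2) : |⟪u, x⟫| ≤ 2 * ‖u‖ := by
  have h1 := abs_real_inner_le_norm u x
  have h2 : ‖x‖ ≤ 2 := by simpa using hx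
  calc |⟪u, x⟫| ≤ ‖u‖ * ‖x‖ := h1
    _ ≤ ‖u‖ * 2 := mul_le_mul_of_nonneg_left h2 (norm_nonneg _)
    _ = 2 * ‖u‖ := by ring

theorem S3_defect (u : ι → E d) (α : ι → ℝ) {x y : E d} (hx : x ∈ closedBall (0 : E d) 2)
    (hy : y ∈ closedBall (0 : E d) 2) {a b : ℝ} (ha : 0 ≤ a) (hb : 0 ≤ b) (hab : a + b = 1) :
    |a * S3 u α x + b * S3 u α y - S3 u α (a • x + b • y)|
      ≤ a * b * ‖x - y‖ ^ 2 * ∑ m, |α m| * (6 * ‖u m‖ * ‖u m‖ ^ 2) := by
  have e : a * S3 u α x + b * S3 u α y - S3 u α (a • x + b • y)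
      = ∑ m, α m * (a * ⟪u m, x⟫ ^ 3 + b * ⟪u m, y⟫ ^ 3 - (a * ⟪u m, x⟫ + b * ⟪u m, y⟫) ^ 3) := by
    simp only [S3, inner_add_right, inner_smul_right, Finset.mul_sum, ← Finset.sum_add_distrib,
      ← Finset.sum_sub_distrib]
    refine Finset.sum_congr rfl fun m _ => ?_
    ring
  rw [e, Finset.mul_sum]
  refine (Finset.abs_sum_le_sum_abs _ _).trans (Finset.sum_le_sum fun m _ => ?_)
  rw [abs_mul]
  have h1 := cubic_defect a b ⟪u m, x⟫ ⟪u m, y⟫ ‖u m‖ ha hb hab (inner_bound (u m) hx)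
    (inner_bound (u m) hy)
  have h2 : (⟪u m, x⟫ - ⟪u m, y⟫) ^ 2 ≤ ‖u m‖ ^ 2 * ‖x - y‖ ^ 2 := by
    rw [← inner_sub_right, ← mul_pow, ← sq_abs]
    exact pow_le_pow_left₀ (abs_nonneg _) (abs_real_inner_le_norm _ _) 2
  calc |α m| * |a * ⟪u m, x⟫ ^ 3 + b * ⟪u m, y⟫ ^ 3 - (a * ⟪u m, x⟫ + b * ⟪u m, y⟫) ^ 3|
      ≤ |α m| * (a * b * (⟪u m, x⟫ - ⟪u m, y⟫) ^ 2 * (6 * ‖u m‖)) :=
        mul_le_mul_of_nonneg_left h1 (abs_nonneg _)
    _ ≤ |α m| * (a * b * (‖u m‖ ^ 2 * ‖x - y‖ ^ 2) * (6 * ‖u m‖)) := by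
        gcongr
    _ = a * b * ‖x - y‖ ^ 2 * (|α m| * (6 * ‖u m‖ * ‖u m‖ ^ 2)) := by ring

theorem S4_defect (v : κ → E d) (β : κ → ℝ) {x y : E d} (hx : x ∈ closedBall (0 : E d) 2)
    (hy : y ∈ closedBall (0 : E d) 2) {a b : ℝ} (ha : 0 ≤ a) (hb : 0 ≤ b) (hab : a + b = 1) :
    |a * S4 v β x + b * S4 v β y - S4 v β (a • x + b • y)|
      ≤ a * b * ‖x - y‖ ^ 2 * ∑ m, |β m| * (200 * ‖v m‖ ^ 2 * ‖v m‖ ^ 2) := by
  have e : a * S4 v β x + b * S4 v β y - S4 v β (a • x + b • y)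
      = ∑ m, β m * (a * ⟪v m, x⟫ ^ 4 + b * ⟪v m, y⟫ ^ 4 - (a * ⟪v m, x⟫ + b * ⟪v m, y⟫) ^ 4) := by
    simp only [S4, inner_add_right, inner_smul_right, Finset.mul_sum, ← Finset.sum_add_distrib,
      ← Finset.sum_sub_distrib]
    refine Finset.sum_congr rfl fun m _ => ?_
    ring
  rw [e, Finset.mul_sum]
  refine (Finset.abs_sum_le_sum_abs _ _).trans (Finset.sum_le_sum fun m _ => ?_)
  rw [abs_mul]
  have h1 := quartic_defect a b ⟪v m, x⟫ ⟪v m, y⟫ ‖v m‖ ha hb hab (inner_bound (v m) hx)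
    (inner_bound (v m) hy)
  have h2 : (⟪v m, x⟫ - ⟪v m, y⟫) ^ 2 ≤ ‖v m‖ ^ 2 * ‖x - y‖ ^ 2 := by
    rw [← inner_sub_right, ← mul_pow, ← sq_abs]
    exact pow_le_pow_left₀ (abs_nonneg _) (abs_real_inner_le_norm _ _) 2
  calc |β m| * |a * ⟪v m, x⟫ ^ 4 + b * ⟪v m, y⟫ ^ 4 - (a * ⟪v m, x⟫ + b * ⟪v m, y⟫) ^ 4|
      ≤ |β m| * (a * b * (⟪v m, x⟫ - ⟪v m, y⟫) ^ 2 * (200 * ‖v m‖ ^ 2)) :=
        mul_le_mul_of_nonneg_left h1 (abs_nonneg _)
    _ ≤ |β m| * (a * b * (‖v m‖ ^ 2 * ‖x - y‖ ^ 2) * (200 * ‖v m‖ ^ 2)) := by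
        gcongr
    _ = a * b * ‖x - y‖ ^ 2 * (|β m| * (200 * ‖v m‖ ^ 2 * ‖v m‖ ^ 2)) := by ring

theorem exists_eps (u : ι → E d) (α : ι → ℝ) (v : κ → E d) (β : κ → ℝ) :
    ∃ ε0 : ℝ, 0 < ε0 ∧ ∀ ε, 0 ≤ ε → ε ≤ ε0 →
      ConvexOn ℝ (closedBall (0 : E d) 2) (ff' u α v β ε) ∧
      ∀ x ∈ closedBall (0 : E d) 2, |ε * (S3 u α x + S4 v β x)| ≤ 1 / 2 := by
  obtain ⟨K, hK⟩ := (isCompact_closedBall (0 : E d) 2).exists_bound_of_continuousOn
    (f := fun x => S3 u α x + S4 v β x)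
    ((continuous_S3 u α).add (continuous_S4 v β)).continuousOn
  set L := (∑ m, |α m| * (6 * ‖u m‖ * ‖u m‖ ^ 2)) + ∑ m, |β m| * (200 * ‖v m‖ ^ 2 * ‖v m‖ ^ 2)
    with hL
  have hL0 : 0 ≤ L := by positivity
  have hK0 : 0 ≤ |K| := abs_nonneg K
  refine ⟨1 / (2 * (|K| + L + 1)), by positivity, fun ε hε0 hε => ⟨?_, ?_⟩⟩
  · have hεL : ε * L ≤ 1 := by
      calc ε * L ≤ 1 / (2 * (|K| + L + 1)) * L := mul_le_mul_of_nonneg_right hε hL0
        _ ≤ 1 := by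
          rw [div_mul_eq_mul_div, div_le_one (by positivity)]
          linarith
    refine ⟨convex_closedBall _ _, fun x hx y hy a b ha hb hab => ?_⟩
    have h3 := S3_defect u α hx hy ha hb hab
    have h4 := S4_defect v β hx hy ha hb hab
    have hq : a * ⟪x, x⟫ + b * ⟪y, y⟫ - ⟪a • x + b • y, a • x + b • y⟫
        = a * b * ‖x - y‖ ^ 2 := by
      rw [← real_inner_self_eq_norm_sq]
      simp only [inner_add_left, inner_add_right, inner_smul_left, inner_smul_right,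
        inner_sub_left, inner_sub_right, real_inner_comm x y, RCLike.conj_to_real]
      have hb' : b = 1 - a := by linarith
      rw [hb']
      ring
    simp only [ff', smul_eq_mul]
    have h3' := (abs_le.mp h3).1
    have h4' := (abs_le.mp h4).1
    have hn : 0 ≤ a * b * ‖x - y‖ ^ 2 := by positivity
    have key : 0 ≤ a * b * ‖x - y‖ ^ 2 * (1 - ε * L) := mul_nonneg hn (by linarith)
    have h5 : -(ε * (a * b * ‖x - y‖ ^ 2 * L)) ≤ ε * ((a * S3 u α x + b * S3 u α y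
        - S3 u α (a • x + b • y)) + (a * S4 v β x + b * S4 v β y - S4 v β (a • x + b • y))) := by
      have : -(a * b * ‖x - y‖ ^ 2 * L) ≤ (a * S3 u α x + b * S3 u α y
        - S3 u α (a • x + b • y)) + (a * S4 v β x + b * S4 v β y - S4 v β (a • x + b • y)) := by
        rw [hL]
        linarith
      have := mul_le_mul_of_nonneg_left this hε0
      linarith
    linarith
  · intro x hx
    have h1 := hK x hx
    rw [Real.norm_eq_abs] at h1
    rw [abs_mul, abs_of_nonneg hε0]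
    have h2 : |S3 u α x + S4 v β x| ≤ |K| := h1.trans (le_abs_self K)
    calc ε * |S3 u α x + S4 v β x| ≤ 1 / (2 * (|K| + L + 1)) * |K| := by
          apply mul_le_mul hε h2 (abs_nonneg _) (by positivity)
      _ ≤ 1 / 2 := by
          rw [div_mul_eq_mul_div, div_le_div_iff₀ (by positivity) (by norm_num)]
          linarith

end Pool.Agent.Helper24
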