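import Pool.Agent.Lead.IP.Defs
/-! Determinants: `Dl` in product form, the recursion of `Dt`, the quotient, the homogeneous limit. -/
namespace IP
open Finset Real Polynomial

/-- rescaled Chebyshev polynomials of the second kind -/
noncomputable def Sp : ℕ → ℝ[X]
  | 0 => 1
  | 1 => X
  | n + 2 => X * Sp (n + 1) - Sp n

theorem Sp_deg : ∀ n, (Sp n).Monic ∧ (Sp n).natDegree = n ∧
    (Sp (n + 1)).Monic ∧ (Sp (n + 1)).natDegree = n + 1
  | 0 => by
    refine ⟨monic_one, natDegree_one, ?_, ?_⟩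
    · exact monic_X
    · exact natDegree_X
  | n + 1 => by
    obtain ⟨h1, h2, h3, h4⟩ := Sp_deg n
    have hd : (Sp n).degree < (X * Sp (n + 1)).degree := by
      rw [degree_mul, degree_X, degree_eq_natDegree h1.ne_zero, degree_eq_natDegree h3.ne_zero,
        h2, h4]
      norm_cast
      omega
    have hm : (X * Sp (n + 1)).Monic := monic_X.mul h3
    refine ⟨h3, h4, ?_, ?_⟩
    · show (X * Sp (n + 1) - Sp n).Monic
      exact hm.sub_of_left hd
    · show (X * Sp (n + 1) - Sp n).natDegree = n + 1 + 1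
      rw [natDegree_sub_eq_left_of_natDegree_lt, natDegree_X_mul h3.ne_zero, h4]
      exact (natDegree_lt_natDegree h1.ne_zero hd)

theorem sin_Sp (b : ℝ) : ∀ n : ℕ, Real.sin (2 * ((n : ℝ) + 1) * b) =
      Real.sin (2 * b) * (Sp n).eval (2 * Real.cos (2 * b)) ∧
      Real.sin (2 * ((n : ℝ) + 2) * b) =
      Real.sin (2 * b) * (Sp (n + 1)).eval (2 * Real.cos (2 * b))
  | 0 => by
    constructor
    · simp [Sp]
    · simp only [Sp, Nat.cast_zero, zero_add, eval_X]
      rw [show (2 : ℝ) * 2 * b = 2 * (2 * b) by ring, Real.sin_two_mul]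
      ring
  | n + 1 => by
    obtain ⟨h1, h2⟩ := sin_Sp b n
    constructor
    · rw [← h2]
      congr 1
      push_cast
      ring
    · show _ = Real.sin (2 * b) * (X * Sp (n + 1) - Sp n).eval (2 * Real.cos (2 * b))
      rw [eval_sub, eval_mul, eval_X, mul_sub, mul_left_comm, ← h2, ← h1]
      have h3 : 2 * (((n + 1 : ℕ) : ℝ) + 2) * b = 2 * ((n : ℝ) + 2) * b + 2 * b := by
        push_cast; ring
      have h4 : 2 * ((n : ℝ) + 1) * b = 2 * ((n : ℝ) + 2) * b - 2 * b := by ring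
      rw [h3, h4, Real.sin_add, Real.sin_sub]
      ring

theorem prod_Ioi_eq (n : ℕ) (f : ℕ → ℕ → ℝ) :
    ∏ i : Fin n, ∏ j ∈ Ioi i, f i j = ∏ j ∈ range n, ∏ i ∈ range j, f i j := by
  have h1 : ∀ i : Fin n, ∏ j ∈ Ioi i, f i j = ∏ j : Fin n, if (i : ℕ) < j then f i j else 1 := by
    intro i
    rw [← prod_filter]
    apply prod_congr _ (fun _ _ => rfl)
    ext j
    simp only [mem_Ioi, mem_filter, mem_univ, true_and, Fin.lt_def]
  rw [prod_congr rfl (fun i _ => h1 i), prod_comm,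
    Fin.prod_univ_eq_prod_range (fun j => ∏ i : Fin n, if (i : ℕ) < j then f i j else 1)]
  apply prod_congr rfl
  intro j hj
  simp only [mem_range] at hj
  rw [Fin.prod_univ_eq_prod_range (fun i => if i < j then f i j else 1), ← prod_filter]
  apply prod_congr _ (fun _ _ => rfl)
  ext i
  simp only [mem_filter, mem_range]
  omega

theorem Dl_eq (m : ℕ) (b : ℕ → ℝ) : Dl m b = (∏ i ∈ range m, Real.sin (2 * b i)) *
    ∏ j ∈ range m, ∏ i ∈ range j, (2 * Real.cos (2 * b j) - 2 * Real.cos (2 * b i)) := by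
  unfold Dl
  have h1 : (Matrix.of fun i j : Fin m => Real.sin (2 * ((j : ℕ) + 1 : ℕ) * b i)) =
      Matrix.diagonal (fun i : Fin m => Real.sin (2 * b i)) *
        Matrix.of (fun i j : Fin m => (Sp j).eval (2 * Real.cos (2 * b i))) := by
    ext i j
    rw [Matrix.diagonal_mul, Matrix.of_apply, Matrix.of_apply, ← (sin_Sp (b i) j).1]
    push_cast
    rfl
  rw [h1, Matrix.det_mul, Matrix.det_diagonal,
    ← Matrix.det_eval_matrixOfPolynomials_eq_det_vandermonde (fun i : Fin m => 2 * Real.cos (2 * b i))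
      (fun j : Fin m => Sp j) (fun j => (Sp_deg j).2.1) (fun j => (Sp_deg j).1),
    Matrix.det_vandermonde, prod_Ioi_eq m (fun i j => 2 * Real.cos (2 * b j) - 2 * Real.cos (2 * b i)),
    Fin.prod_univ_eq_prod_range (fun i => Real.sin (2 * b i))]

/-! ### The recursion of `Dt` -/

theorem mu_add_two (j : ℕ) : mu (j + 2) = mu j + 3 := by unfold mu; omega

/-- column operation coefficients -/
noncomputable def uu (c : ℝ) (k j : ℕ) : ℝ :=
  (if k = j then 1 else 0) + (if k + 2 = j then -c else 0) + (if k + 4 = j then 1 else 0) +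
  (if k = 1 ∧ j = 2 then -1 else 0) + (if k = 0 ∧ j = 3 then -1 else 0)

theorem sum_uu (c : ℝ) (F : ℕ → ℝ) (N : ℕ) (j : ℕ) (hj : j < N) :
    ∑ k ∈ range N, F k * uu c k j =
      F j + (if 2 ≤ j then -c * F (j - 2) else 0) + (if 4 ≤ j then F (j - 4) else 0) +
      (if j = 2 then -F 1 else 0) + (if j = 3 then -F 0 else 0) := by
  unfold uu
  simp only [mul_add, sum_add_distrib]
  congr 1
  · congr 1
    · congr 1
      · congr 1
        · simp [hj]
        · by_cases h : 2 ≤ j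
          · obtain ⟨i, rfl⟩ : ∃ i, j = i + 2 := ⟨j - 2, by omega⟩
            rw [if_pos h, sum_eq_single i]
            · simp; ring
            · intro k _ hk; rw [if_neg (by omega), mul_zero]
            · intro h'; exact absurd (mem_range.2 (by omega)) h'
          · rw [if_neg h]
            apply sum_eq_zero
            intro k _; rw [if_neg (by omega), mul_zero]
      · by_cases h : 4 ≤ j
        · obtain ⟨i, rfl⟩ : ∃ i, j = i + 4 := ⟨j - 4, by omega⟩
          rw [if_pos h, sum_eq_single i]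
          · simp
          · intro k _ hk; rw [if_neg (by omega), mul_zero]
          · intro h'; exact absurd (mem_range.2 (by omega)) h'
        · rw [if_neg h]
          apply sum_eq_zero
          intro k _; rw [if_neg (by omega), mul_zero]
    · by_cases h : j = 2
      · rw [if_pos h, sum_eq_single 1]
        · simp [h]
        · intro k _ hk; rw [if_neg (by omega), mul_zero]
        · intro h'; exact absurd (mem_range.2 (by omega)) h'
      · rw [if_neg h]
        apply sum_eq_zero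
        intro k _; rw [if_neg (by omega), mul_zero]
  · by_cases h : j = 3
    · rw [if_pos h, sum_eq_single 0]
      · simp [h]
      · intro k _ hk; rw [if_neg (by omega), mul_zero]
      · intro h'; exact absurd (mem_range.2 (by omega)) h'
    · rw [if_neg h]
      apply sum_eq_zero
      intro k _; rw [if_neg (by omega), mul_zero]

/-- the columns after the column operations -/
noncomputable def NNd (c x : ℝ) (j : ℕ) : ℝ :=
  if j < 2 then Real.sin (2 * mu j * x) else
    (2 * Real.cos (6 * x) - c) * Real.sin (2 * mu (j - 2) * x)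

theorem sin_mu_rec (x : ℝ) (j : ℕ) : Real.sin (2 * mu (j + 4) * x) =
    2 * Real.cos (6 * x) * Real.sin (2 * mu (j + 2) * x) - Real.sin (2 * mu j * x) := by
  rw [mu_add_two (j + 2), mu_add_two]
  push_cast
  rw [show 2 * ((mu j : ℝ) + 3 + 3) * x = 2 * ((mu j : ℝ) + 3) * x + 6 * x by ring,
    show 2 * (mu j : ℝ) * x = 2 * ((mu j : ℝ) + 3) * x - 6 * x by ring, Real.sin_add, Real.sin_sub]
  ring

theorem uu_NNd (c x : ℝ) (N : ℕ) (j : ℕ) (hj : j < N) :
    ∑ k ∈ range N, Real.sin (2 * mu k * x) * uu c k j = NNd c x j := by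
  rw [sum_uu c (fun k => Real.sin (2 * mu k * x)) N j hj]
  unfold NNd
  rcases j with _ | _ | _ | _ | j
  · simp
  · simp
  · have h8 : Real.sin (8 * x) = 2 * Real.cos (6 * x) * Real.sin (2 * x) + Real.sin (4 * x) := by
      rw [show 8 * x = 2 * x + 6 * x by ring, show 4 * x = 6 * x - 2 * x by ring, Real.sin_add,
        Real.sin_sub]
      ring
    simp [mu]
    rw [show (2 : ℝ) * 4 * x = 8 * x by ring, show (2 : ℝ) * 2 * x = 4 * x by ring, h8]
    ring
  · have h8 : Real.sin (10 * x) = 2 * Real.cos (6 * x) * Real.sin (4 * x) + Real.sin (2 * x) := by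
      rw [show 10 * x = 4 * x + 6 * x by ring, show 2 * x = 6 * x - 4 * x by ring, Real.sin_add,
        Real.sin_sub]
      ring
    simp [mu]
    rw [show (2 : ℝ) * 5 * x = 10 * x by ring,
      show (2 : ℝ) * 2 * x = 4 * x by ring, h8]
    ring
  · have h := sin_mu_rec x j
    simp only [show ¬ (j + 1 + 1 + 1 + 1 < 2) by omega, if_false,
      show 2 ≤ j + 1 + 1 + 1 + 1 by omega, if_true, show 4 ≤ j + 1 + 1 + 1 + 1 by omega,
      show ¬ (j + 1 + 1 + 1 + 1 = 2) by omega, show ¬ (j + 1 + 1 + 1 + 1 = 3) by omega]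
    rw [show j + 1 + 1 + 1 + 1 = j + 4 by omega, show j + 4 - 2 = j + 2 by omega,
      show j + 4 - 4 = j by omega, h]
    ring

theorem Dt_eq_NNd (m : ℕ) (c : ℝ) (b : ℕ → ℝ) :
    Dt m b = Matrix.det (Matrix.of fun i j : Fin m => NNd c (b i) j) := by
  have h1 : (Matrix.of fun i j : Fin m => NNd c (b i) j) =
      (Matrix.of fun i j : Fin m => Real.sin (2 * mu j * b i)) *
        (Matrix.of fun k j : Fin m => uu c k j) := by
    ext i j
    rw [Matrix.mul_apply, Matrix.of_apply]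
    simp only [Matrix.of_apply]
    rw [Fin.sum_univ_eq_sum_range (fun k => Real.sin (2 * mu k * b i) * uu c k j),
      uu_NNd c (b i) m j j.2]
  have h2 : Matrix.det (Matrix.of fun k j : Fin m => uu c k j) = 1 := by
    rw [Matrix.det_of_isUpperTriangular]
    · apply prod_eq_one
      intro i _
      simp only [Matrix.of_apply, uu]
      simp only [if_true, show ¬ ((i : ℕ) + 2 = i) by omega, show ¬ ((i : ℕ) + 4 = i) by omega,
        show ¬ ((i : ℕ) = 1 ∧ (i : ℕ) = 2) by omega, show ¬ ((i : ℕ) = 0 ∧ (i : ℕ) = 3) by omega,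
        if_false]
      norm_num
    · intro i j hij
      have hij' : (j : ℕ) < i := hij
      simp only [Matrix.of_apply, uu]
      simp only [show ¬ ((i : ℕ) = j) by omega, show ¬ ((i : ℕ) + 2 = j) by omega,
        show ¬ ((i : ℕ) + 4 = j) by omega, show ¬ ((i : ℕ) = 1 ∧ (j : ℕ) = 2) by omega,
        show ¬ ((i : ℕ) = 0 ∧ (j : ℕ) = 3) by omega, if_false]
      norm_num
  rw [h1, Matrix.det_mul, h2, mul_one]
  rfl

theorem Dt_rec (m : ℕ) (b : ℕ → ℝ) (h : Real.cos (6 * b 1) = Real.cos (6 * b 0)) :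
    Dt (m + 2) b = (Real.sin (2 * b 0) * Real.sin (4 * b 1) - Real.sin (4 * b 0) * Real.sin (2 * b 1)) *
      (∏ k ∈ range m, (2 * Real.cos (6 * b (k + 2)) - 2 * Real.cos (6 * b 0))) *
      Dt m (fun k => b (k + 2)) := by
  rw [Dt_eq_NNd (m + 2) (2 * Real.cos (6 * b 0)) b]
  set e : Fin 2 ⊕ Fin m ≃ Fin (m + 2) := finSumFinEquiv.trans (finCongr (by omega)) with he
  rw [← Matrix.det_submatrix_equiv_self e]
  have hl : ∀ i : Fin 2, ((e (Sum.inl i) : Fin (m + 2)) : ℕ) = i := by
    intro i; simp [he]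
  have hr : ∀ i : Fin m, ((e (Sum.inr i) : Fin (m + 2)) : ℕ) = i + 2 := by
    intro i; simp [he]
  have h1 : (Matrix.of fun i j : Fin (m + 2) => NNd (2 * Real.cos (6 * b 0)) (b i) j).submatrix e e =
      Matrix.fromBlocks (Matrix.of fun i j : Fin 2 => Real.sin (2 * mu j * b i)) 0
        (Matrix.of fun (i : Fin m) (j : Fin 2) => Real.sin (2 * mu j * b (i + 2)))
        (Matrix.diagonal (fun i : Fin m => 2 * Real.cos (6 * b (i + 2)) - 2 * Real.cos (6 * b 0)) *
          Matrix.of (fun i j : Fin m => Real.sin (2 * mu j * b (i + 2)))) := by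
    ext i j
    rcases i with i | i <;> rcases j with j | j
    · simp only [Matrix.submatrix_apply, Matrix.of_apply, Matrix.fromBlocks_apply₁₁, hl, NNd, j.2,
        if_true]
    · simp only [Matrix.submatrix_apply, Matrix.of_apply, Matrix.fromBlocks_apply₁₂, hl, hr, NNd,
        show ¬ ((j : ℕ) + 2 < 2) by omega, if_false, Matrix.zero_apply]
      have hi : (i : ℕ) = 0 ∨ (i : ℕ) = 1 := by omega
      rcases hi with hi | hi
      · rw [hi]; ring
      · rw [hi, h]; ring
    · simp only [Matrix.submatrix_apply, Matrix.of_apply, Matrix.fromBlocks_apply₂₁, hl, hr, NNd, j.2,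
        if_true]
    · simp only [Matrix.submatrix_apply, Matrix.of_apply, Matrix.fromBlocks_apply₂₂, hr, NNd,
        show ¬ ((j : ℕ) + 2 < 2) by omega, if_false, Matrix.diagonal_mul]
      rw [show (j : ℕ) + 2 - 2 = j by omega]
  rw [h1, Matrix.det_fromBlocks_zero₁₂, Matrix.det_mul, Matrix.det_diagonal, Matrix.det_fin_two,
    Fin.prod_univ_eq_prod_range (fun i => 2 * Real.cos (6 * b (i + 2)) - 2 * Real.cos (6 * b 0))]
  have e1 : ((mu 0 : ℕ) : ℝ) = 1 := by norm_num [mu]
  have e2 : ((mu 1 : ℕ) : ℝ) = 2 := by norm_num [mu]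
  unfold Dt
  simp only [Matrix.of_apply, Fin.val_zero, Fin.val_one, e1, e2]
  rw [show (2 : ℝ) * 1 * b 0 = 2 * b 0 by ring, show (2 : ℝ) * 1 * b 1 = 2 * b 1 by ring,
    show (2 : ℝ) * 2 * b 0 = 4 * b 0 by ring, show (2 : ℝ) * 2 * b 1 = 4 * b 1 by ring, mul_assoc]

/-! ### The recursion of the quotient -/

theorem four_ss (x a : ℝ) : 4 * (s (x - a) * s (-x - a)) =
    2 * Real.cos (2 * x) - 2 * Real.cos (2 * a - 2 * π / 3) := by
  unfold s
  have h := Real.cos_sub_cos (2 * x) (2 * a - 2 * π / 3)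
  rw [show (2 * x + (2 * a - 2 * π / 3)) / 2 = -(π / 3 + (-x - a)) by ring,
    show (2 * x - (2 * a - 2 * π / 3)) / 2 = π / 3 + (x - a) by ring, Real.sin_neg] at h
  rw [← mul_sub, h]
  ring

theorem cos_six (x a : ℝ) : 2 * Real.cos (6 * x) - 2 * Real.cos (6 * a) =
    (2 * Real.cos (2 * x) - 2 * Real.cos (2 * a)) *
    (2 * Real.cos (2 * x) - 2 * Real.cos (2 * (a + π / 3))) *
    (4 * (s (x - a) * s (-x - a))) := by
  rw [four_ss]
  have h1 : Real.cos (6 * x) = 4 * Real.cos (2 * x) ^ 3 - 3 * Real.cos (2 * x) := by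
    rw [← Real.cos_three_mul]; congr 1; ring
  have h2 : Real.cos (6 * a) = 4 * Real.cos (2 * a) ^ 3 - 3 * Real.cos (2 * a) := by
    rw [← Real.cos_three_mul]; congr 1; ring
  have h3 : Real.cos (2 * π / 3) = -1 / 2 := by
    rw [show 2 * π / 3 = π - π / 3 by ring, Real.cos_pi_sub, Real.cos_pi_div_three]; ring
  have h4 : Real.sin (2 * π / 3) = Real.sqrt 3 / 2 := by
    rw [show 2 * π / 3 = π - π / 3 by ring, Real.sin_pi_sub, Real.sin_pi_div_three]
  rw [h1, h2, show 2 * (a + π / 3) = 2 * a + 2 * π / 3 by ring, Real.cos_add, Real.cos_sub, h3, h4]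
  have h5 : Real.sqrt 3 ^ 2 = 3 := Real.sq_sqrt (by norm_num)
  have h6 := Real.sin_sq_add_cos_sq (2 * a)
  have h7 : Real.sin (2 * a) ^ 2 = 1 - Real.cos (2 * a) ^ 2 := by linarith
  linear_combination ((2 * Real.cos (2 * x) - 2 * Real.cos (2 * a)) * Real.sin (2 * a) ^ 2) * h5 +
    (3 * (2 * Real.cos (2 * x) - 2 * Real.cos (2 * a))) * h7

theorem Dl_add_two (m : ℕ) (b : ℕ → ℝ) : Dl (m + 2) b =
    (Real.sin (2 * b 0) * Real.sin (4 * b 1) - Real.sin (4 * b 0) * Real.sin (2 * b 1)) *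
    (∏ k ∈ range m, ((2 * Real.cos (2 * b (k + 2)) - 2 * Real.cos (2 * b 0)) *
      (2 * Real.cos (2 * b (k + 2)) - 2 * Real.cos (2 * b 1)))) * Dl m (fun k => b (k + 2)) := by
  rw [Dl_eq, Dl_eq]
  rw [prod_range_succ', prod_range_succ' _ m, prod_range_succ' (fun j => ∏ i ∈ range j, _) (m + 1),
    prod_range_succ' _ m]
  have h1 : ∀ j, (∏ i ∈ range (j + 1 + 1),
      (2 * Real.cos (2 * b (j + 1 + 1)) - 2 * Real.cos (2 * b i))) =
      ((2 * Real.cos (2 * b (j + 2)) - 2 * Real.cos (2 * b 0)) *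
      (2 * Real.cos (2 * b (j + 2)) - 2 * Real.cos (2 * b 1))) *
      ∏ i ∈ range j, (2 * Real.cos (2 * b (j + 2)) - 2 * Real.cos (2 * b (i + 2))) := by
    intro j
    rw [prod_range_succ', prod_range_succ']
    ring
  rw [prod_congr rfl (fun j _ => h1 j), prod_mul_distrib]
  rw [show (4 : ℝ) * b 1 = 2 * (2 * b 1) by ring, show (4 : ℝ) * b 0 = 2 * (2 * b 0) by ring,
    Real.sin_two_mul (2 * b 1), Real.sin_two_mul (2 * b 0)]
  simp
  ring

/-- recursion of the quotient `Dt / Dl` -/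
theorem chi_rec (m : ℕ) (b : ℕ → ℝ) (h : b 1 = b 0 + π / 3) :
    Dt (m + 2) b * Dl m (fun k => b (k + 2)) =
      (∏ k ∈ range m, (4 * (s (b (k + 2) - b 0) * s (-b (k + 2) - b 0)))) *
        (Dl (m + 2) b * Dt m (fun k => b (k + 2))) := by
  have h6 : Real.cos (6 * b 1) = Real.cos (6 * b 0) := by
    rw [h, show 6 * (b 0 + π / 3) = 6 * b 0 + 2 * π by ring, Real.cos_add_two_pi]
  rw [Dt_rec m b h6, Dl_add_two]
  have h1 : (∏ k ∈ range m, (2 * Real.cos (6 * b (k + 2)) - 2 * Real.cos (6 * b 0))) =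
      (∏ k ∈ range m, ((2 * Real.cos (2 * b (k + 2)) - 2 * Real.cos (2 * b 0)) *
      (2 * Real.cos (2 * b (k + 2)) - 2 * Real.cos (2 * b 1)))) *
      ∏ k ∈ range m, (4 * (s (b (k + 2) - b 0) * s (-b (k + 2) - b 0))) := by
    rw [← prod_mul_distrib]
    apply prod_congr rfl
    intro k _
    rw [cos_six, h]
  rw [h1]
  ring

/-! ### The homogeneous limit -/

theorem Dt_hom (m : ℕ) (t : ℝ) : Dt m (fun i => t * ((i : ℝ) + 1)) = Dl m (fun i => t * mu i) := by
  unfold Dt Dl
  rw [← Matrix.det_transpose]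
  congr 1
  ext i j
  simp only [Matrix.transpose_apply, Matrix.of_apply]
  congr 1
  push_cast
  ring

/-- value of the symplectic character at the identity -/
noncomputable def chi0 (m : ℕ) : ℝ := (∏ i ∈ range m, ((mu i : ℝ) / ((i : ℝ) + 1))) *
  ∏ j ∈ range m, ∏ i ∈ range j, (((mu j : ℝ) ^ 2 - (mu i : ℝ) ^ 2) /
    (((j : ℝ) + 1) ^ 2 - ((i : ℝ) + 1) ^ 2))

open Filter Topology in
theorem tendsto_sin_div (a : ℝ) : Tendsto (fun t : ℝ => Real.sin (a * t) / t) (𝓝[≠] 0) (𝓝 a) := by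
  have h : HasDerivAt (fun t : ℝ => Real.sin (a * t)) (Real.cos (a * 0) * (a * 1)) 0 :=
    ((hasDerivAt_id (0 : ℝ)).const_mul a).sin
  have h2 := h.tendsto_slope
  simp only [mul_zero, Real.cos_zero, one_mul, mul_one] at h2
  refine h2.congr (fun t => ?_)
  simp [slope, div_eq_inv_mul]

open Filter Topology in
theorem tendsto_sin_ratio (a b : ℝ) (hb : b ≠ 0) :
    Tendsto (fun t : ℝ => Real.sin (a * t) / Real.sin (b * t)) (𝓝[≠] 0) (𝓝 (a / b)) := by
  have h := (tendsto_sin_div a).div (tendsto_sin_div b) hb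
  refine h.congr' ?_
  filter_upwards [self_mem_nhdsWithin] with t ht
  have ht' : t ≠ 0 := ht
  simp only [Pi.div_apply]
  field_simp

open Filter Topology in
theorem tendsto_cos_ratio (a b c d : ℝ) (h1 : c + d ≠ 0) (h2 : c - d ≠ 0) :
    Tendsto (fun t : ℝ => (2 * Real.cos (2 * (t * a)) - 2 * Real.cos (2 * (t * b))) /
      (2 * Real.cos (2 * (t * c)) - 2 * Real.cos (2 * (t * d)))) (𝓝[≠] 0)
      (𝓝 ((a ^ 2 - b ^ 2) / (c ^ 2 - d ^ 2))) := by
  have h := (tendsto_sin_ratio (a + b) (c + d) h1).mul (tendsto_sin_ratio (a - b) (c - d) h2)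
  have h3 : (a ^ 2 - b ^ 2) / (c ^ 2 - d ^ 2) = (a + b) / (c + d) * ((a - b) / (c - d)) := by
    rw [div_mul_div_comm]; congr 1 <;> ring
  rw [h3]
  refine h.congr (fun t => ?_)
  rw [div_mul_div_comm, ← mul_sub, ← mul_sub, Real.cos_sub_cos, Real.cos_sub_cos,
    show (2 * (t * a) + 2 * (t * b)) / 2 = (a + b) * t by ring,
    show (2 * (t * a) - 2 * (t * b)) / 2 = (a - b) * t by ring,
    show (2 * (t * c) + 2 * (t * d)) / 2 = (c + d) * t by ring,
    show (2 * (t * c) - 2 * (t * d)) / 2 = (c - d) * t by ring]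
  rw [show 2 * (-2 * Real.sin ((a + b) * t) * Real.sin ((a - b) * t)) =
    (-4) * (Real.sin ((a + b) * t) * Real.sin ((a - b) * t)) by ring,
    show 2 * (-2 * Real.sin ((c + d) * t) * Real.sin ((c - d) * t)) =
    (-4) * (Real.sin ((c + d) * t) * Real.sin ((c - d) * t)) by ring,
    mul_div_mul_left _ _ (by norm_num : (-4 : ℝ) ≠ 0)]

open Filter Topology in
theorem tendsto_chi (m : ℕ) : Tendsto (fun t : ℝ => Dt m (fun i => t * ((i : ℝ) + 1)) /
    Dl m (fun i => t * ((i : ℝ) + 1))) (𝓝[≠] 0) (𝓝 (chi0 m)) := by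
  have h : ∀ t : ℝ, Dt m (fun i => t * ((i : ℝ) + 1)) / Dl m (fun i => t * ((i : ℝ) + 1)) =
      (∏ i ∈ range m, (Real.sin (2 * (t * mu i)) / Real.sin (2 * (t * ((i : ℝ) + 1))))) *
      ∏ j ∈ range m, ∏ i ∈ range j, ((2 * Real.cos (2 * (t * mu j)) - 2 * Real.cos (2 * (t * mu i))) /
        (2 * Real.cos (2 * (t * ((j : ℝ) + 1))) - 2 * Real.cos (2 * (t * ((i : ℝ) + 1))))) := by
    intro t
    rw [Dt_hom, Dl_eq, Dl_eq, mul_div_mul_comm, ← prod_div_distrib, ← prod_div_distrib]
    congr 1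
    apply prod_congr rfl
    intro j _
    rw [← prod_div_distrib]
  simp only [h]
  unfold chi0
  apply Tendsto.mul
  · apply tendsto_finsetProd
    intro i _
    have h1 := tendsto_sin_ratio (2 * mu i) (2 * ((i : ℝ) + 1)) (by positivity)
    rw [mul_div_mul_left _ _ (by norm_num : (2 : ℝ) ≠ 0)] at h1
    refine h1.congr (fun t => ?_)
    congr 2 <;> ring
  · apply tendsto_finsetProd
    intro j _
    apply tendsto_finsetProd
    intro i hi
    have hi' : (i : ℝ) < j := by exact_mod_cast mem_range.1 hi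
    apply tendsto_cos_ratio
    · positivity
    · intro h0; linarith

end IP
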