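import Pool.Agent.Lead.IP.Zform
import Pool.Agent.Lead.IP.NformA
import Pool.Agent.Lead.IP.DetB
/-! Interpolation step for `NN`. -/
namespace IP
open Finset Real

theorem nf_cos_six (x a : ℝ) : 2 * (Real.cos (6 * x) - Real.cos (6 * a)) =
    (2 * (Real.cos (2 * x) - Real.cos (2 * a))) *
    (2 * (Real.cos (2 * x) - Real.cos (2 * (a + π / 3)))) *
    (2 * (Real.cos (2 * x) - Real.cos (2 * a - 2 * π / 3))) := by
  have h1 : Real.cos (6 * x) = 4 * Real.cos (2 * x) ^ 3 - 3 * Real.cos (2 * x) := by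
    rw [← Real.cos_three_mul]; congr 1; ring
  have h2 : Real.cos (6 * a) = 4 * Real.cos (2 * a) ^ 3 - 3 * Real.cos (2 * a) := by
    rw [← Real.cos_three_mul]; congr 1; ring
  have h3 : Real.cos (2 * π / 3) = -1 / 2 := by
    rw [show 2 * π / 3 = π - π / 3 by ring, Real.cos_pi_sub, Real.cos_pi_div_three]; ring
  have h4 : Real.sin (2 * π / 3) = Real.sqrt 3 / 2 := by
    rw [show 2 * π / 3 = π - π / 3 by ring, Real.sin_pi_sub, Real.sin_pi_div_three]
  rw [h1, h2, show 2 * (a + π / 3) = 2 * a + 2 * π / 3 by ring, Real.cos_add, Real.cos_sub, h3, h4]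
  have h5 : Real.sqrt 3 ^ 2 = 3 := Real.sq_sqrt (by norm_num)
  have h6 := Real.sin_sq_add_cos_sq (2 * a)
  have h7 : Real.sin (2 * a) ^ 2 = 1 - Real.cos (2 * a) ^ 2 := by linarith
  linear_combination ((2 * Real.cos (2 * x) - 2 * Real.cos (2 * a)) * Real.sin (2 * a) ^ 2) * h5 +
    (3 * (2 * Real.cos (2 * x) - 2 * Real.cos (2 * a))) * h7

/-- the recursion without division -/
theorem nf_rec (m : ℕ) (b : ℕ → ℝ) (hb : b 1 = b 0 + π / 3) : ∃ R : ℝ,
    Dl (m + 2) b = R * Dl m (rem 0 b) ∧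
    Dt (m + 2) b = R * (∏ i ∈ Ico 2 (m + 2), 2 * (Real.cos (2 * b i) - Real.cos (2 * b 0 - 2 * π / 3))) *
      Dt m (rem 0 b) := by
  refine ⟨Dl 2 b * (∏ i ∈ Ico 2 (m + 2), (2 * (Real.cos (2 * b i) - Real.cos (2 * b 0))) *
      (2 * (Real.cos (2 * b i) - Real.cos (2 * b 1)))), Dl_rec m b, ?_⟩
  rw [Dt_rec m b hb, Dt_two]
  have h1 : (∏ i ∈ Ico 2 (m + 2), 2 * (Real.cos (6 * b i) - Real.cos (6 * b 0))) =
      (∏ i ∈ Ico 2 (m + 2), (2 * (Real.cos (2 * b i) - Real.cos (2 * b 0))) *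
      (2 * (Real.cos (2 * b i) - Real.cos (2 * b 1)))) *
      ∏ i ∈ Ico 2 (m + 2), 2 * (Real.cos (2 * b i) - Real.cos (2 * b 0 - 2 * π / 3)) := by
    rw [← prod_mul_distrib]
    apply prod_congr rfl
    intro i _
    rw [nf_cos_six, hb]
  rw [h1]
  ring

/-- the difference of the two sides -/
noncomputable def nf_F (n : ℕ) (x : ℝ) (b : ℕ → ℝ) : ℝ :=
  4 ^ (2 * n ^ 2) * NN n x b * (Dl (2 * n) (tl b) * Dl (2 * n + 2) (cons x b)) -
    Dt (2 * n) (tl b) * Dt (2 * n + 2) (cons x b)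

theorem nf_tl_sw (i : ℕ) (b : ℕ → ℝ) : tl (sw (i + 1) b) = sw i (tl b) := by
  funext j
  unfold tl sw
  simp only [Equiv.swap_apply_def]
  split_ifs <;> first | rfl | omega

theorem nf_cons_sw (i : ℕ) (x : ℝ) (b : ℕ → ℝ) : cons x (sw i b) = sw (i + 1) (cons x b) := by
  funext j
  rcases j with _ | j
  · simp [cons, sw, Equiv.swap_apply_def]
  · simp only [cons, sw, Equiv.swap_apply_def, Nat.add_sub_cancel]
    split_ifs <;> first | rfl | omega

theorem nf_tl_ng (i : ℕ) (b : ℕ → ℝ) : tl (ng (i + 1) b) = ng i (tl b) := by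
  funext j
  unfold tl ng
  by_cases h : j = i
  · subst h; simp
  · rw [Function.update_of_ne (by omega), Function.update_of_ne h]

theorem nf_cons_ng (i : ℕ) (x : ℝ) (b : ℕ → ℝ) : cons x (ng i b) = ng (i + 1) (cons x b) := by
  funext j
  rcases j with _ | j
  · have h1 : ng (i + 1) (cons x b) 0 = cons x b 0 := by
      unfold ng; rw [Function.update_of_ne (show (0 : ℕ) ≠ i + 1 by omega)]
    rw [h1]; simp [cons]
  · have hc : ∀ c : ℕ → ℝ, cons x c (j + 1) = c j := fun c => by simp [cons]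
    rw [hc]
    by_cases h : j = i
    · subst h
      unfold ng
      rw [Function.update_self, Function.update_self, hc]
    · unfold ng
      rw [Function.update_of_ne h, Function.update_of_ne (show j + 1 ≠ i + 1 by omega), hc]

theorem nf_F_sw {n i : ℕ} (h1 : 1 ≤ i) (h2 : i < 2 * n) (x : ℝ) (b : ℕ → ℝ) :
    nf_F n x (sw i b) = nf_F n x b := by
  obtain ⟨k, rfl⟩ : ∃ k, i = k + 1 := ⟨i - 1, by omega⟩
  unfold nf_F
  rw [NN_sw h1 h2, nf_tl_sw, nf_cons_sw, Dl_sw (by omega), Dl_sw (by omega), Dt_sw (by omega),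
    Dt_sw (by omega)]
  ring

theorem nf_F_ng {n i : ℕ} (h1 : 1 ≤ i) (h2 : i ≤ 2 * n) (x : ℝ) (b : ℕ → ℝ) :
    nf_F n x (ng i b) = nf_F n x b := by
  obtain ⟨k, rfl⟩ : ∃ k, i = k + 1 := ⟨i - 1, by omega⟩
  unfold nf_F
  rw [NN_ng h1 h2, nf_tl_ng, nf_cons_ng, Dl_ng (by omega), Dl_ng (by omega), Dt_ng (by omega),
    Dt_ng (by omega)]
  ring

/-- `(b 1, b 2, x, b 0, b 3, ...)` -/
def nf_c (x : ℝ) (b : ℕ → ℝ) : ℕ → ℝ := fun j =>
  if j = 0 then b 1 else if j = 1 then b 2 else if j = 2 then x else if j = 3 then b 0 else b (j - 1)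

theorem nf_c_eq (x : ℝ) (b : ℕ → ℝ) : nf_c x b = sw 1 (sw 2 (sw 0 (sw 1 (cons x b)))) := by
  funext j
  rcases j with _ | _ | _ | _ | j
  · simp [nf_c, cons, sw, Equiv.swap_apply_def]
  · simp [nf_c, cons, sw, Equiv.swap_apply_def]
  · simp [nf_c, cons, sw, Equiv.swap_apply_def]
  · simp [nf_c, cons, sw, Equiv.swap_apply_def]
  · simp only [nf_c, cons, sw, Equiv.swap_apply_def]
    simp

theorem nf_rem_c (x : ℝ) (b : ℕ → ℝ) : rem 0 (nf_c x b) = cons x (rem 1 b) := by
  funext j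
  rcases j with _ | _ | j
  · simp [rem, nf_c, cons]
  · simp [rem, nf_c, cons]
  · simp [rem, nf_c, cons]

theorem nf_rem_tl (b : ℕ → ℝ) : rem 0 (tl b) = tl (rem 1 b) := by
  funext j
  simp [rem, tl]

theorem nf_base (n : ℕ) (ih : ∀ x b, nf_F n x b = 0) (x : ℝ) (b : ℕ → ℝ) (hb : b 2 = b 1 + π / 3) :
    nf_F (n + 1) x b = 0 := by
  obtain ⟨R1, hR1, hR1'⟩ := nf_rec (2 * n) (tl b) hb
  obtain ⟨R2, hR2, hR2'⟩ := nf_rec (2 * n + 2) (nf_c x b) (by simpa [nf_c] using hb)
  have hN := NN_rec n x b hb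
  have e1 : Dl (2 * n + 2 + 2) (nf_c x b) = Dl (2 * n + 2 + 2) (cons x b) := by
    rw [nf_c_eq, Dl_sw (by omega), Dl_sw (by omega), Dl_sw (by omega), Dl_sw (by omega)]; ring
  have e2 : Dt (2 * n + 2 + 2) (nf_c x b) = Dt (2 * n + 2 + 2) (cons x b) := by
    rw [nf_c_eq, Dt_sw (by omega), Dt_sw (by omega), Dt_sw (by omega), Dt_sw (by omega)]; ring
  rw [e1, nf_rem_c] at hR2
  rw [e2, nf_rem_c] at hR2'
  rw [nf_rem_tl] at hR1 hR1'
  set κ := Real.cos (2 * b 1 - 2 * π / 3) with hκ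
  set P := ∏ i ∈ Ico 3 (2 * n + 3), (Real.cos (2 * b i) - κ) with hP
  have hpow : (∏ i ∈ Ico 3 (2 * n + 3), (2 : ℝ)) = 2 ^ (2 * n) := by
    rw [prod_const, Nat.card_Ico]; congr 1
  have hp1 : (∏ i ∈ Ico 2 (2 * n + 2), 2 * (Real.cos (2 * tl b i) - Real.cos (2 * tl b 0 - 2 * π / 3))) =
      2 ^ (2 * n) * P := by
    have h0 : Real.cos (2 * tl b 0 - 2 * π / 3) = κ := rfl
    rw [h0]
    have h1 : (∏ i ∈ Ico 2 (2 * n + 2), 2 * (Real.cos (2 * tl b i) - κ)) =
        ∏ i ∈ Ico (2 + 1) (2 * n + 2 + 1), 2 * (Real.cos (2 * b i) - κ) := by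
      rw [← prod_Ico_add' (fun i => 2 * (Real.cos (2 * b i) - κ)) 2 (2 * n + 2) 1]
      rfl
    rw [h1, prod_mul_distrib, show 2 * n + 2 + 1 = 2 * n + 3 by ring, show 2 + 1 = 3 by norm_num,
      hpow]
  have hp2 : (∏ i ∈ Ico 2 (2 * n + 2 + 2), 2 * (Real.cos (2 * nf_c x b i) -
      Real.cos (2 * nf_c x b 0 - 2 * π / 3))) =
      (2 * (Real.cos (2 * x) - κ)) * ((2 * (Real.cos (2 * b 0) - κ)) * (2 ^ (2 * n) * P)) := by
    have h0 : Real.cos (2 * nf_c x b 0 - 2 * π / 3) = κ := rfl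
    rw [h0, prod_eq_prod_Ico_succ_bot (by omega), prod_eq_prod_Ico_succ_bot (by omega)]
    congr 1
    congr 1
    have h1 : (∏ i ∈ Ico (2 + 1 + 1) (2 * n + 2 + 2), 2 * (Real.cos (2 * nf_c x b i) - κ)) =
        ∏ i ∈ Ico 3 (2 * n + 3), 2 * (Real.cos (2 * b i) - κ) := by
      rw [show 2 + 1 + 1 = 3 + 1 by norm_num, show 2 * n + 2 + 2 = 2 * n + 3 + 1 by ring,
        ← prod_Ico_add' (fun i => 2 * (Real.cos (2 * nf_c x b i) - κ)) 3 (2 * n + 3) 1]
      apply prod_congr rfl
      intro i hi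
      have hi' := (mem_Ico.1 hi).1
      simp only [nf_c]
      rw [if_neg (by omega), if_neg (by omega), if_neg (by omega), if_neg (by omega),
        Nat.add_sub_cancel]
    rw [h1, prod_mul_distrib, hpow]
  rw [hp1] at hR1'
  rw [hp2] at hR2'
  have hNP : (∏ i ∈ Ico 3 (2 * n + 3), (Real.cos (2 * b i) - κ) ^ 2) = P ^ 2 := by
    rw [prod_pow]
  rw [hNP] at hN
  have hI := ih x (rem 1 b)
  unfold nf_F at hI ⊢
  have e3 : (4 : ℝ) ^ (2 * (n + 1) ^ 2) = 4 ^ (2 * n ^ 2) * (4 ^ (2 * n + 1) * 4 ^ (2 * n + 1)) := by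
    rw [← pow_add, ← pow_add]; congr 1; ring
  have e4 : (2 : ℝ) ^ (2 * n) * 2 ^ (2 * n) * 4 = 4 ^ (2 * n + 1) := by
    rw [← mul_pow, pow_succ]; norm_num
  rw [show 2 * (n + 1) = 2 * n + 2 by ring, hR1, hR1', hR2, hR2', e3]
  set A := Real.cos (2 * x) - κ
  set B := Real.cos (2 * b 0) - κ
  calc 4 ^ (2 * n ^ 2) * (4 ^ (2 * n + 1) * 4 ^ (2 * n + 1)) * NN (n + 1) x b *
        (R1 * Dl (2 * n) (tl (rem 1 b)) * (R2 * Dl (2 * n + 2) (cons x (rem 1 b)))) -
      R1 * (2 ^ (2 * n) * P) * Dt (2 * n) (tl (rem 1 b)) *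
        (R2 * (2 * A * (2 * B * (2 ^ (2 * n) * P))) * Dt (2 * n + 2) (cons x (rem 1 b)))
      = 4 ^ (2 * n ^ 2) * 4 ^ (2 * n + 1) * (4 ^ (2 * n + 1) * NN (n + 1) x b) *
        (R1 * R2 * (Dl (2 * n) (tl (rem 1 b)) * Dl (2 * n + 2) (cons x (rem 1 b)))) -
        R1 * R2 * (2 ^ (2 * n) * 2 ^ (2 * n) * 4) * (P ^ 2 * A * B) *
          (Dt (2 * n) (tl (rem 1 b)) * Dt (2 * n + 2) (cons x (rem 1 b))) := by ring
    _ = R1 * R2 * 4 ^ (2 * n + 1) * (P ^ 2 * A * B) *
        (4 ^ (2 * n ^ 2) * NN n x (rem 1 b) *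
          (Dl (2 * n) (tl (rem 1 b)) * Dl (2 * n + 2) (cons x (rem 1 b))) -
          Dt (2 * n) (tl (rem 1 b)) * Dt (2 * n + 2) (cons x (rem 1 b))) := by
      rw [hN, e4]; ring
    _ = 0 := by rw [hI, mul_zero]

theorem nf_k (n : ℕ) (ih : ∀ x b, nf_F n x b = 0) (x : ℝ) : ∀ k, 2 ≤ k → k ≤ 2 * n + 2 →
    ∀ b : ℕ → ℝ, b k = b 1 + π / 3 → nf_F (n + 1) x b = 0 := by
  intro k hk
  induction k, hk using Nat.le_induction with
  | base => intro _ b hb; exact nf_base n ih x b hb
  | succ k hk ihk =>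
    intro hk2 b hb
    have h1 := ihk (by omega) (sw k b) (by
      unfold sw
      rw [Equiv.swap_apply_left, Equiv.swap_apply_of_ne_of_ne (by omega) (by omega)]
      exact hb)
    rwa [nf_F_sw (by omega) (by omega)] at h1

/-! ### Genericity -/

/-- sign -/
def nf_s (e : Bool) : ℤ := if e then 1 else -1

/-- generic points -/
def nf_G (w : ℕ → ℝ) : Prop :=
  (∀ i j : ℕ, i ≠ j → ∀ k : ℤ, Real.sin (w i - w j + k * (π / 3)) ≠ 0 ∧
    Real.sin (w i + w j + k * (π / 3)) ≠ 0) ∧
  ∀ (i : ℕ) (k : ℤ), Real.sin (2 * w i + k * (π / 3)) ≠ 0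

theorem nf_gA {w : ℕ → ℝ} (h : nf_G w) {i j : ℕ} (hij : i ≠ j) (e e' : Bool) (k : ℤ) :
    Real.sin (nf_s e * w i + nf_s e' * w j + k * (π / 3)) ≠ 0 := by
  have h1 := h.1 i j hij k
  have h2 := h.1 i j hij (-k)
  cases e <;> cases e' <;> simp only [nf_s, if_true, Bool.false_eq_true, if_false]
  · rw [show ((-1 : ℤ) : ℝ) * w i + ((-1 : ℤ) : ℝ) * w j + (k : ℝ) * (π / 3) =
      -(w i + w j + ((-k : ℤ) : ℝ) * (π / 3)) by push_cast; ring, Real.sin_neg]
    exact neg_ne_zero.2 h2.2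
  · rw [show ((-1 : ℤ) : ℝ) * w i + ((1 : ℤ) : ℝ) * w j + (k : ℝ) * (π / 3) =
      -(w i - w j + ((-k : ℤ) : ℝ) * (π / 3)) by push_cast; ring, Real.sin_neg]
    exact neg_ne_zero.2 h2.1
  · rw [show ((1 : ℤ) : ℝ) * w i + ((-1 : ℤ) : ℝ) * w j + (k : ℝ) * (π / 3) =
      (w i - w j + (k : ℝ) * (π / 3)) by push_cast; ring]
    exact h1.1
  · rw [show ((1 : ℤ) : ℝ) * w i + ((1 : ℤ) : ℝ) * w j + (k : ℝ) * (π / 3) =
      (w i + w j + (k : ℝ) * (π / 3)) by push_cast; ring]
    exact h1.2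

theorem nf_gB {w : ℕ → ℝ} (h : nf_G w) (i : ℕ) (e : Bool) (k : ℤ) :
    Real.sin (nf_s e * (2 * w i) + k * (π / 3)) ≠ 0 := by
  have h1 := h.2 i k
  have h2 := h.2 i (-k)
  cases e <;> simp only [nf_s, if_true, Bool.false_eq_true, if_false]
  · rw [show ((-1 : ℤ) : ℝ) * (2 * w i) + (k : ℝ) * (π / 3) =
      -(2 * w i + ((-k : ℤ) : ℝ) * (π / 3)) by push_cast; ring, Real.sin_neg]
    exact neg_ne_zero.2 h2
  · rw [show ((1 : ℤ) : ℝ) * (2 * w i) + (k : ℝ) * (π / 3) =
      (2 * w i + (k : ℝ) * (π / 3)) by push_cast; ring]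
    exact h1

theorem nf_sin1 : Real.sin (π / 3) ≠ 0 := by
  rw [Real.sin_pi_div_three]; positivity

theorem nf_sin2 : Real.sin (2 * (π / 3)) ≠ 0 := by
  rw [show 2 * (π / 3) = π - π / 3 by ring, Real.sin_pi_sub]
  exact nf_sin1

theorem nf_gC (f : Bool) : Real.sin (nf_s f * (π / 3)) ≠ 0 := by
  cases f <;> simp only [nf_s, if_true, Bool.false_eq_true, if_false]
  · rw [show ((-1 : ℤ) : ℝ) * (π / 3) = -(π / 3) by push_cast; ring, Real.sin_neg]
    exact neg_ne_zero.2 nf_sin1
  · rw [show ((1 : ℤ) : ℝ) * (π / 3) = (π / 3) by push_cast; ring]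
    exact nf_sin1

/-- the interpolation nodes -/
noncomputable def nf_y (w : ℕ → ℝ) (l : ℕ × Bool × Bool) : ℝ :=
  nf_s l.2.1 * w l.1 + nf_s l.2.2 * (π / 3)

theorem nf_y_sub {w : ℕ → ℝ} (h : nf_G w) (l l' : ℕ × Bool × Bool) (hl : l ≠ l') :
    Real.sin (nf_y w l - nf_y w l') ≠ 0 := by
  obtain ⟨j, e, f⟩ := l
  obtain ⟨j', e', f'⟩ := l'
  unfold nf_y
  simp only
  have hneg : ∀ e : Bool, (nf_s (!e) : ℝ) = -(nf_s e : ℝ) := by
    intro e; cases e <;> simp [nf_s]
  by_cases hj : j = j'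
  · subst hj
    by_cases he : e = e'
    · subst he
      have hf : f ≠ f' := fun hf => hl (by rw [hf])
      cases f <;> cases f'
      · exact absurd rfl hf
      · simp only [nf_s, if_true, Bool.false_eq_true, if_false]
        rw [show ∀ z : ℝ, z + ((-1 : ℤ) : ℝ) * (π / 3) - (z + ((1 : ℤ) : ℝ) * (π / 3)) =
          -(2 * (π / 3)) by intro z; push_cast; ring, Real.sin_neg]
        exact neg_ne_zero.2 nf_sin2
      · simp only [nf_s, if_true, Bool.false_eq_true, if_false]
        rw [show ∀ z : ℝ, z + ((1 : ℤ) : ℝ) * (π / 3) - (z + ((-1 : ℤ) : ℝ) * (π / 3)) =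
          (2 * (π / 3)) by intro z; push_cast; ring]
        exact nf_sin2
      · exact absurd rfl hf
    · have he2 : e' = !e := by cases e <;> cases e' <;> simp_all
      rw [he2, hneg, show (nf_s e : ℝ) * w j + nf_s f * (π / 3) -
        (-(nf_s e : ℝ) * w j + nf_s f' * (π / 3)) =
        nf_s e * (2 * w j) + ((nf_s f - nf_s f' : ℤ) : ℝ) * (π / 3) by push_cast; ring]
      exact nf_gB h j e _
  · rw [show (nf_s e : ℝ) * w j + nf_s f * (π / 3) - (nf_s e' * w j' + nf_s f' * (π / 3)) =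
      nf_s e * w j + nf_s (!e') * w j' + ((nf_s f - nf_s f' : ℤ) : ℝ) * (π / 3) by
        rw [hneg]; push_cast; ring]
    exact nf_gA h hj e (!e') _

/-- non vanishing of the Weyl denominator conditions at the nodes -/
theorem nf_node {w : ℕ → ℝ} (h : nf_G w) (p : ℕ) (l : ℕ × Bool × Bool) (hl : l.1 ≠ p) :
    (∀ i, Real.sin (2 * Function.update w p (nf_y w l) i) ≠ 0) ∧
    ∀ i j, i ≠ j → Real.sin (Function.update w p (nf_y w l) i - Function.update w p (nf_y w l) j) ≠ 0 ∧
      Real.sin (Function.update w p (nf_y w l) i + Function.update w p (nf_y w l) j) ≠ 0 := by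
  obtain ⟨J, e, f⟩ := l
  simp only at hl
  have hneg : ∀ e : Bool, (nf_s (!e) : ℝ) = -(nf_s e : ℝ) := by
    intro e; cases e <;> simp [nf_s]
  have hy : ∀ (k : ℕ) (d : Bool), k ≠ p → Real.sin (nf_y w (J, e, f) + nf_s d * w k) ≠ 0 := by
    intro k d hk
    unfold nf_y
    simp only
    by_cases hkJ : k = J
    · subst hkJ
      by_cases hd : d = e
      · subst hd
        rw [show (nf_s d : ℝ) * w k + nf_s f * (π / 3) + nf_s d * w k =
          nf_s d * (2 * w k) + nf_s f * (π / 3) by ring]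
        exact nf_gB h k d _
      · have hd2 : d = !e := by cases e <;> cases d <;> simp_all
        rw [hd2, hneg, show (nf_s e : ℝ) * w k + nf_s f * (π / 3) + -(nf_s e : ℝ) * w k =
          nf_s f * (π / 3) by ring]
        exact nf_gC f
    · rw [show (nf_s e : ℝ) * w J + nf_s f * (π / 3) + nf_s d * w k =
        nf_s e * w J + nf_s d * w k + nf_s f * (π / 3) by ring]
      exact nf_gA h (fun h' => hkJ h'.symm) e d _
  have s1 : ((nf_s true : ℤ) : ℝ) = 1 := by simp [nf_s]
  have s2 : ((nf_s false : ℤ) : ℝ) = -1 := by simp [nf_s]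
  have hw0 : ∀ i j : ℕ, i ≠ j → Real.sin (w i - w j) ≠ 0 ∧ Real.sin (w i + w j) ≠ 0 := by
    intro i j hij
    have h1 := h.1 i j hij 0
    simpa using h1
  have hw1 : ∀ i : ℕ, Real.sin (2 * w i) ≠ 0 := by
    intro i
    have h1 := h.2 i 0
    simpa using h1
  constructor
  · intro i
    by_cases hi : i = p
    · rw [hi, Function.update_self]
      unfold nf_y
      simp only
      rw [show 2 * ((nf_s e : ℝ) * w J + nf_s f * (π / 3)) =
        nf_s e * (2 * w J) + ((2 * nf_s f : ℤ) : ℝ) * (π / 3) by push_cast; ring]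
      exact nf_gB h J e _
    · rw [Function.update_of_ne hi]
      exact hw1 i
  · intro i j hij
    by_cases hi : i = p
    · have hj : j ≠ p := fun h' => hij (hi.trans h'.symm)
      rw [hi, Function.update_self, Function.update_of_ne hj]
      have h1 := hy j true hj
      have h2 := hy j false hj
      rw [s1, one_mul] at h1
      rw [s2, show nf_y w (J, e, f) + -1 * w j = nf_y w (J, e, f) - w j by ring] at h2
      exact ⟨h2, h1⟩
    · by_cases hj : j = p
      · rw [hj, Function.update_self, Function.update_of_ne hi]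
        have h1 := hy i true hi
        have h2 := hy i false hi
        rw [s1, one_mul] at h1
        rw [s2, show nf_y w (J, e, f) + -1 * w i = -(w i - nf_y w (J, e, f)) by ring,
          Real.sin_neg] at h2
        refine ⟨neg_ne_zero.1 h2, ?_⟩
        rw [add_comm]
        exact h1
      · rw [Function.update_of_ne hi, Function.update_of_ne hj]
        exact hw0 i j hij

theorem nf_dense (w : ℕ → ℝ) :
    {t : ℝ | ¬ nf_G (fun k => w k + t * ((k : ℝ) + 1))}.Countable := by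
  have hsub : {t : ℝ | ¬ nf_G (fun k => w k + t * ((k : ℝ) + 1))} ⊆
      (⋃ i : ℕ, ⋃ j : ℕ, ⋃ k : ℤ, {t : ℝ | i ≠ j ∧
        Real.sin ((w i - w j + k * (π / 3)) + t * ((i : ℝ) - j)) = 0}) ∪
      (⋃ i : ℕ, ⋃ j : ℕ, ⋃ k : ℤ, {t : ℝ |
        Real.sin ((w i + w j + k * (π / 3)) + t * ((i : ℝ) + j + 2)) = 0}) := by
    intro t ht
    by_contra hcon
    apply ht
    simp only [Set.mem_union, Set.mem_iUnion, not_or, not_exists] at hcon
    obtain ⟨hc1, hc2⟩ := hcon
    refine ⟨?_, ?_⟩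
    · intro i j hij k
      constructor
      · intro h0
        apply hc1 i j k
        refine ⟨hij, ?_⟩
        rw [← h0]; congr 1; ring
      · intro h0
        apply hc2 i j k
        show Real.sin _ = 0
        rw [← h0]; congr 1; ring
    · intro i k h0
      apply hc2 i i k
      show Real.sin _ = 0
      rw [← h0]; congr 1; ring
  refine Set.Countable.mono hsub ?_
  apply Set.Countable.union
  · refine Set.countable_iUnion fun i => Set.countable_iUnion fun j => Set.countable_iUnion fun k => ?_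
    by_cases hij : i = j
    · have : {t : ℝ | i ≠ j ∧ Real.sin ((w i - w j + k * (π / 3)) + t * ((i : ℝ) - j)) = 0} = ∅ := by
        ext t; simp [hij]
      rw [this]; exact Set.countable_empty
    · refine Set.Countable.mono (fun t ht => ht.2) (countable_sin_zero' (w i - w j + k * (π / 3))
        ((i : ℝ) - j) (Or.inl ?_))
      intro h0
      apply hij
      have : (i : ℝ) = j := by linarith
      exact_mod_cast this
  · refine Set.countable_iUnion fun i => Set.countable_iUnion fun j => Set.countable_iUnion fun k => ?_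
    apply countable_sin_zero'
    left
    positivity

/-- the formula at generic points -/
theorem nf_generic (n : ℕ) (hn : 1 ≤ n) (ih : ∀ x b, nf_F n x b = 0) (x : ℝ) (b : ℕ → ℝ)
    (hG : nf_G (cons x b)) : nf_F (n + 1) x b = 0 := by
  set w := cons x b with hw
  have hwb : ∀ k, w (k + 1) = b k := fun k => by simp [hw, cons]
  have hw0 : ∀ i j : ℕ, i ≠ j → Real.sin (w i - w j) ≠ 0 ∧ Real.sin (w i + w j) ≠ 0 := by
    intro i j hij
    have h1 := hG.1 i j hij 0
    simpa using h1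
  have hw1 : ∀ i : ℕ, Real.sin (2 * w i) ≠ 0 := by
    intro i
    have h1 := hG.2 i 0
    simpa using h1
  have htl : ∀ k, tl b k = w (k + 2) := fun k => by rw [hwb (k + 1)]; rfl
  have htlu : ∀ y, tl (Function.update b 1 y) = Function.update (tl b) 0 y := by
    intro y; funext k
    unfold tl
    by_cases hk : k = 0
    · subst hk; simp
    · rw [Function.update_of_ne (by omega), Function.update_of_ne hk]
  have hcu : ∀ y, cons x (Function.update b 1 y) = Function.update w 2 y := by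
    intro y; funext k
    rcases k with _ | k
    · rw [Function.update_of_ne (by omega)]; simp [hw, cons]
    · simp only [cons, Nat.add_sub_cancel]
      by_cases hk : k = 1
      · subst hk; simp
      · rw [Function.update_of_ne (by omega), Function.update_of_ne (by omega), hwb]; simp
  obtain ⟨q1, hq1, hq1'⟩ := chi_quot (m := 2 * n + 2) (i := 0) (by omega) (tl b)
    (by
      intro j k _ _ _ _ hjk
      rw [htl, htl]
      exact hw0 _ _ (by omega))
    (by
      intro j _ _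
      rw [htl]
      exact hw1 _)
  obtain ⟨q2, hq2, hq2'⟩ := chi_quot (m := 2 * n + 4) (i := 2) (by omega) w
    (by
      intro j k _ _ _ _ hjk
      exact hw0 _ _ hjk)
    (by
      intro j _ _
      exact hw1 _)
  have hd : ∀ y, (4 ^ (2 * (n + 1) ^ 2) * NN (n + 1) x (Function.update b 1 y)) - q1 y * q2 y = 0 := by
    have hm1 : mu (2 * n + 2 - 1) = 3 * n + 2 := by unfold mu; omega
    have hm2 : mu (2 * n + 4 - 1) = 3 * n + 5 := by unfold mu; omega
    rw [hm1, show 2 * (3 * n + 2 - (2 * n + 2)) = 2 * n by omega] at hq1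
    rw [hm2, show 2 * (3 * n + 5 - (2 * n + 4)) = 2 * n + 2 by omega] at hq2
    have hTP := ((NN_TP (n := n + 1) (i := 1) (by omega) (by omega) x b).smul
      (4 ^ (2 * (n + 1) ^ 2))).sub (by
        have h3 := (hq1.mul hq2).mono 1
        rwa [show 2 * n + (2 * n + 2) + 2 * 1 = 4 * (n + 1) by ring] at h3)
    set T : Finset (ℕ × Bool × Bool) := Icc 3 (2 * n + 3) ×ˢ (univ : Finset (Bool × Bool)) with hT
    have hcard : T.card = 8 * n + 4 := by
      rw [hT, card_product]
      simp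
      ring
    have hinj : Set.InjOn (nf_y w) (T : Set (ℕ × Bool × Bool)) := by
      intro l _ l' _ h
      by_contra hne
      apply nf_y_sub hG l l' hne
      rw [h, sub_self, Real.sin_zero]
    apply hTP.eq_zero (T.image (nf_y w))
    · rw [card_image_of_injOn hinj, hcard]; omega
    · intro y hy z hz hyz
      obtain ⟨l, hl, rfl⟩ := mem_image.1 hy
      obtain ⟨l', hl', rfl⟩ := mem_image.1 hz
      exact nf_y_sub hG l l' (fun h => hyz (by rw [h]))
    · intro y hy
      obtain ⟨l, hl, rfl⟩ := mem_image.1 hy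
      have hl1 : 3 ≤ l.1 ∧ l.1 ≤ 2 * n + 3 := by
        rw [hT, mem_product, mem_Icc] at hl
        exact hl.1
      obtain ⟨k, hk⟩ : ∃ k, l.1 = k + 1 := ⟨l.1 - 1, by omega⟩
      have hnode := nf_node hG 2 l (by omega)
      -- the numerator vanishes
      set y := nf_y w l with hy'
      set b' := Function.update b 1 y with hb'
      have hb1 : b' 1 = y := by simp [hb']
      have hbk : b' k = w l.1 := by
        rw [hb', Function.update_of_ne (by omega), hk, hwb]
      have hF : nf_F (n + 1) x b' = 0 := by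
        have e0 : ∀ c : ℕ → ℝ, ng 1 c 1 = -c 1 := fun c => by simp [ng]
        have e1 : ∀ c : ℕ → ℝ, ng 1 c k = c k := fun c => by
          unfold ng; rw [Function.update_of_ne (by omega)]
        have e2 : ∀ c : ℕ → ℝ, ng k c 1 = c 1 := fun c => by
          unfold ng; rw [Function.update_of_ne (by omega)]
        have e3 : ∀ c : ℕ → ℝ, ng k c k = -c k := fun c => by simp [ng]
        have hyl : y = nf_s l.2.1 * b' k + nf_s l.2.2 * (π / 3) := by rw [hbk, hy']; rfl
        rcases l with ⟨J, e, f⟩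
        simp only at hyl
        cases e <;> cases f <;> simp [nf_s] at hyl
        · have h1 := nf_k n ih x k (by simp only at hk hl1; omega) (by simp only at hk hl1; omega)
            (ng k b') (by rw [e2, e3, hb1]; linarith)
          rwa [nf_F_ng (by simp only at hk hl1; omega) (by simp only at hk hl1; omega)] at h1
        · have h1 := nf_k n ih x k (by simp only at hk hl1; omega) (by simp only at hk hl1; omega)
            (ng 1 b') (by rw [e0, e1, hb1]; linarith)
          rwa [nf_F_ng (by omega) (by omega)] at h1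
        · exact nf_k n ih x k (by simp only at hk hl1; omega) (by simp only at hk hl1; omega)
            b' (by rw [hb1]; linarith)
        · have h1 := nf_k n ih x k (by simp only at hk hl1; omega) (by simp only at hk hl1; omega)
            (ng 1 (ng k b')) (by rw [e0, e1, e2, e3, hb1]; linarith)
          rwa [nf_F_ng (by omega) (by omega),
            nf_F_ng (by simp only at hk hl1; omega) (by simp only at hk hl1; omega)] at h1
      have hD1 : Dl (2 * n + 2) (tl b') ≠ 0 := by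
        rw [Dl_ne_zero_iff]
        have htb : ∀ i, tl b' i = Function.update w 2 y (i + 2) := by
          intro i
          rw [← hcu y]
          simp [cons, tl, hb']
        refine ⟨fun i _ => ?_, fun i j _ _ hij => ?_⟩
        · rw [htb]; exact hnode.1 _
        · rw [htb, htb]; exact hnode.2 _ _ (by omega)
      have hD2 : Dl (2 * n + 4) (cons x b') ≠ 0 := by
        rw [Dl_ne_zero_iff, hb', hcu]
        exact ⟨fun i _ => hnode.1 _, fun i j _ _ hij => hnode.2 _ _ hij⟩
      have hq1y := hq1' y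
      have hq2y := hq2' y
      rw [← htlu] at hq1y
      rw [← hcu] at hq2y
      unfold nf_F at hF
      rw [show 2 * (n + 1) = 2 * n + 2 by ring, show 2 * n + 2 + 2 = 2 * n + 4 by ring] at hF
      rw [hb'] at hF hD1 hD2
      rw [hq1y, hq2y] at hF
      have h5 : (4 ^ (2 * (n + 1) ^ 2) * NN (n + 1) x (Function.update b 1 y) - q1 y * q2 y) *
          (Dl (2 * n + 2) (tl (Function.update b 1 y)) *
            Dl (2 * n + 4) (cons x (Function.update b 1 y))) = 0 := by
        linear_combination hF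
      rcases mul_eq_zero.1 h5 with h6 | h6
      · exact h6
      · exact absurd h6 (mul_ne_zero hD1 hD2)
  have h1 := hd (b 1)
  have hq1y := hq1' (b 1)
  have hq2y := hq2' (b 1)
  have hu1 : Function.update (tl b) 0 (b 1) = tl b := by
    rw [← htlu, Function.update_eq_self]
  have hu2 : Function.update w 2 (b 1) = w := by
    rw [← hcu, Function.update_eq_self]
  rw [hu1] at hq1y
  rw [hu2] at hq2y
  rw [Function.update_eq_self] at h1
  unfold nf_F
  rw [show 2 * (n + 1) = 2 * n + 2 by ring, show 2 * n + 2 + 2 = 2 * n + 4 by ring, ← hw,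
    hq1y, hq2y]
  linear_combination (Dl (2 * n + 2) (tl b) * Dl (2 * n + 4) w) * h1

theorem nf_step (n : ℕ) (hn : 1 ≤ n) (ih : ∀ x b, nf_F n x b = 0) : ∀ x b, nf_F (n + 1) x b = 0 := by
  intro x b
  set w := cons x b with hw
  have hwc : ∀ v : ℕ → ℝ, cons (v 0) (fun k => v (k + 1)) = v := by
    intro v; funext k
    rcases k with _ | k
    · simp [cons]
    · simp [cons]
  have hcont : Continuous (fun t : ℝ => nf_F (n + 1) (w 0 + t * (((0 : ℕ) : ℝ) + 1))
      (fun k => w (k + 1) + t * (((k + 1 : ℕ) : ℝ) + 1))) := by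
    have hc1 : Continuous (fun t : ℝ => (fun k : ℕ => w (k + 1) + t * (((k + 1 : ℕ) : ℝ) + 1))) := by
      apply continuous_pi; intro k; fun_prop
    have hc0 : Continuous (fun t : ℝ => w 0 + t * (((0 : ℕ) : ℝ) + 1)) := by fun_prop
    have hN : Continuous (fun t : ℝ => NN (n + 1) (w 0 + t * (((0 : ℕ) : ℝ) + 1))
      (fun k => w (k + 1) + t * (((k + 1 : ℕ) : ℝ) + 1))) :=
      (NN_continuous (n + 1)).comp (hc0.prodMk hc1)
    have ht : Continuous (fun t : ℝ => tl (fun k => w (k + 1) + t * (((k + 1 : ℕ) : ℝ) + 1))) := by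
      apply continuous_pi; intro k; unfold tl; fun_prop
    have hc : Continuous (fun t : ℝ => cons (w 0 + t * (((0 : ℕ) : ℝ) + 1))
        (fun k => w (k + 1) + t * (((k + 1 : ℕ) : ℝ) + 1))) := by
      apply continuous_pi; intro k; unfold cons
      by_cases hk : k = 0
      · simp only [hk, if_true]; fun_prop
      · simp only [hk, if_false]; fun_prop
    unfold nf_F
    exact ((continuous_const.mul hN).mul (((Dl_Sep _).continuous.comp ht).mul
      ((Dl_Sep _).continuous.comp hc))).sub (((Dt_Sep _).continuous.comp ht).mul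
      ((Dt_Sep _).continuous.comp hc))
  have hdense := (nf_dense w).dense_compl ℝ
  have h1 : (fun t : ℝ => nf_F (n + 1) (w 0 + t * (((0 : ℕ) : ℝ) + 1))
      (fun k => w (k + 1) + t * (((k + 1 : ℕ) : ℝ) + 1))) = fun _ => 0 := by
    apply Continuous.ext_on hdense hcont continuous_const
    intro t ht
    have hG : nf_G (fun k => w k + t * ((k : ℝ) + 1)) := by
      by_contra h
      exact ht h
    apply nf_generic n hn ih
    have h9 := hwc (fun k => w k + t * ((k : ℝ) + 1))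
    have h10 : cons (w 0 + t * (((0 : ℕ) : ℝ) + 1)) (fun k => w (k + 1) + t * (((k + 1 : ℕ) : ℝ) + 1)) =
        fun k => w k + t * ((k : ℝ) + 1) := h9
    rw [h10]
    exact hG
  have h2 := congrFun h1 0
  simp only [zero_mul, add_zero] at h2
  have h3 : (fun k => w (k + 1)) = b := by funext k; simp [hw, cons]
  have h4 : w 0 = x := by simp [hw, cons]
  rwa [h3, h4] at h2

/-- the formula from the base case -/
theorem nf_form (h1 : ∀ (x : ℝ) (b : ℕ → ℝ), 16 * NN 1 x b =
    3 + ∑ j ∈ range 4, ∑ i ∈ range j, (2 * Real.cos (2 * cons x b i)) * (2 * Real.cos (2 * cons x b j)))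
    (n : ℕ) (hn : 1 ≤ n) (x : ℝ) (b : ℕ → ℝ) :
    4 ^ (2 * n ^ 2) * NN n x b * (Dl (2 * n) (tl b) * Dl (2 * n + 2) (cons x b)) =
      Dt (2 * n) (tl b) * Dt (2 * n + 2) (cons x b) := by
  have key : ∀ x b, nf_F n x b = 0 := by
    induction n, hn using Nat.le_induction with
    | base =>
      intro x b
      unfold nf_F
      have h2 := h1 x b
      rw [show 2 * 1 + 2 = 4 by norm_num, show 2 * 1 = 2 by norm_num, chi_four, Dt_two, ← h2]
      norm_num
      ring
    | succ n hn ih => exact nf_step n hn ih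
  have h2 := key x b
  unfold nf_F at h2
  linarith

end IP
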