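import Pool.Agent.Helper24.IPDet
/-! The value of the homogeneous limit. -/
namespace IP
open Finset Real

theorem chi0_succ (m : ℕ) : chi0 (m + 1) = chi0 m * ((mu m : ℝ) / ((m : ℝ) + 1) *
    ∏ i ∈ range m, (((mu m : ℝ) ^ 2 - (mu i : ℝ) ^ 2) / (((m : ℝ) + 1) ^ 2 - ((i : ℝ) + 1) ^ 2))) := by
  unfold chi0
  rw [prod_range_succ, prod_range_succ]
  ring

theorem mu_even (q : ℕ) : mu (2 * q) = 3 * q + 1 := by unfold mu; omega
theorem mu_odd (q : ℕ) : mu (2 * q + 1) = 3 * q + 2 := by unfold mu; omega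
theorem mu_lt {i m : ℕ} (h : i < m) : mu i < mu m := by unfold mu; omega
theorem mu_pos (m : ℕ) : 0 < mu m := by unfold mu; omega

theorem chi0_pos (m : ℕ) : 0 < chi0 m := by
  unfold chi0
  apply mul_pos
  · apply prod_pos
    intro i _
    have : (0 : ℝ) < mu i := by exact_mod_cast mu_pos i
    positivity
  · apply prod_pos
    intro j _
    apply prod_pos
    intro i hi
    have hi' : i < j := mem_range.1 hi
    have h1 : (mu i : ℝ) < mu j := by exact_mod_cast mu_lt hi'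
    have h2 : (0 : ℝ) < mu i := by exact_mod_cast mu_pos i
    have h3 : (i : ℝ) < j := by exact_mod_cast hi'
    apply div_pos
    · nlinarith
    · have : (0 : ℝ) ≤ i := Nat.cast_nonneg i
      nlinarith

theorem prod_pair (f : ℕ → ℝ) (n : ℕ) :
    ∏ i ∈ range (2 * n), f i = ∏ q ∈ range n, (f (2 * q) * f (2 * q + 1)) := by
  induction n with
  | zero => simp
  | succ n ih =>
    rw [show 2 * (n + 1) = 2 * n + 1 + 1 by ring, prod_range_succ, prod_range_succ, ih,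
      prod_range_succ]
    ring

theorem prod_sq_sub (m : ℕ) : ((m : ℝ) + 1) * ∏ i ∈ range m, (((m : ℝ) + 1) ^ 2 - ((i : ℝ) + 1) ^ 2) =
    (2 * m + 1).factorial := by
  have h1 : ∀ i ∈ range m, (((m : ℝ) + 1) ^ 2 - ((i : ℝ) + 1) ^ 2) =
      ((m : ℝ) - i) * ((m : ℝ) + i + 2) := by
    intro i _; ring
  rw [prod_congr rfl h1, prod_mul_distrib]
  have h2 : ∏ i ∈ range m, ((m : ℝ) - i) = m.factorial := by
    rw [← prod_range_add_one_eq_factorial]
    push_cast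
    rw [← prod_range_reflect]
    apply prod_congr rfl
    intro i hi
    have hi' := mem_range.1 hi
    rw [Nat.cast_sub (by omega), Nat.cast_sub (by omega)]
    push_cast; ring
  have h3 : ∀ k : ℕ, (((m + 1).factorial : ℕ) : ℝ) * ∏ i ∈ range k, ((m : ℝ) + i + 2) =
      (m + 1 + k).factorial := by
    intro k
    induction k with
    | zero => simp
    | succ k ih =>
      rw [prod_range_succ, ← mul_assoc, ih, show m + 1 + (k + 1) = (m + 1 + k) + 1 by ring,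
        Nat.factorial_succ (m + 1 + k)]
      push_cast
      ring
  rw [h2, show 2 * m + 1 = m + 1 + m by ring, ← h3 m, Nat.factorial_succ m]
  push_cast
  ring

theorem prod_mu_even (n : ℕ) : ∏ i ∈ range (2 * n), ((mu (2 * n) : ℝ) ^ 2 - (mu i : ℝ) ^ 2) =
    ∏ q ∈ range (2 * n), ((3 * (q : ℝ) + 2) * (3 * q + 3)) := by
  rw [prod_pair, show range (2 * n) = range (n + n) by rw [two_mul], prod_range_add]
  have h1 : ∀ q ∈ range n, ((mu (2 * n) : ℝ) ^ 2 - (mu (2 * q) : ℝ) ^ 2) *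
      ((mu (2 * n) : ℝ) ^ 2 - (mu (2 * q + 1) : ℝ) ^ 2) =
      ((3 * ((n - 1 - q : ℕ) : ℝ) + 2) * (3 * ((n - 1 - q : ℕ) : ℝ) + 3)) *
      ((3 * ((n + q : ℕ) : ℝ) + 2) * (3 * ((n + q : ℕ) : ℝ) + 3)) := by
    intro q hq
    have hq' := mem_range.1 hq
    rw [mu_even, mu_even, mu_odd, Nat.cast_sub (by omega), Nat.cast_sub (by omega)]
    push_cast
    ring
  rw [prod_congr rfl h1, prod_mul_distrib,
    prod_range_reflect (fun q : ℕ => ((3 * (q : ℝ) + 2) * (3 * q + 3))) n]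

theorem prod_mu_odd (n : ℕ) : ∏ i ∈ range (2 * n + 1), ((mu (2 * n + 1) : ℝ) ^ 2 - (mu i : ℝ) ^ 2) =
    ∏ q ∈ range (2 * n + 1), ((3 * (q : ℝ) + 1) * (3 * q + 3)) := by
  rw [prod_range_succ, prod_pair]
  have h1 : ∀ q ∈ range n, ((mu (2 * n + 1) : ℝ) ^ 2 - (mu (2 * q) : ℝ) ^ 2) *
      ((mu (2 * n + 1) : ℝ) ^ 2 - (mu (2 * q + 1) : ℝ) ^ 2) =
      ((3 * ((n - 1 - q : ℕ) : ℝ) + 4) * (3 * ((n - 1 - q : ℕ) : ℝ) + 3)) *
      ((3 * ((n + q : ℕ) : ℝ) + 3) * (3 * ((n + q : ℕ) : ℝ) + 4)) := by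
    intro q hq
    have hq' := mem_range.1 hq
    rw [mu_even, mu_odd, mu_odd, Nat.cast_sub (by omega), Nat.cast_sub (by omega)]
    push_cast
    ring
  rw [prod_congr rfl h1, prod_mul_distrib,
    prod_range_reflect (fun q : ℕ => ((3 * (q : ℝ) + 4) * (3 * q + 3))) n]
  have h2 : ∏ q ∈ range (2 * n + 1), ((3 * (q : ℝ) + 1) * (3 * q + 3)) =
      (∏ q ∈ range (2 * n + 1), (3 * (q : ℝ) + 1)) * ∏ q ∈ range (2 * n + 1), (3 * (q : ℝ) + 3) :=
    prod_mul_distrib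
  have h3 : ∏ q ∈ range (2 * n + 1), (3 * (q : ℝ) + 1) = ∏ q ∈ range (2 * n), (3 * (q : ℝ) + 4) := by
    rw [prod_range_succ']
    simp only [Nat.cast_zero, mul_zero, zero_add, mul_one]
    apply prod_congr rfl
    intro q _; push_cast; ring
  have h4 : ∏ q ∈ range (2 * n + 1), (3 * (q : ℝ) + 3) =
      (∏ q ∈ range (2 * n), (3 * (q : ℝ) + 3)) * (6 * n + 3) := by
    rw [prod_range_succ]; push_cast; ring
  rw [h2, h3, h4, show range (2 * n) = range (n + n) by rw [two_mul], prod_range_add, prod_range_add,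
    prod_mul_distrib, prod_mul_distrib, mu_even, mu_odd]
  push_cast
  ring

theorem chi0_ratio (m : ℕ) : chi0 (m + 1) * ((2 * m + 1).factorial : ℝ) = chi0 m *
    ((mu m : ℝ) * ∏ i ∈ range m, ((mu m : ℝ) ^ 2 - (mu i : ℝ) ^ 2)) := by
  rw [chi0_succ, prod_div_distrib, ← prod_sq_sub m]
  have h1 : ((m : ℝ) + 1) ≠ 0 := by positivity
  have h2 : ∏ i ∈ range m, (((m : ℝ) + 1) ^ 2 - ((i : ℝ) + 1) ^ 2) ≠ 0 := by
    rw [prod_ne_zero_iff]
    intro i hi
    have hi' : (i : ℝ) < m := by exact_mod_cast mem_range.1 hi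
    have : (0 : ℝ) ≤ i := Nat.cast_nonneg i
    apply ne_of_gt
    nlinarith
  field_simp

/-- the closed formula -/
theorem chi0_value (n : ℕ) : chi0 (2 * n) * chi0 (2 * n + 2) / (chi0 (2 * n + 1) * chi0 (2 * n + 1)) =
    3 * (3 * n + 2) / (2 * (3 * n + 1) * (4 * n + 3)) *
      (∏ j ∈ range (2 * n + 1), (3 * (j : ℝ) + 1)) / ∏ j ∈ range (2 * n), (3 * (j : ℝ) + 2) := by
  have h1 := chi0_ratio (2 * n)
  have h2 := chi0_ratio (2 * n + 1)
  rw [prod_mu_even, prod_mul_distrib, mu_even] at h1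
  rw [prod_mu_odd, prod_mul_distrib, mu_odd] at h2
  have p0 := chi0_pos (2 * n)
  have p1 := chi0_pos (2 * n + 1)
  have p2 := chi0_pos (2 * n + 2)
  have hA : (0 : ℝ) < ∏ j ∈ range (2 * n), (3 * (j : ℝ) + 2) := prod_pos (fun j _ => by positivity)
  have hB : (0 : ℝ) < ∏ j ∈ range (2 * n), (3 * (j : ℝ) + 3) := prod_pos (fun j _ => by positivity)
  have hC : (0 : ℝ) < ∏ j ∈ range (2 * n + 1), (3 * (j : ℝ) + 1) := prod_pos (fun j _ => by positivity)
  have hB1 : ∏ j ∈ range (2 * n + 1), (3 * (j : ℝ) + 3) =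
      (∏ j ∈ range (2 * n), (3 * (j : ℝ) + 3)) * (6 * n + 3) := by
    rw [prod_range_succ]; push_cast; ring
  have hf : ((2 * (2 * n + 1) + 1).factorial : ℝ) =
      (4 * n + 3) * (4 * n + 2) * ((2 * (2 * n) + 1).factorial : ℝ) := by
    rw [show 2 * (2 * n + 1) + 1 = (2 * (2 * n) + 1) + 1 + 1 by ring, Nat.factorial_succ,
      Nat.factorial_succ]
    push_cast; ring
  have hF : (0 : ℝ) < ((2 * (2 * n) + 1).factorial : ℝ) := by exact_mod_cast Nat.factorial_pos _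
  rw [hB1, hf] at h2
  set A := ∏ j ∈ range (2 * n), (3 * (j : ℝ) + 2)
  set B := ∏ j ∈ range (2 * n), (3 * (j : ℝ) + 3)
  set C := ∏ j ∈ range (2 * n + 1), (3 * (j : ℝ) + 1)
  set F := ((2 * (2 * n) + 1).factorial : ℝ)
  set x := chi0 (2 * n)
  set y := chi0 (2 * n + 1)
  have e2 : chi0 (2 * n + 2) = chi0 (2 * n + 1 + 1) := rfl
  rw [e2]
  set z := chi0 (2 * n + 1 + 1)
  push_cast at h1 h2
  have k1 : x = y * F / ((3 * n + 1) * (A * B)) := by
    rw [eq_div_iff (by positivity)]; linarith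
  have k2 : z = y * ((3 * n + 2) * (C * (B * (6 * n + 3)))) / ((4 * n + 3) * (4 * n + 2) * F) := by
    rw [eq_div_iff (by positivity)]; linarith
  rw [k1, k2]
  have hy : y ≠ 0 := ne_of_gt p1
  field_simp
  ring
end IP
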