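import Mathlib
import Pool.Agent.Helper24.Body

open scoped RealInnerProductSpace
open Metric Filter Topology

namespace Pool.Agent.Helper24

variable {d : ℕ} {ι κ : Type} [Fintype ι] [Fintype κ]

/-- the convex body -/
def bodyC (u : ι → E d) (α : ι → ℝ) (v : κ → E d) (β : κ → ℝ) (ε : ℝ) : Set (E d) :=
  {x | ‖x‖ ≤ 2 ∧ ff' u α v β ε x ≤ 1}

section
variable {u : ι → E d} {α : ι → ℝ} {v : κ → E d} {β : κ → ℝ} {ε : ℝ}

theorem bodyC_convex (h : ConvexOn ℝ (closedBall (0 : E d) 2) (ff' u α v β ε)) :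
    Convex ℝ (bodyC u α v β ε) := by
  have := h.convex_le 1
  convert this using 1
  ext x
  simp [bodyC]

theorem bodyC_closed : IsClosed (bodyC u α v β ε) := by
  apply IsClosed.inter
  · exact isClosed_le continuous_norm continuous_const
  · exact isClosed_le (continuous_ff' u α v β ε) continuous_const

theorem bodyC_compact : IsCompact (bodyC u α v β ε) := by
  apply (isCompact_closedBall (0 : E d) 2).of_isClosed_subset bodyC_closed
  intro x hx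
  simpa using hx.1

theorem open_sub : {x : E d | ‖x‖ < 2 ∧ ff' u α v β ε x < 1} ⊆ interior (bodyC u α v β ε) := by
  apply interior_maximal
  · intro x hx
    exact ⟨hx.1.le, hx.2.le⟩
  · apply IsOpen.inter
    · exact isOpen_lt continuous_norm continuous_const
    · exact isOpen_lt (continuous_ff' u α v β ε) continuous_const

theorem bodyC_interior : (interior (bodyC u α v β ε)).Nonempty := by
  refine ⟨0, open_sub ⟨by simp, ?_⟩⟩
  simp [ff', S3, S4]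

theorem bodyC_frontier (h : ∀ x ∈ closedBall (0 : E d) 2, |ε * (S3 u α x + S4 v β x)| ≤ 1 / 2)
    {x : E d} (hx : x ∈ frontier (bodyC u α v β ε)) : ‖x‖ ≤ 2 ∧ ff' u α v β ε x = 1 := by
  have h1 : x ∈ bodyC u α v β ε := bodyC_closed.frontier_subset hx
  have h2 : x ∉ interior (bodyC u α v β ε) := by
    rw [frontier, Set.mem_sdiff] at hx
    exact hx.2
  refine ⟨h1.1, le_antisymm h1.2 ?_⟩
  by_contra hlt
  push Not at hlt
  rcases lt_or_eq_of_le h1.1 with h3 | h3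
  · exact h2 (open_sub ⟨h3, hlt⟩)
  · have h4 := h x (by simp [h3])
    have h5 := (abs_le.mp h4).1
    have h6 : ff' u α v β ε x = ‖x‖ ^ 2 + ε * (S3 u α x + S4 v β x) := by
      rw [ff', real_inner_self_eq_norm_sq]
    rw [h6, h3] at hlt
    linarith

end

/-- remainder of the first difference -/
noncomputable def B1 (u : ι → E d) (α : ι → ℝ) (v : κ → E d) (β : κ → ℝ) (a x e : E d) : ℝ :=
  (∑ m, α m * (⟪u m, e⟫ * (3 * ⟪u m, a⟫ ^ 2 + 3 * ⟪u m, a⟫ * ⟪u m, x⟫ + ⟪u m, x⟫ ^ 2)))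
  + ∑ m, β m * (⟪v m, e⟫ * (4 * ⟪v m, a⟫ ^ 3 + 6 * ⟪v m, a⟫ ^ 2 * ⟪v m, x⟫
          + 4 * ⟪v m, a⟫ * ⟪v m, x⟫ ^ 2 + ⟪v m, x⟫ ^ 3))

/-- remainder of the second difference -/
noncomputable def B2 (u : ι → E d) (α : ι → ℝ) (v : κ → E d) (β : κ → ℝ) (a x y e f : E d) : ℝ :=
  (∑ m, α m * (⟪u m, e⟫ * ⟪u m, f⟫ * (6 * ⟪u m, a⟫ + 3 * ⟪u m, x⟫ + 3 * ⟪u m, y⟫)))
  + ∑ m, β m * (⟪v m, e⟫ * ⟪v m, f⟫ * (12 * ⟪v m, a⟫ ^ 2
          + 12 * ⟪v m, a⟫ * (⟪v m, x⟫ + ⟪v m, y⟫)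
          + 4 * ⟪v m, x⟫ ^ 2 + 6 * ⟪v m, x⟫ * ⟪v m, y⟫ + 4 * ⟪v m, y⟫ ^ 2))

theorem Tf_smul (u : ι → E d) (α : ι → ℝ) (r s t : ℝ) (x y z : E d) :
    Tf u α (r • x) (s • y) (t • z) = r * s * t * Tf u α x y z := by
  simp only [Tf, inner_smul_right, Finset.mul_sum]
  refine Finset.sum_congr rfl fun m _ => ?_
  ring

theorem Qf_smul (v : κ → E d) (β : κ → ℝ) (r s t q : ℝ) (x y z w : E d) :
    Qf v β (r • x) (s • y) (t • z) (q • w) = r * s * t * q * Qf v β x y z w := by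
  simp only [Qf, inner_smul_right, Finset.mul_sum]
  refine Finset.sum_congr rfl fun m _ => ?_
  ring

section
variable {u : ι → E d} {α : ι → ℝ} {v : κ → E d} {β : κ → ℝ} {ε : ℝ}

theorem J1 {a x e : E d} {r : ℝ} (hr : r ≠ 0) (hx : x = r • e)
    (h0 : ff' u α v β ε a = 1) (h1 : ff' u α v β ε (a + x) = 1) :
    2 * ⟪a, e⟫ + ⟪x, e⟫ + ε * B1 u α v β a x e = 0 := by
  have k : r * (2 * ⟪a, e⟫ + ⟪x, e⟫ + ε * B1 u α v β a x e) = 0 := by
    have e3 : S3 u α (a + x) - S3 u α a = r * ∑ m, α m * (⟪u m, e⟫ * (3 * ⟪u m, a⟫ ^ 2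
        + 3 * ⟪u m, a⟫ * ⟪u m, x⟫ + ⟪u m, x⟫ ^ 2)) := by
      rw [S3_diff1, Finset.mul_sum]
      refine Finset.sum_congr rfl fun m _ => ?_
      have : ⟪u m, x⟫ * (3 * ⟪u m, a⟫ ^ 2 + 3 * ⟪u m, a⟫ * ⟪u m, x⟫ + ⟪u m, x⟫ ^ 2)
        = (r * ⟪u m, e⟫) * (3 * ⟪u m, a⟫ ^ 2 + 3 * ⟪u m, a⟫ * ⟪u m, x⟫ + ⟪u m, x⟫ ^ 2) := by
        congr 1
        rw [hx, inner_smul_right]
      rw [this]; ring
    have e4 : S4 v β (a + x) - S4 v β a = r * ∑ m, β m * (⟪v m, e⟫ * (4 * ⟪v m, a⟫ ^ 3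
        + 6 * ⟪v m, a⟫ ^ 2 * ⟪v m, x⟫ + 4 * ⟪v m, a⟫ * ⟪v m, x⟫ ^ 2 + ⟪v m, x⟫ ^ 3)) := by
      rw [S4_diff1, Finset.mul_sum]
      refine Finset.sum_congr rfl fun m _ => ?_
      have : ⟪v m, x⟫ * (4 * ⟪v m, a⟫ ^ 3
        + 6 * ⟪v m, a⟫ ^ 2 * ⟪v m, x⟫ + 4 * ⟪v m, a⟫ * ⟪v m, x⟫ ^ 2 + ⟪v m, x⟫ ^ 3)
        = (r * ⟪v m, e⟫) * (4 * ⟪v m, a⟫ ^ 3
        + 6 * ⟪v m, a⟫ ^ 2 * ⟪v m, x⟫ + 4 * ⟪v m, a⟫ * ⟪v m, x⟫ ^ 2 + ⟪v m, x⟫ ^ 3) := by
        congr 1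
        rw [hx, inner_smul_right]
      rw [this]; ring
    have e5 : ⟪a + x, a + x⟫ - ⟪a, a⟫ = r * (2 * ⟪a, e⟫ + ⟪x, e⟫) := by
      have h2 : ⟪a, x⟫ = r * ⟪a, e⟫ := by rw [hx, inner_smul_right]
      have h3 : ⟪x, x⟫ = r * ⟪x, e⟫ := by
        conv_lhs => rw [show ⟪x, x⟫ = ⟪x, r • e⟫ by rw [← hx]]
        rw [inner_smul_right]
      rw [inner_add_left, inner_add_right, inner_add_right, real_inner_comm a x, h3]
      rw [real_inner_comm, h2]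
      ring
    simp only [ff'] at h0 h1
    rw [B1]
    linear_combination h1 - h0 - e5 - ε * e3 - ε * e4
  exact (mul_eq_zero.mp k).resolve_left hr

theorem J2 {a x y e f : E d} {r s : ℝ} (hr : r ≠ 0) (hs : s ≠ 0) (hx : x = r • e) (hy : y = s • f)
    (h0 : ff' u α v β ε a = 1) (h1 : ff' u α v β ε (a + x) = 1) (h2 : ff' u α v β ε (a + y) = 1)
    (h3 : ff' u α v β ε (a + x + y) = 1) :
    2 * ⟪e, f⟫ + ε * B2 u α v β a x y e f = 0 := by
  have k : (r * s) * (2 * ⟪e, f⟫ + ε * B2 u α v β a x y e f) = 0 := by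
    have e3 : S3 u α (a + x + y) - S3 u α (a + x) - S3 u α (a + y) + S3 u α a
        = (r * s) * ∑ m, α m * (⟪u m, e⟫ * ⟪u m, f⟫
          * (6 * ⟪u m, a⟫ + 3 * ⟪u m, x⟫ + 3 * ⟪u m, y⟫)) := by
      rw [S3_diff2, Finset.mul_sum]
      refine Finset.sum_congr rfl fun m _ => ?_
      have : ⟪u m, x⟫ * ⟪u m, y⟫ = (r * s) * (⟪u m, e⟫ * ⟪u m, f⟫) := by
        rw [hx, hy, inner_smul_right, inner_smul_right]; ring
      rw [this]; ring
    have e4 : S4 v β (a + x + y) - S4 v β (a + x) - S4 v β (a + y) + S4 v β a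
        = (r * s) * ∑ m, β m * (⟪v m, e⟫ * ⟪v m, f⟫ * (12 * ⟪v m, a⟫ ^ 2
          + 12 * ⟪v m, a⟫ * (⟪v m, x⟫ + ⟪v m, y⟫)
          + 4 * ⟪v m, x⟫ ^ 2 + 6 * ⟪v m, x⟫ * ⟪v m, y⟫ + 4 * ⟪v m, y⟫ ^ 2)) := by
      rw [S4_diff2, Finset.mul_sum]
      refine Finset.sum_congr rfl fun m _ => ?_
      have : ⟪v m, x⟫ * ⟪v m, y⟫ = (r * s) * (⟪v m, e⟫ * ⟪v m, f⟫) := by
        rw [hx, hy, inner_smul_right, inner_smul_right]; ring
      rw [this]; ring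
    have e5 : ⟪a + x + y, a + x + y⟫ - ⟪a + x, a + x⟫ - ⟪a + y, a + y⟫ + ⟪a, a⟫
        = 2 * ((r * s) * ⟪e, f⟫) := by
      have : (r * s) * ⟪e, f⟫ = ⟪x, y⟫ := by
        rw [hx, hy, inner_smul_left, inner_smul_right]
        simp
        ring
      rw [this]
      simp only [inner_add_left, inner_add_right, real_inner_comm x a, real_inner_comm y a,
        real_inner_comm y x]
      ring
    simp only [ff'] at h0 h1 h2 h3
    rw [B2]
    linear_combination h3 - h1 - h2 + h0 - e5 - ε * e3 - ε * e4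
  exact (mul_eq_zero.mp k).resolve_left (mul_ne_zero hr hs)

theorem J3 {a x y z e f g : E d} {r s t : ℝ} (hε : ε ≠ 0) (hr : r ≠ 0) (hs : s ≠ 0) (ht : t ≠ 0)
    (hx : x = r • e) (hy : y = s • f) (hz : z = t • g)
    (h0 : ff' u α v β ε a = 1) (h1 : ff' u α v β ε (a + x) = 1) (h2 : ff' u α v β ε (a + y) = 1)
    (h3 : ff' u α v β ε (a + z) = 1) (h12 : ff' u α v β ε (a + x + y) = 1)
    (h13 : ff' u α v β ε (a + x + z) = 1) (h23 : ff' u α v β ε (a + y + z) = 1)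
    (h123 : ff' u α v β ε (a + x + y + z) = 1) :
    Tf u α e f g + 4 * Qf v β (a + (1/2 : ℝ) • (x + y + z)) e f g = 0 := by
  have hT : Tf u α x y z = r * s * t * Tf u α e f g := by
    rw [hx, hy, hz, Tf_smul]
  have hQ : Qf v β (a + (1/2 : ℝ) • (x + y + z)) x y z
      = r * s * t * Qf v β (a + (1/2 : ℝ) • (x + y + z)) e f g := by
    have : ∀ c : E d, Qf v β c x y z = r * s * t * Qf v β c e f g := by
      intro c
      have := Qf_smul v β 1 r s t c e f g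
      rw [one_smul, ← hx, ← hy, ← hz] at this
      rw [this]; ring
    exact this _
  have e3 := S3_diff3 u α a x y z
  have e4 := S4_diff3 v β a x y z
  have e5 : ⟪a + x + y + z, a + x + y + z⟫ - ⟪a + x + y, a + x + y⟫ - ⟪a + x + z, a + x + z⟫
      - ⟪a + y + z, a + y + z⟫ + ⟪a + x, a + x⟫ + ⟪a + y, a + y⟫ + ⟪a + z, a + z⟫ - ⟪a, a⟫ = 0 := by
    simp only [inner_add_left, inner_add_right, real_inner_comm x a, real_inner_comm y a,
        real_inner_comm y x, real_inner_comm z a, real_inner_comm z x, real_inner_comm z y]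
    ring
  simp only [ff'] at h0 h1 h2 h3 h12 h13 h23 h123
  have k : (6 * ε * (r * s * t)) * (Tf u α e f g
      + 4 * Qf v β (a + (1/2 : ℝ) • (x + y + z)) e f g) = 0 := by
    linear_combination h123 - h12 - h13 - h23 + h1 + h2 + h3 - h0 - e5 - ε * e3 - ε * e4
      - 6 * ε * hT - 24 * ε * hQ
  refine (mul_eq_zero.mp k).resolve_left ?_
  have h6 : (6 : ℝ) ≠ 0 := by norm_num
  exact mul_ne_zero (mul_ne_zero h6 hε) (mul_ne_zero (mul_ne_zero hr hs) ht)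

theorem J4 {a x y z w e f g h : E d} {r s t q : ℝ} (hε : ε ≠ 0) (hr : r ≠ 0) (hs : s ≠ 0)
    (ht : t ≠ 0) (hq : q ≠ 0)
    (hx : x = r • e) (hy : y = s • f) (hz : z = t • g) (hw : w = q • h)
    (h0 : ff' u α v β ε a = 1) (h1 : ff' u α v β ε (a + x) = 1) (h2 : ff' u α v β ε (a + y) = 1)
    (h3 : ff' u α v β ε (a + z) = 1) (h4 : ff' u α v β ε (a + w) = 1)
    (h12 : ff' u α v β ε (a + x + y) = 1)
    (h13 : ff' u α v β ε (a + x + z) = 1) (h23 : ff' u α v β ε (a + y + z) = 1)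
    (h14 : ff' u α v β ε (a + x + w) = 1) (h24 : ff' u α v β ε (a + y + w) = 1)
    (h34 : ff' u α v β ε (a + z + w) = 1)
    (h123 : ff' u α v β ε (a + x + y + z) = 1) (h124 : ff' u α v β ε (a + x + y + w) = 1)
    (h134 : ff' u α v β ε (a + x + z + w) = 1) (h234 : ff' u α v β ε (a + y + z + w) = 1)
    (h1234 : ff' u α v β ε (a + x + y + z + w) = 1) :
    Qf v β e f g h = 0 := by
  have hQ : Qf v β x y z w = r * s * t * q * Qf v β e f g h := by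
    rw [hx, hy, hz, hw, Qf_smul]
  have e3 := S3_diff4 u α a x y z w
  have e4 := S4_diff4 v β a x y z w
  have e5 : ⟪a + x + y + z + w, a + x + y + z + w⟫ - ⟪a + x + y + z, a + x + y + z⟫
      - ⟪a + x + y + w, a + x + y + w⟫ - ⟪a + x + z + w, a + x + z + w⟫
      - ⟪a + y + z + w, a + y + z + w⟫
      + ⟪a + x + y, a + x + y⟫ + ⟪a + x + z, a + x + z⟫ + ⟪a + y + z, a + y + z⟫
      + ⟪a + x + w, a + x + w⟫ + ⟪a + y + w, a + y + w⟫ + ⟪a + z + w, a + z + w⟫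
      - ⟪a + x, a + x⟫ - ⟪a + y, a + y⟫ - ⟪a + z, a + z⟫ - ⟪a + w, a + w⟫ + ⟪a, a⟫ = 0 := by
    simp only [inner_add_left, inner_add_right, real_inner_comm x a, real_inner_comm y a,
        real_inner_comm y x, real_inner_comm z a, real_inner_comm z x, real_inner_comm z y,
        real_inner_comm w a, real_inner_comm w x, real_inner_comm w y, real_inner_comm w z]
    ring
  simp only [ff'] at h0 h1 h2 h3 h4 h12 h13 h23 h14 h24 h34 h123 h124 h134 h234 h1234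
  have k : (24 * ε * (r * s * t * q)) * Qf v β e f g h = 0 := by
    linear_combination h1234 - h123 - h124 - h134 - h234 + h12 + h13 + h23 + h14 + h24 + h34
      - h1 - h2 - h3 - h4 + h0 - e5 - ε * e3 - ε * e4 - 24 * ε * hQ
  refine (mul_eq_zero.mp k).resolve_left ?_
  have h6 : (24 : ℝ) ≠ 0 := by norm_num
  exact mul_ne_zero (mul_ne_zero h6 hε) (mul_ne_zero (mul_ne_zero (mul_ne_zero hr hs) ht) hq)

end

end Pool.Agent.Helper24
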