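import Mathlib
import Pool.Agent.Helper24.Reduction

open scoped RealInnerProductSpace
open Metric Filter Topology

namespace Pool.Agent.Helper24

variable {d : ℕ} {ι κ : Type} [Fintype ι] [Fintype κ]
variable {u : ι → E d} {α : ι → ℝ} {v : κ → E d} {β : κ → ℝ}

theorem continuous_B1 : Continuous (fun t : E d × E d × E d => B1 u α v β t.1 t.2.1 t.2.2) := by
  unfold B1
  fun_prop

theorem continuous_B2 : Continuous (fun t : E d × E d × E d × E d × E d =>
    B2 u α v β t.1 t.2.1 t.2.2.1 t.2.2.2.1 t.2.2.2.2) := by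
  unfold B2
  fun_prop

theorem tendsto_B1 {a x e : ℕ → E d} {A X F : E d} (ha : Tendsto a atTop (𝓝 A))
    (hx : Tendsto x atTop (𝓝 X)) (he : Tendsto e atTop (𝓝 F)) :
    Tendsto (fun n => B1 u α v β (a n) (x n) (e n)) atTop (𝓝 (B1 u α v β A X F)) := by
  have h : Tendsto (fun n => (a n, x n, e n)) atTop (𝓝 (A, X, F)) :=
    ha.prodMk_nhds (hx.prodMk_nhds he)
  have h1 := (continuous_B1 (u := u) (α := α) (v := v) (β := β)).tendsto (A, X, F)
  have h2 := Tendsto.comp (g := fun t : E d × E d × E d => B1 u α v β t.1 t.2.1 t.2.2)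
    (f := fun n => (a n, x n, e n)) h1 h
  simpa only [Function.comp_def] using h2

theorem tendsto_B2 {a x y e f : ℕ → E d} {A X Y F G : E d} (ha : Tendsto a atTop (𝓝 A))
    (hx : Tendsto x atTop (𝓝 X)) (hy : Tendsto y atTop (𝓝 Y)) (he : Tendsto e atTop (𝓝 F))
    (hf : Tendsto f atTop (𝓝 G)) :
    Tendsto (fun n => B2 u α v β (a n) (x n) (y n) (e n) (f n)) atTop
      (𝓝 (B2 u α v β A X Y F G)) := by
  have h : Tendsto (fun n => (a n, x n, y n, e n, f n)) atTop (𝓝 (A, X, Y, F, G)) :=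
    ha.prodMk_nhds (hx.prodMk_nhds (hy.prodMk_nhds (he.prodMk_nhds hf)))
  have h1 := (continuous_B2 (u := u) (α := α) (v := v) (β := β)).tendsto (A, X, Y, F, G)
  have h2 := Tendsto.comp (g := fun t : E d × E d × E d × E d × E d =>
      B2 u α v β t.1 t.2.1 t.2.2.1 t.2.2.2.1 t.2.2.2.2)
    (f := fun n => (a n, x n, y n, e n, f n)) h1 h
  simpa only [Function.comp_def] using h2

theorem tendsto_Tf {x y z : ℕ → E d} {X Y Z : E d}
    (hx : Tendsto x atTop (𝓝 X)) (hy : Tendsto y atTop (𝓝 Y)) (hz : Tendsto z atTop (𝓝 Z)) :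
    Tendsto (fun n => Tf u α (x n) (y n) (z n)) atTop (𝓝 (Tf u α X Y Z)) := by
  unfold Tf
  refine tendsto_finsetSum _ fun m _ => ?_
  exact tendsto_const_nhds.mul (((tendsto_const_nhds.inner hx).mul
    (tendsto_const_nhds.inner hy)).mul (tendsto_const_nhds.inner hz))

theorem tendsto_Qf {x y z w : ℕ → E d} {X Y Z W : E d}
    (hx : Tendsto x atTop (𝓝 X)) (hy : Tendsto y atTop (𝓝 Y)) (hz : Tendsto z atTop (𝓝 Z))
    (hw : Tendsto w atTop (𝓝 W)) :
    Tendsto (fun n => Qf v β (x n) (y n) (z n) (w n)) atTop (𝓝 (Qf v β X Y Z W)) := by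
  unfold Qf
  refine tendsto_finsetSum _ fun m _ => ?_
  exact tendsto_const_nhds.mul ((((tendsto_const_nhds.inner hx).mul
    (tendsto_const_nhds.inner hy)).mul (tendsto_const_nhds.inner hz)).mul
      (tendsto_const_nhds.inner hw))

theorem Qf_sum (c : Fin d → ℝ) (F : Fin d → E d) (b c' e : E d) :
    Qf v β (∑ l, c l • F l) b c' e = ∑ l, c l * Qf v β (F l) b c' e := by
  simp only [Qf, inner_sum, inner_smul_right, Finset.mul_sum, Finset.sum_mul]
  rw [Finset.sum_comm]
  refine Finset.sum_congr rfl fun l _ => Finset.sum_congr rfl fun m _ => ?_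
  ring

theorem Qf_expand {F : Fin d → E d} (hF : Orthonormal ℝ F) (z b c e : E d) :
    Qf v β z b c e = ∑ l, ⟪F l, z⟫ * Qf v β (F l) b c e := by
  have hspan : ⊤ ≤ Submodule.span ℝ (Set.range F) := by
    rw [hF.linearIndependent.span_eq_top_of_card_eq_finrank' (by simp)]
  let bs := OrthonormalBasis.mk hF hspan
  have hb : ∀ i, bs i = F i := by simp [bs]
  have h := bs.sum_repr' z
  simp only [hb] at h
  conv_lhs => rw [← h]
  rw [Qf_sum]

/-- **Near-ball reduction.** -/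
theorem reduction (hG : Good u α v β) :
    ∃ C : Set (E d), Convex ℝ C ∧ IsCompact C ∧ (interior C).Nonempty ∧
      ¬ ∃ (a : E d) (w : Fin d → E d), LinearIndependent ℝ w ∧
        ∀ S : Finset (Fin d), a + ∑ i ∈ S, w i ∈ frontier C := by
  obtain ⟨ε0, hε0, hε⟩ := exists_eps u α v β
  by_contra hcon
  have H : ∀ n : ℕ, ∃ (a : E d) (w : Fin d → E d), LinearIndependent ℝ w ∧
      ∀ S : Finset (Fin d), ‖a + ∑ i ∈ S, w i‖ ≤ 2 ∧
        ff' u α v β (ε0 / ((n : ℝ) + 1)) (a + ∑ i ∈ S, w i) = 1 := by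
    intro n
    have hpos : 0 < ε0 / ((n : ℝ) + 1) := by positivity
    have hle : ε0 / ((n : ℝ) + 1) ≤ ε0 := by
      apply div_le_self hε0.le
      have : (0 : ℝ) ≤ n := Nat.cast_nonneg n
      linarith
    obtain ⟨hconv, hb⟩ := hε _ hpos.le hle
    by_contra hno
    apply hcon
    refine ⟨bodyC u α v β (ε0 / ((n : ℝ) + 1)), bodyC_convex hconv, bodyC_compact,
      bodyC_interior, ?_⟩
    rintro ⟨a, w, hli, hS⟩
    exact hno ⟨a, w, hli, fun S => bodyC_frontier hb (hS S)⟩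
  choose a w hli hw using H
  set ε : ℕ → ℝ := fun n => ε0 / ((n : ℝ) + 1) with hεdef
  have hεne : ∀ n, ε n ≠ 0 := fun n => by
    have : 0 < ε0 / ((n : ℝ) + 1) := by positivity
    exact this.ne'
  have hne : ∀ n i, w n i ≠ 0 := fun n i => (hli n).ne_zero i
  obtain ⟨e, he⟩ : ∃ e : ℕ → Fin d → E d, ∀ n i, e n i = (‖w n i‖)⁻¹ • w n i :=
    ⟨fun n i => (‖w n i‖)⁻¹ • w n i, fun _ _ => rfl⟩
  have hr : ∀ n i, ‖w n i‖ ≠ 0 := fun n i => by simpa using hne n i
  have hwe : ∀ n i, w n i = ‖w n i‖ • e n i := fun n i => by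
    rw [he, smul_smul, mul_inv_cancel₀ (hr n i), one_smul]
  have hen : ∀ n i, ‖e n i‖ = 1 := fun n i => by
    rw [he, norm_smul, norm_inv, norm_norm, inv_mul_cancel₀ (hr n i)]
  -- values at vertices
  have v0 : ∀ n, ff' u α v β (ε n) (a n) = 1 := fun n => by
    have := (hw n ∅).2
    simpa using this
  have v1 : ∀ n i, ff' u α v β (ε n) (a n + w n i) = 1 := fun n i => by
    have := (hw n {i}).2
    simpa using this
  have v2 : ∀ n i j, i ≠ j → ff' u α v β (ε n) (a n + w n i + w n j) = 1 := fun n i j hij => by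
    have := (hw n {i, j}).2
    rwa [Finset.sum_pair hij, ← add_assoc] at this
  have v3 : ∀ n i j k, i ≠ j → i ≠ k → j ≠ k →
      ff' u α v β (ε n) (a n + w n i + w n j + w n k) = 1 := fun n i j k hij hik hjk => by
    have := (hw n {i, j, k}).2
    rwa [Finset.sum_insert (by simp [hij, hik]), Finset.sum_pair hjk, ← add_assoc,
      ← add_assoc] at this
  have v4 : ∀ n i j k l, i ≠ j → i ≠ k → i ≠ l → j ≠ k → j ≠ l → k ≠ l →
      ff' u α v β (ε n) (a n + w n i + w n j + w n k + w n l) = 1 :=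
    fun n i j k l hij hik hil hjk hjl hkl => by
    have := (hw n {i, j, k, l}).2
    rwa [Finset.sum_insert (by simp [hij, hik, hil]), Finset.sum_insert (by simp [hjk, hjl]),
      Finset.sum_pair hkl, ← add_assoc, ← add_assoc, ← add_assoc] at this
  -- compactness
  have ha2 : ∀ n, ‖a n‖ ≤ 2 := fun n => by
    have := (hw n ∅).1
    simpa using this
  have hw4 : ∀ n i, ‖w n i‖ ≤ 4 := fun n i => by
    have h1 := (hw n {i}).1
    rw [Finset.sum_singleton] at h1
    calc ‖w n i‖ = ‖(a n + w n i) - a n‖ := by congr 1; abel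
      _ ≤ ‖a n + w n i‖ + ‖a n‖ := norm_sub_le _ _
      _ ≤ 4 := by linarith [ha2 n]
  have hK : IsCompact ((closedBall (0 : E d) 2) ×ˢ
      ((Set.pi Set.univ fun _ : Fin d => closedBall (0 : E d) 4) ×ˢ
        (Set.pi Set.univ fun _ : Fin d => closedBall (0 : E d) 1))) :=
    (isCompact_closedBall _ _).prod
      ((isCompact_univ_pi fun _ => isCompact_closedBall _ _).prod
        (isCompact_univ_pi fun _ => isCompact_closedBall _ _))
  obtain ⟨⟨A, W, F⟩, -, φ, hφ, hlim⟩ := hK.tendsto_subseq (x := fun n => (a n, w n, e n))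
    (fun n => ⟨by simpa using ha2 n, fun i _ => by simpa using hw4 n i,
      fun i _ => by simpa using (hen n i).le⟩)
  have limA : Tendsto (fun n => a (φ n)) atTop (𝓝 A) :=
    (continuous_fst.tendsto _).comp hlim
  have limW : ∀ i, Tendsto (fun n => w (φ n) i) atTop (𝓝 (W i)) := fun i =>
    (((continuous_apply i).comp (continuous_fst.comp continuous_snd)).tendsto
      ((A, W, F) : E d × (Fin d → E d) × (Fin d → E d))).comp hlim
  have limF : ∀ i, Tendsto (fun n => e (φ n) i) atTop (𝓝 (F i)) := fun i =>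
    (((continuous_apply i).comp (continuous_snd.comp continuous_snd)).tendsto
      ((A, W, F) : E d × (Fin d → E d) × (Fin d → E d))).comp hlim
  have limε : Tendsto (fun n => ε (φ n)) atTop (𝓝 0) := by
    have h1 : Tendsto ε atTop (𝓝 0) := by
      have := (tendsto_one_div_add_atTop_nhds_zero_nat (𝕜 := ℝ)).const_mul ε0
      simpa [hεdef, div_eq_mul_inv] using this
    exact h1.comp hφ.tendsto_atTop
  have F0 : ∀ i, ‖F i‖ = 1 := fun i => by
    have h1 : Tendsto (fun n => ‖e (φ n) i‖) atTop (𝓝 ‖F i‖) := (limF i).norm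
    simp only [hen] at h1
    exact tendsto_nhds_unique h1 tendsto_const_nhds
  have F1 : ∀ i, 2 * ⟪A, F i⟫ + ⟪W i, F i⟫ = 0 := fun i => by
    have h1 : Tendsto (fun n => 2 * ⟪a (φ n), e (φ n) i⟫ + ⟪w (φ n) i, e (φ n) i⟫
        + ε (φ n) * B1 u α v β (a (φ n)) (w (φ n) i) (e (φ n) i)) atTop
        (𝓝 (2 * ⟪A, F i⟫ + ⟪W i, F i⟫ + 0 * B1 u α v β A (W i) (F i))) := by
      refine ((tendsto_const_nhds.mul (limA.inner (limF i))).add ((limW i).inner (limF i))).add ?_
      exact limε.mul (tendsto_B1 limA (limW i) (limF i))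
    have h2 : ∀ n, 2 * ⟪a (φ n), e (φ n) i⟫ + ⟪w (φ n) i, e (φ n) i⟫
        + ε (φ n) * B1 u α v β (a (φ n)) (w (φ n) i) (e (φ n) i) = 0 := fun n =>
      J1 (hr (φ n) i) (hwe (φ n) i) (v0 (φ n)) (v1 (φ n) i)
    simp only [h2] at h1
    have := tendsto_nhds_unique h1 tendsto_const_nhds
    linarith
  have F2 : ∀ i j, i ≠ j → ⟪F i, F j⟫ = 0 := fun i j hij => by
    have h1 : Tendsto (fun n => 2 * ⟪e (φ n) i, e (φ n) j⟫
        + ε (φ n) * B2 u α v β (a (φ n)) (w (φ n) i) (w (φ n) j) (e (φ n) i) (e (φ n) j)) atTop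
        (𝓝 (2 * ⟪F i, F j⟫ + 0 * B2 u α v β A (W i) (W j) (F i) (F j))) := by
      exact (tendsto_const_nhds.mul ((limF i).inner (limF j))).add
        (limε.mul (tendsto_B2 limA (limW i) (limW j) (limF i) (limF j)))
    have h2 : ∀ n, 2 * ⟪e (φ n) i, e (φ n) j⟫
        + ε (φ n) * B2 u α v β (a (φ n)) (w (φ n) i) (w (φ n) j) (e (φ n) i) (e (φ n) j) = 0 :=
      fun n => J2 (hr (φ n) i) (hr (φ n) j) (hwe (φ n) i) (hwe (φ n) j) (v0 (φ n)) (v1 (φ n) i)
        (v1 (φ n) j) (v2 (φ n) i j hij)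
    simp only [h2] at h1
    have := tendsto_nhds_unique h1 tendsto_const_nhds
    linarith
  have FW : ∀ i, W i = ‖W i‖ • F i := fun i => by
    have h1 : Tendsto (fun n => w (φ n) i - ‖w (φ n) i‖ • e (φ n) i) atTop
        (𝓝 (W i - ‖W i‖ • F i)) := (limW i).sub ((limW i).norm.smul (limF i))
    have h2 : ∀ n, w (φ n) i - ‖w (φ n) i‖ • e (φ n) i = 0 := fun n =>
      sub_eq_zero.mpr (hwe (φ n) i)
    simp only [h2] at h1
    exact (sub_eq_zero.mp (tendsto_nhds_unique h1 tendsto_const_nhds))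
  have F3 : ∀ i j k, i ≠ j → i ≠ k → j ≠ k → Tf u α (F i) (F j) (F k)
      + 4 * Qf v β (A + (1/2 : ℝ) • (W i + W j + W k)) (F i) (F j) (F k) = 0 := by
    intro i j k hij hik hjk
    have h1 : Tendsto (fun n => Tf u α (e (φ n) i) (e (φ n) j) (e (φ n) k)
        + 4 * Qf v β (a (φ n) + (1/2 : ℝ) • (w (φ n) i + w (φ n) j + w (φ n) k))
          (e (φ n) i) (e (φ n) j) (e (φ n) k)) atTop
        (𝓝 (Tf u α (F i) (F j) (F k)
          + 4 * Qf v β (A + (1/2 : ℝ) • (W i + W j + W k)) (F i) (F j) (F k))) := by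
      refine Tendsto.add (tendsto_Tf (limF i) (limF j) (limF k)) (tendsto_const_nhds.mul ?_)
      exact tendsto_Qf (limA.add ((((limW i).add (limW j)).add (limW k)).const_smul _))
        (limF i) (limF j) (limF k)
    have h2 : ∀ n, Tf u α (e (φ n) i) (e (φ n) j) (e (φ n) k)
        + 4 * Qf v β (a (φ n) + (1/2 : ℝ) • (w (φ n) i + w (φ n) j + w (φ n) k))
          (e (φ n) i) (e (φ n) j) (e (φ n) k) = 0 := fun n =>
      J3 (hεne _) (hr (φ n) i) (hr (φ n) j) (hr (φ n) k) (hwe _ i) (hwe _ j) (hwe _ k)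
        (v0 _) (v1 _ i) (v1 _ j) (v1 _ k) (v2 _ i j hij) (v2 _ i k hik) (v2 _ j k hjk)
        (v3 _ i j k hij hik hjk)
    simp only [h2] at h1
    exact (tendsto_nhds_unique h1 tendsto_const_nhds)
  have F4 : ∀ i j k l, i ≠ j → i ≠ k → i ≠ l → j ≠ k → j ≠ l → k ≠ l →
      Qf v β (F i) (F j) (F k) (F l) = 0 := by
    intro i j k l hij hik hil hjk hjl hkl
    have h1 : Tendsto (fun n => Qf v β (e (φ n) i) (e (φ n) j) (e (φ n) k) (e (φ n) l)) atTop
        (𝓝 (Qf v β (F i) (F j) (F k) (F l))) :=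
      tendsto_Qf (limF i) (limF j) (limF k) (limF l)
    have h2 : ∀ n, Qf v β (e (φ n) i) (e (φ n) j) (e (φ n) k) (e (φ n) l) = 0 := fun n =>
      J4 (u := u) (α := α) (hεne (φ n)) (hr (φ n) i) (hr (φ n) j) (hr (φ n) k) (hr (φ n) l)
        (hwe _ i) (hwe _ j) (hwe _ k) (hwe _ l) (v0 _) (v1 _ i) (v1 _ j) (v1 _ k) (v1 _ l)
        (v2 _ i j hij) (v2 _ i k hik) (v2 _ j k hjk) (v2 _ i l hil) (v2 _ j l hjl) (v2 _ k l hkl)
        (v3 _ i j k hij hik hjk) (v3 _ i j l hij hil hjl) (v3 _ i k l hik hil hkl)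
        (v3 _ j k l hjk hjl hkl) (v4 _ i j k l hij hik hil hjk hjl hkl)
    simp only [h2] at h1
    exact (tendsto_nhds_unique h1 tendsto_const_nhds)
  have hF : Orthonormal ℝ F := ⟨F0, fun i j hij => F2 i j hij⟩
  refine hG F hF ?_ F4
  intro i j k hij hik hjk
  have h3 := F3 i j k hij hik hjk
  have hz : Qf v β (A + (1/2 : ℝ) • (W i + W j + W k)) (F i) (F j) (F k) = 0 := by
    rw [Qf_expand hF]
    refine Finset.sum_eq_zero fun l _ => ?_
    have hFW : ∀ p q, p ≠ q → ⟪F p, W q⟫ = 0 := fun p q hpq => by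
      rw [FW q, inner_smul_right, F2 p q hpq, mul_zero]
    have hA : ∀ p, ⟪F p, A⟫ + (1/2) * ⟪F p, W p⟫ = 0 := fun p => by
      have := F1 p
      rw [real_inner_comm, real_inner_comm (F p) (W p)] at this
      linarith
    by_cases hli : l = i
    · subst hli
      have : ⟪F l, A + (1/2 : ℝ) • (W l + W j + W k)⟫ = 0 := by
        rw [inner_add_right, inner_smul_right, inner_add_right, inner_add_right,
          hFW l j hij, hFW l k hik]
        linarith [hA l]
      rw [this, zero_mul]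
    by_cases hlj : l = j
    · subst hlj
      have : ⟪F l, A + (1/2 : ℝ) • (W i + W l + W k)⟫ = 0 := by
        rw [inner_add_right, inner_smul_right, inner_add_right, inner_add_right,
          hFW l i hli, hFW l k hjk]
        linarith [hA l]
      rw [this, zero_mul]
    by_cases hlk : l = k
    · subst hlk
      have : ⟪F l, A + (1/2 : ℝ) • (W i + W j + W l)⟫ = 0 := by
        rw [inner_add_right, inner_smul_right, inner_add_right, inner_add_right,
          hFW l i hli, hFW l j hlj]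
        linarith [hA l]
      rw [this, zero_mul]
    rw [F4 l i j k hli hlj hlk hij hik hjk, mul_zero]
  rw [hz] at h3
  linarith

end Pool.Agent.Helper24
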