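import Mathlib
import Pool.Agent.Helper24.Limit

open scoped RealInnerProductSpace
open Metric Filter Topology

namespace Pool.Agent.Helper24

variable {d : ℕ} {ι κ : Type} [Fintype ι] [Fintype κ]
variable {u : ι → E d} {α : ι → ℝ} {v : κ → E d} {β : κ → ℝ}

/-- `x ↦ (0, x)` -/
noncomputable def lft (x : E d) : E (d + 1) := WithLp.toLp 2 (Fin.cons 0 x.ofLp)

/-- forget the first coordinate -/
noncomputable def prj (z : E (d + 1)) : E d := WithLp.toLp 2 (fun i => z i.succ)

theorem prj_add (x y : E (d + 1)) : prj (x + y) = prj x + prj y := by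
  ext i; simp [prj]

theorem prj_sub (x y : E (d + 1)) : prj (x - y) = prj x - prj y := by
  ext i; simp [prj]

theorem prj_smul (r : ℝ) (x : E (d + 1)) : prj (r • x) = r • prj x := by
  ext i; simp [prj]

theorem inner_lft (x : E d) (z : E (d + 1)) : ⟪lft x, z⟫ = ⟪x, prj z⟫ := by
  rw [PiLp.inner_apply, PiLp.inner_apply, Fin.sum_univ_succ]
  simp [lft, prj]

theorem inner_prj (x z : E (d + 1)) : ⟪prj x, prj z⟫ = ⟪x, z⟫ - x 0 * z 0 := by
  rw [PiLp.inner_apply, PiLp.inner_apply, Fin.sum_univ_succ]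
  simp [prj]
  ring

noncomputable def e0 : E (d + 1) := EuclideanSpace.single 0 1

theorem inner_e0 (z : E (d + 1)) : ⟪(e0 : E (d + 1)), z⟫ = z 0 := by
  rw [e0, EuclideanSpace.inner_single_left]
  simp

noncomputable def uL (u : ι → E d) : Option ι → E (d + 1)
  | none => e0
  | some m => lft (u m)

def αL (M : ℝ) (α : ι → ℝ) : Option ι → ℝ
  | none => M
  | some m => α m

theorem Tf_uL (M : ℝ) (a b c : E (d + 1)) :
    Tf (uL u) (αL M α) a b c = M * (a 0 * b 0 * c 0) + Tf u α (prj a) (prj b) (prj c) := by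
  simp only [Tf, Fintype.sum_option, uL, αL, inner_lft, inner_e0]

theorem Qf_vL (a b c e : E (d + 1)) :
    Qf (fun m => lft (v m)) β a b c e = Qf v β (prj a) (prj b) (prj c) (prj e) := by
  simp only [Qf, inner_lft]

theorem Tf_comm12 (a b c : E d) : Tf u α a b c = Tf u α b a c := by
  simp only [Tf]; refine Finset.sum_congr rfl fun m _ => ?_; ring

theorem Tf_comm13 (a b c : E d) : Tf u α a b c = Tf u α c b a := by
  simp only [Tf]; refine Finset.sum_congr rfl fun m _ => ?_; ring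

theorem Qf_comm12 (a b c e : E d) : Qf v β a b c e = Qf v β b a c e := by
  simp only [Qf]; refine Finset.sum_congr rfl fun m _ => ?_; ring

theorem Qf_comm13 (a b c e : E d) : Qf v β a b c e = Qf v β c b a e := by
  simp only [Qf]; refine Finset.sum_congr rfl fun m _ => ?_; ring

theorem Qf_comm14 (a b c e : E d) : Qf v β a b c e = Qf v β e b c a := by
  simp only [Qf]; refine Finset.sum_congr rfl fun m _ => ?_; ring

theorem Tf_lin (r s : ℝ) (a a' b c : E d) :
    Tf u α (r • a + s • a') b c = r * Tf u α a b c + s * Tf u α a' b c := by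
  simp only [Tf, inner_add_right, inner_smul_right, Finset.mul_sum, ← Finset.sum_add_distrib]
  refine Finset.sum_congr rfl fun m _ => ?_; ring

theorem Qf_lin (r s : ℝ) (a a' b c e : E d) :
    Qf v β (r • a + s • a') b c e = r * Qf v β a b c e + s * Qf v β a' b c e := by
  simp only [Qf, inner_add_right, inner_smul_right, Finset.mul_sum, ← Finset.sum_add_distrib]
  refine Finset.sum_congr rfl fun m _ => ?_; ring

theorem Tf_bound (u : ι → E d) (α : ι → ℝ) {a b c : E d} (ha : ‖a‖ ≤ 1) (hb : ‖b‖ ≤ 1)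
    (hc : ‖c‖ ≤ 1) : |Tf u α a b c| ≤ ∑ m, |α m| * ‖u m‖ ^ 3 := by
  unfold Tf
  refine (Finset.abs_sum_le_sum_abs _ _).trans (Finset.sum_le_sum fun m _ => ?_)
  have h : ∀ z : E d, ‖z‖ ≤ 1 → |⟪u m, z⟫| ≤ ‖u m‖ := fun z hz =>
    (abs_real_inner_le_norm _ _).trans (by nlinarith [norm_nonneg (u m)])
  rw [abs_mul, abs_mul, abs_mul]
  refine mul_le_mul_of_nonneg_left ?_ (abs_nonneg _)
  have e : ‖u m‖ ^ 3 = ‖u m‖ * ‖u m‖ * ‖u m‖ := by ring
  rw [e]
  exact mul_le_mul (mul_le_mul (h a ha) (h b hb) (abs_nonneg _) (norm_nonneg _)) (h c hc)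
    (abs_nonneg _) (by positivity)

theorem sum_sq_first {k : ℕ} {θ : Fin (k + 1) → E (k + 1)} (h : Orthonormal ℝ θ) :
    ∑ i, (θ i 0) ^ 2 = 1 := by
  have hspan : ⊤ ≤ Submodule.span ℝ (Set.range θ) := by
    rw [h.linearIndependent.span_eq_top_of_card_eq_finrank' (by simp)]
  let bs := OrthonormalBasis.mk h hspan
  have hb : ∀ i, bs i = θ i := by simp [bs]
  have h1 := bs.sum_sq_norm_inner_left (e0 : E (k + 1))
  simp only [hb, inner_e0, Real.norm_eq_abs, sq_abs] at h1
  rw [h1]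
  simp [e0]

end Pool.Agent.Helper24
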