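import Mathlib
import Pool.Agent.Helper24.Lift

open scoped RealInnerProductSpace
open Metric Filter Topology

namespace Pool.Agent.Helper24

variable {k : ℕ} {ι κ : Type} [Fintype ι] [Fintype κ]

theorem norm_prj_le {z : E (k + 2)} (hz : ‖z‖ = 1) : ‖prj z‖ ≤ 1 := by
  have h := inner_prj z z
  rw [real_inner_self_eq_norm_sq, real_inner_self_eq_norm_sq, hz] at h
  nlinarith [norm_nonneg (prj z), sq_nonneg (z 0)]

theorem exists_rs {a b : ℝ} (h : a ≠ 0) : ∃ r s : ℝ, r * a + s * b = 0 ∧ r ^ 2 + s ^ 2 = 1 := by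
  have hp : 0 < a ^ 2 + b ^ 2 := by positivity
  have hN : √(a ^ 2 + b ^ 2) ≠ 0 := (Real.sqrt_pos.2 hp).ne'
  refine ⟨b / √(a ^ 2 + b ^ 2), -a / √(a ^ 2 + b ^ 2), by field_simp; ring, ?_⟩
  rw [div_pow, div_pow, Real.sq_sqrt hp.le]
  field_simp
  ring

theorem one_step (u : ι → E (k + 1)) (α : ι → ℝ) (v : κ → E (k + 1)) (β : κ → ℝ) :
    ∃ C : ℝ, 0 ≤ C ∧ ∀ M : ℝ, 0 < M → ∀ θ : Fin (k + 2) → E (k + 2), Orthonormal ℝ θ →
      (∀ i j l, i ≠ j → i ≠ l → j ≠ l → Tf (uL u) (αL M α) (θ i) (θ j) (θ l) = 0) →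
      (∀ i j l m, i ≠ j → i ≠ l → i ≠ m → j ≠ l → j ≠ m → l ≠ m →
        Qf (fun m => lft (v m)) β (θ i) (θ j) (θ l) (θ m) = 0) →
      (∀ i j, i ≤ j → |θ j 0| ≤ |θ i 0|) →
      ∃ ψ : Fin (k + 1) → E (k + 1), (∀ i, ‖ψ i‖ ≤ 1) ∧
        (∀ i j, |⟪ψ i, ψ j⟫ - if i = j then 1 else 0| ≤ C / M) ∧
        (∀ i j l, i ≠ j → i ≠ l → j ≠ l → |Tf u α (ψ i) (ψ j) (ψ l)| ≤ C * √(C / M)) ∧
        (∀ i j l m, i ≠ j → i ≠ l → i ≠ m → j ≠ l → j ≠ m → l ≠ m →
          Qf v β (ψ i) (ψ j) (ψ l) (ψ m) = 0) := by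
  set K : ℝ := ∑ m, |α m| * ‖u m‖ ^ 3 with hK
  have hK0 : 0 ≤ K := Finset.sum_nonneg fun m _ => by positivity
  refine ⟨K * (k + 2), by positivity, ?_⟩
  intro M hM θ ho hT hQ hsort
  set t : Fin (k + 2) → ℝ := fun i => θ i 0 with ht
  have hn : ∀ i, ‖prj (θ i)‖ ≤ 1 := fun i => norm_prj_le (ho.1 i)
  have hT' : ∀ i j l, i ≠ j → i ≠ l → j ≠ l →
      Tf u α (prj (θ i)) (prj (θ j)) (prj (θ l)) = - (M * (t i * t j * t l)) := by
    intro i j l h1 h2 h3
    have := hT i j l h1 h2 h3
    rw [Tf_uL] at this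
    linarith
  have hQ' : ∀ i j l m, i ≠ j → i ≠ l → i ≠ m → j ≠ l → j ≠ m → l ≠ m →
      Qf v β (prj (θ i)) (prj (θ j)) (prj (θ l)) (prj (θ m)) = 0 := by
    intro i j l m h1 h2 h3 h4 h5 h6
    have := hQ i j l m h1 h2 h3 h4 h5 h6
    rwa [Qf_vL] at this
  have key1 : ∀ i j l, i ≠ j → i ≠ l → j ≠ l → M * (|t i| * |t j| * |t l|) ≤ K := by
    intro i j l h1 h2 h3
    have h := Tf_bound u α (hn i) (hn j) (hn l)
    rw [hT' i j l h1 h2 h3, abs_neg, abs_mul, abs_mul, abs_mul, abs_of_pos hM] at h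
    exact h
  have hsum : ∑ i, (t i) ^ 2 = 1 := sum_sq_first ho
  have ht0 : 1 ≤ ((k : ℝ) + 2) * |t 0| := by
    have h1 : ∀ i, (t i) ^ 2 ≤ (t 0) ^ 2 := fun i => by
      have := hsort 0 i (Fin.zero_le i)
      exact sq_le_sq.2 this
    have h2 : (1 : ℝ) ≤ ∑ _i : Fin (k + 2), (t 0) ^ 2 := by
      rw [← hsum]; exact Finset.sum_le_sum fun i _ => h1 i
    simp only [Finset.sum_const, Finset.card_univ, Fintype.card_fin, nsmul_eq_mul] at h2
    have h3 : (t 0) ^ 2 ≤ 1 := by
      rw [← hsum]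
      exact Finset.single_le_sum (f := fun i => (t i) ^ 2) (fun i _ => sq_nonneg _)
        (Finset.mem_univ 0)
    have h4 : |t 0| ≤ 1 := by rwa [sq_le_one_iff_abs_le_one] at h3
    have h5 : (t 0) ^ 2 ≤ |t 0| := by
      rw [← sq_abs]; nlinarith [abs_nonneg (t 0)]
    push_cast at h2
    nlinarith
  have h0ne : t 0 ≠ 0 := by
    intro h
    rw [h] at ht0
    norm_num at ht0
  have key2 : ∀ j : Fin k, M * (|t 1| * |t j.succ.succ|) ≤ K * (k + 2) := by
    intro j
    have h := key1 0 1 j.succ.succ (by simp) (Fin.succ_ne_zero _).symm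
      (by
        intro h
        have := congrArg Fin.val h
        simp at this)
    have hnn : 0 ≤ M * (|t 1| * |t j.succ.succ|) := by positivity
    calc M * (|t 1| * |t j.succ.succ|) = M * (|t 1| * |t j.succ.succ|) * 1 := by ring
      _ ≤ M * (|t 1| * |t j.succ.succ|) * (((k : ℝ) + 2) * |t 0|) :=
        mul_le_mul_of_nonneg_left ht0 hnn
      _ = (M * (|t 0| * |t 1| * |t j.succ.succ|)) * ((k : ℝ) + 2) := by ring
      _ ≤ K * (k + 2) := mul_le_mul_of_nonneg_right h (by positivity)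
  have hle1 : ∀ j : Fin k, |t j.succ.succ| ≤ |t 1| := by
    intro j
    refine hsort 1 j.succ.succ ?_
    rw [Fin.le_def]
    simp
  have key3 : ∀ i j : Fin k, |t i.succ.succ| * |t j.succ.succ| ≤ K * (k + 2) / M := by
    intro i j
    rw [le_div_iff₀ hM]
    have := key2 j
    have h2 := mul_le_mul_of_nonneg_right (hle1 i) (abs_nonneg (t j.succ.succ))
    nlinarith
  have key4 : ∀ i : Fin k, |t i.succ.succ| ≤ √(K * (k + 2) / M) := by
    intro i
    apply Real.le_sqrt_of_sq_le
    rw [sq]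
    exact key3 i i
  obtain ⟨r, s, hrs, hrs1⟩ := exists_rs (a := t 0) (b := t 1) h0ne
  have hin : ∀ i j, ⟪prj (θ i), prj (θ j)⟫ = (if i = j then (1 : ℝ) else 0) - t i * t j := by
    intro i j
    rw [inner_prj, (orthonormal_iff_ite.1 ho) i j]
  let w : E (k + 1) := r • prj (θ 0) + s • prj (θ 1)
  have h01 : (0 : Fin (k + 2)) ≠ 1 := by simp
  have h0j : ∀ j : Fin k, (0 : Fin (k + 2)) ≠ j.succ.succ := fun j => (Fin.succ_ne_zero _).symm
  have h1j : ∀ j : Fin k, (1 : Fin (k + 2)) ≠ j.succ.succ := fun j h => by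
    have := congrArg Fin.val h
    simp at this
  have hss : ∀ i j : Fin k, i ≠ j → i.succ.succ ≠ j.succ.succ := fun i j h h' =>
    h (Fin.succ_injective _ (Fin.succ_injective _ h'))
  have hww : ⟪w, w⟫ = 1 := by
    simp only [w, inner_add_left, inner_add_right, inner_smul_left, inner_smul_right,
      conj_trivial, hin, if_pos, if_neg h01, if_neg h01.symm]
    linear_combination hrs1 - (r * t 0 + s * t 1) * hrs
  have hwj : ∀ j : Fin k, ⟪w, prj (θ j.succ.succ)⟫ = 0 := by
    intro j
    simp only [w, inner_add_left, inner_smul_left, conj_trivial, hin, if_neg (h0j j),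
      if_neg (h1j j)]
    linear_combination - t j.succ.succ * hrs
  have hwT : ∀ i j : Fin k, i ≠ j → Tf u α w (prj (θ i.succ.succ)) (prj (θ j.succ.succ)) = 0 := by
    intro i j hij
    simp only [w]
    rw [Tf_lin, hT' _ _ _ (h0j i) (h0j j) (hss i j hij), hT' _ _ _ (h1j i) (h1j j) (hss i j hij)]
    linear_combination - M * t i.succ.succ * t j.succ.succ * hrs
  have hwQ : ∀ i j l : Fin k, i ≠ j → i ≠ l → j ≠ l →
      Qf v β w (prj (θ i.succ.succ)) (prj (θ j.succ.succ)) (prj (θ l.succ.succ)) = 0 := by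
    intro i j l hij hil hjl
    simp only [w]
    rw [Qf_lin, hQ' _ _ _ _ (h0j i) (h0j j) (h0j l) (hss i j hij) (hss i l hil) (hss j l hjl),
      hQ' _ _ _ _ (h1j i) (h1j j) (h1j l) (hss i j hij) (hss i l hil) (hss j l hjl)]
    ring
  have hCM : 0 ≤ K * (k + 2) / M := by positivity
  have hne0 : ∀ i : Fin k, ¬ ((0 : Fin (k + 1)) = i.succ) := fun i h => Fin.succ_ne_zero _ h.symm
  have hne0' : ∀ i : Fin k, ¬ (i.succ = (0 : Fin (k + 1))) := fun i h => Fin.succ_ne_zero _ h
  have hsi : ∀ i j : Fin k, i.succ ≠ j.succ → i ≠ j := fun i j h h' => h (by rw [h'])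
  refine ⟨Fin.cons w (fun j => prj (θ j.succ.succ)), ?_, ?_, ?_, ?_⟩
  · intro i
    refine Fin.cases ?_ (fun i => ?_) i
    · simp only [Fin.cons_zero]
      rw [real_inner_self_eq_norm_sq] at hww
      nlinarith [norm_nonneg w]
    · simp only [Fin.cons_succ]
      exact hn _
  · intro i j
    refine Fin.cases ?_ (fun i => ?_) i
    · refine Fin.cases ?_ (fun j => ?_) j
      · simp only [Fin.cons_zero, hww, if_true, sub_self, abs_zero]
        exact hCM
      · simp only [Fin.cons_zero, Fin.cons_succ, hwj, if_neg (hne0 j), sub_self, abs_zero]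
        exact hCM
    · refine Fin.cases ?_ (fun j => ?_) j
      · simp only [Fin.cons_zero, Fin.cons_succ]
        rw [real_inner_comm, hwj, if_neg (hne0' i), sub_self, abs_zero]
        exact hCM
      · simp only [Fin.cons_succ, hin]
        have e : (if i.succ.succ = j.succ.succ then (1 : ℝ) else 0) - t i.succ.succ * t j.succ.succ
            - (if i.succ = j.succ then (1 : ℝ) else 0) = - (t i.succ.succ * t j.succ.succ) := by
          by_cases h : i = j
          · subst h; simp
          · rw [if_neg (hss i j h), if_neg (fun h' => h (Fin.succ_injective _ h'))]; ring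
        rw [e, abs_neg, abs_mul]
        exact key3 i j
  · intro i j l
    have hpos : 0 ≤ K * (k + 2) * √(K * (k + 2) / M) := by positivity
    refine Fin.cases ?_ (fun i => ?_) i
    · refine Fin.cases ?_ (fun j => ?_) j
      · intro h; exact absurd rfl h
      · refine Fin.cases ?_ (fun l => ?_) l
        · intro _ h; exact absurd rfl h
        · intro _ _ h3
          simp only [Fin.cons_zero, Fin.cons_succ]
          rw [hwT j l (hsi j l h3), abs_zero]
          exact hpos
    · refine Fin.cases ?_ (fun j => ?_) j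
      · refine Fin.cases ?_ (fun l => ?_) l
        · intro _ _ h; exact absurd rfl h
        · intro _ h2 _
          simp only [Fin.cons_zero, Fin.cons_succ]
          rw [Tf_comm12, hwT i l (hsi i l h2), abs_zero]
          exact hpos
      · refine Fin.cases ?_ (fun l => ?_) l
        · intro h1 _ _
          simp only [Fin.cons_zero, Fin.cons_succ]
          rw [Tf_comm13, hwT j i (hsi j i h1.symm), abs_zero]
          exact hpos
        · intro h1 h2 h3
          simp only [Fin.cons_succ]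
          rw [hT' _ _ _ (hss i j (hsi i j h1)) (hss i l (hsi i l h2)) (hss j l (hsi j l h3)),
            abs_neg, abs_mul, abs_mul, abs_mul, abs_of_pos hM]
          have h4 : M * (|t i.succ.succ| * |t j.succ.succ|) ≤ K * (k + 2) := by
            have := key3 i j
            rw [le_div_iff₀ hM] at this
            linarith
          have h5 := key4 l
          calc M * (|t i.succ.succ| * |t j.succ.succ| * |t l.succ.succ|)
              = M * (|t i.succ.succ| * |t j.succ.succ|) * |t l.succ.succ| := by ring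
            _ ≤ K * (k + 2) * √(K * (k + 2) / M) :=
              mul_le_mul h4 h5 (abs_nonneg _) (by positivity)
  · intro i j l m
    refine Fin.cases ?_ (fun i => ?_) i
    · refine Fin.cases ?_ (fun j => ?_) j
      · intro h; exact absurd rfl h
      · refine Fin.cases ?_ (fun l => ?_) l
        · intro _ h; exact absurd rfl h
        · refine Fin.cases ?_ (fun m => ?_) m
          · intro _ _ h; exact absurd rfl h
          · intro _ _ _ h4 h5 h6
            simp only [Fin.cons_zero, Fin.cons_succ]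
            exact hwQ j l m (hsi _ _ h4) (hsi _ _ h5) (hsi _ _ h6)
    · refine Fin.cases ?_ (fun j => ?_) j
      · refine Fin.cases ?_ (fun l => ?_) l
        · intro _ _ _ h; exact absurd rfl h
        · refine Fin.cases ?_ (fun m => ?_) m
          · intro _ _ _ _ h; exact absurd rfl h
          · intro _ h2 h3 _ _ h6
            simp only [Fin.cons_zero, Fin.cons_succ]
            rw [Qf_comm12]
            exact hwQ i l m (hsi _ _ h2) (hsi _ _ h3) (hsi _ _ h6)
      · refine Fin.cases ?_ (fun l => ?_) l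
        · refine Fin.cases ?_ (fun m => ?_) m
          · intro _ _ _ _ _ h; exact absurd rfl h
          · intro h1 _ h3 _ h5 _
            simp only [Fin.cons_zero, Fin.cons_succ]
            rw [Qf_comm13]
            exact hwQ j i m (hsi _ _ h1.symm) (hsi _ _ h5) (hsi _ _ h3)
        · refine Fin.cases ?_ (fun m => ?_) m
          · intro h1 h2 _ h4 _ _
            simp only [Fin.cons_zero, Fin.cons_succ]
            rw [Qf_comm14]
            exact hwQ j l i (hsi _ _ h4) (hsi _ _ h1.symm) (hsi _ _ h2.symm)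
          · intro h1 h2 h3 h4 h5 h6
            simp only [Fin.cons_succ]
            exact hQ' _ _ _ _ (hss _ _ (hsi _ _ h1)) (hss _ _ (hsi _ _ h2))
              (hss _ _ (hsi _ _ h3)) (hss _ _ (hsi _ _ h4)) (hss _ _ (hsi _ _ h5))
              (hss _ _ (hsi _ _ h6))

end Pool.Agent.Helper24
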