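import Mathlib
import Pool.Agent.Helper24.LiftStep
import Pool.Agent.Helper24.Base

open scoped RealInnerProductSpace
open Metric Filter Topology

namespace Pool.Agent.Helper24

variable {k : ℕ} {ι κ : Type} [Fintype ι] [Fintype κ]

theorem lift_good {u : ι → E (k + 1)} {α : ι → ℝ} {v : κ → E (k + 1)} {β : κ → ℝ}
    (hG : Good u α v β) : ∃ M : ℝ, Good (uL u) (αL M α) (fun m => lft (v m)) β := by
  by_contra hne
  push Not at hne
  obtain ⟨C, hC, hstep⟩ := one_step u α v β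
  have h1 : ∀ n : ℕ, ∃ ψ : Fin (k + 1) → E (k + 1), (∀ i, ‖ψ i‖ ≤ 1) ∧
        (∀ i j, |⟪ψ i, ψ j⟫ - if i = j then 1 else 0| ≤ C / ((n : ℝ) + 1)) ∧
        (∀ i j l, i ≠ j → i ≠ l → j ≠ l →
          |Tf u α (ψ i) (ψ j) (ψ l)| ≤ C * √(C / ((n : ℝ) + 1))) ∧
        (∀ i j l m, i ≠ j → i ≠ l → i ≠ m → j ≠ l → j ≠ m → l ≠ m →
          Qf v β (ψ i) (ψ j) (ψ l) (ψ m) = 0) := by
    intro n
    have := hne ((n : ℝ) + 1)
    unfold Good at this
    push Not at this
    obtain ⟨θ, ho, hT, hQ, -⟩ := this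
    let σ := Tuple.sort (fun i => -|θ i 0|)
    have hmono : Monotone ((fun i => -|θ i 0|) ∘ σ) := Tuple.monotone_sort _
    refine hstep ((n : ℝ) + 1) (by positivity) (θ ∘ σ) (ho.comp _ σ.injective) ?_ ?_ ?_
    · intro i j l h1 h2 h3
      exact hT _ _ _ (fun h => h1 (σ.injective h)) (fun h => h2 (σ.injective h))
        (fun h => h3 (σ.injective h))
    · intro i j l m h1 h2 h3 h4 h5 h6
      exact hQ _ _ _ _ (fun h => h1 (σ.injective h)) (fun h => h2 (σ.injective h))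
        (fun h => h3 (σ.injective h)) (fun h => h4 (σ.injective h)) (fun h => h5 (σ.injective h))
        (fun h => h6 (σ.injective h))
    · intro i j hij
      have := hmono hij
      simp only [Function.comp_apply] at this ⊢
      linarith
  choose ψ hψ1 hψ2 hψ3 hψ4 using h1
  have hmem : ∀ n, ψ n ∈ Set.pi Set.univ (fun _ : Fin (k + 1) => closedBall (0 : E (k + 1)) 1) := by
    intro n i _
    simpa using hψ1 n i
  have hcomp : IsCompact (Set.pi Set.univ (fun _ : Fin (k + 1) => closedBall (0 : E (k + 1)) 1)) :=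
    isCompact_univ_pi fun _ => isCompact_closedBall _ _
  obtain ⟨L, -, φ, hφ, hL⟩ := hcomp.tendsto_subseq hmem
  have hLi : ∀ i, Tendsto (fun n => ψ (φ n) i) atTop (𝓝 (L i)) := fun i =>
    (tendsto_pi_nhds.1 hL) i
  have hc0 : Tendsto (fun n : ℕ => C / ((φ n : ℝ) + 1)) atTop (𝓝 0) := by
    have h := ((tendsto_one_div_add_atTop_nhds_zero_nat (𝕜 := ℝ)).comp hφ.tendsto_atTop).const_mul C
    simp only [mul_zero] at h
    refine h.congr fun n => ?_
    simp only [Function.comp_apply]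
    ring
  have hc1 : Tendsto (fun n : ℕ => C * √(C / ((φ n : ℝ) + 1))) atTop (𝓝 0) := by
    have h := (hc0.sqrt).const_mul C
    simpa using h
  refine hG L ?_ ?_ ?_
  · rw [orthonormal_iff_ite]
    intro i j
    have h := ((hLi i).inner (hLi j) (𝕜 := ℝ)).sub_const (if i = j then (1 : ℝ) else 0)
    have h2 : |⟪L i, L j⟫ - (if i = j then (1 : ℝ) else 0)| ≤ 0 :=
      le_of_tendsto_of_tendsto' h.abs hc0 fun n => hψ2 (φ n) i j
    have h3 := abs_nonpos_iff.1 h2
    linarith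
  · intro i j l h1 h2 h3
    have h := tendsto_Tf (u := u) (α := α) (hLi i) (hLi j) (hLi l)
    have h4 : |Tf u α (L i) (L j) (L l)| ≤ 0 :=
      le_of_tendsto_of_tendsto' h.abs hc1 fun n => hψ3 (φ n) i j l h1 h2 h3
    exact abs_nonpos_iff.1 h4
  · intro i j l m h1 h2 h3 h4 h5 h6
    have h := tendsto_Qf (v := v) (β := β) (hLi i) (hLi j) (hLi l) (hLi m)
    have h7 : ∀ n, Qf v β (ψ (φ n) i) (ψ (φ n) j) (ψ (φ n) l) (ψ (φ n) m) = 0 := fun n =>
      hψ4 (φ n) i j l m h1 h2 h3 h4 h5 h6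
    simp only [h7] at h
    exact tendsto_nhds_unique h tendsto_const_nhds

theorem exists_good (d : ℕ) (hd : 4 ≤ d) : ∃ (ι κ : Type) (_ : Fintype ι) (_ : Fintype κ)
    (u : ι → E d) (α : ι → ℝ) (v : κ → E d) (β : κ → ℝ), Good u α v β := by
  induction d, hd using Nat.le_induction with
  | base =>
    obtain ⟨δ, h⟩ := base_good
    exact ⟨_, _, inferInstance, inferInstance, _, _, _, _, h⟩
  | succ n hn ih =>
    obtain ⟨ι, κ, i1, i2, u, α, v, β, hG⟩ := ih
    obtain ⟨k, rfl⟩ : ∃ k, n = k + 1 := ⟨n - 1, by omega⟩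
    obtain ⟨M, hM⟩ := lift_good hG
    exact ⟨_, _, inferInstance, inferInstance, _, _, _, _, hM⟩

end Pool.Agent.Helper24
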